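import Mathlib

/-!
# Isoperimetric inequality from growth, for integer-valued functions on a group
-/

open Filter
open scoped ENNReal Pointwise

namespace Pool.Agent.Helper7.DivSub

variable {Γ : Type*} [Group Γ]

lemma shift_diff_le [DecidableEq Γ] (a : Γ → ℝ≥0∞) (S : Finset Γ) (b : ℝ≥0∞)
    (hS : ∀ g ∈ S, ∑' γ, (a (g⁻¹ * γ) - a γ) ≤ b) (m : ℕ) :
    ∀ g ∈ S ^ m, ∑' γ, (a (g⁻¹ * γ) - a γ) ≤ m * b := by
  induction m with
  | zero =>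
    intro g hg
    rw [pow_zero, Finset.mem_one] at hg
    subst hg
    simp
  | succ m ih =>
    intro g hg
    rw [pow_succ, Finset.mem_mul] at hg
    obtain ⟨g', hg', h, hh, rfl⟩ := hg
    have h1 := ih g' hg'
    have h2 := hS h hh
    calc ∑' γ, (a ((g' * h)⁻¹ * γ) - a γ)
        ≤ ∑' γ, ((a (h⁻¹ * (g'⁻¹ * γ)) - a (g'⁻¹ * γ)) + (a (g'⁻¹ * γ) - a γ)) := by
          apply ENNReal.tsum_le_tsum
          intro γ
          rw [mul_inv_rev, mul_assoc]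
          exact tsub_le_tsub_add_tsub
      _ = ∑' γ, (a (h⁻¹ * (g'⁻¹ * γ)) - a (g'⁻¹ * γ)) + ∑' γ, (a (g'⁻¹ * γ) - a γ) :=
          ENNReal.tsum_add
      _ = ∑' γ, (a (h⁻¹ * γ) - a γ) + ∑' γ, (a (g'⁻¹ * γ) - a γ) := by
          congr 1
          exact (Equiv.mulLeft g'⁻¹).tsum_eq (fun γ => a (h⁻¹ * γ) - a γ)
      _ ≤ b + m * b := add_le_add h2 h1
      _ = ((m + 1 : ℕ) : ℝ≥0∞) * b := by push_cast; ring

/-- The counting inequality. -/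
lemma count_le [DecidableEq Γ] (n : Γ → ℕ) (N b : ℕ) (S : Finset Γ)
    (hN : ∑' γ, (n γ : ℝ≥0∞) = N)
    (hS : ∀ g ∈ S, ∑' γ, ((n (g⁻¹ * γ) : ℝ≥0∞) - n γ) ≤ b) (m : ℕ) :
    (S ^ m).card * N ≤ N * N + (S ^ m).card * (m * b) := by
  have key : ∀ g ∈ S ^ m, (N : ℝ≥0∞) ≤ ∑' γ, (n γ : ℝ≥0∞) * n (g⁻¹ * γ) + m * b := by
    intro g hg
    have h1 := shift_diff_le (fun γ => (n γ : ℝ≥0∞)) S b hS m g hg
    have h2 : ∑' γ, (n (g⁻¹ * γ) : ℝ≥0∞) = N := by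
      rw [← hN]
      exact (Equiv.mulLeft g⁻¹).tsum_eq (fun γ => (n γ : ℝ≥0∞))
    rw [← h2]
    calc ∑' γ, (n (g⁻¹ * γ) : ℝ≥0∞)
        ≤ ∑' γ, ((n γ : ℝ≥0∞) * n (g⁻¹ * γ) + ((n (g⁻¹ * γ) : ℝ≥0∞) - n γ)) := by
          apply ENNReal.tsum_le_tsum
          intro γ
          rcases Nat.eq_zero_or_pos (n γ) with h0 | h0
          · rw [h0]; simp
          · have h3 : ((1 : ℕ) : ℝ≥0∞) ≤ (n γ : ℝ≥0∞) := by exact_mod_cast h0
            calc (n (g⁻¹ * γ) : ℝ≥0∞) = 1 * n (g⁻¹ * γ) := (one_mul _).symm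
              _ ≤ (n γ : ℝ≥0∞) * n (g⁻¹ * γ) := by
                gcongr
                exact_mod_cast h0
              _ ≤ _ := le_self_add
      _ = ∑' γ, (n γ : ℝ≥0∞) * n (g⁻¹ * γ) + ∑' γ, ((n (g⁻¹ * γ) : ℝ≥0∞) - n γ) :=
          ENNReal.tsum_add
      _ ≤ _ := by gcongr
  have hsum : ∑ g ∈ S ^ m, ∑' γ, (n γ : ℝ≥0∞) * n (g⁻¹ * γ) ≤ N * N := by
    rw [← Summable.tsum_finsetSum (fun _ _ => ENNReal.summable)]
    calc ∑' γ, ∑ g ∈ S ^ m, (n γ : ℝ≥0∞) * n (g⁻¹ * γ)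
        ≤ ∑' γ, (n γ : ℝ≥0∞) * N := by
          apply ENNReal.tsum_le_tsum
          intro γ
          rw [← Finset.mul_sum]
          gcongr
          have hinj : Function.Injective (fun g : Γ => g⁻¹ * γ) := by
            intro g h hgh
            exact inv_injective (mul_right_cancel hgh)
          calc ∑ g ∈ S ^ m, (n (g⁻¹ * γ) : ℝ≥0∞) ≤ ∑' g, (n (g⁻¹ * γ) : ℝ≥0∞) :=
                ENNReal.sum_le_tsum _
            _ ≤ ∑' δ, (n δ : ℝ≥0∞) :=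
                ENNReal.tsum_comp_le_tsum_of_injective hinj (fun δ => (n δ : ℝ≥0∞))
            _ = N := hN
      _ = N * N := by rw [ENNReal.tsum_mul_right, hN]
  have h3 : ((S ^ m).card : ℝ≥0∞) * N ≤ N * N + (S ^ m).card * (m * b) := by
    calc ((S ^ m).card : ℝ≥0∞) * N = ∑ g ∈ S ^ m, (N : ℝ≥0∞) := by
          rw [Finset.sum_const, nsmul_eq_mul]
      _ ≤ ∑ g ∈ S ^ m, (∑' γ, (n γ : ℝ≥0∞) * n (g⁻¹ * γ) + m * b) := Finset.sum_le_sum key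
      _ = ∑ g ∈ S ^ m, ∑' γ, (n γ : ℝ≥0∞) * n (g⁻¹ * γ) + (S ^ m).card * (m * b) := by
          rw [Finset.sum_add_distrib, Finset.sum_const, nsmul_eq_mul]
      _ ≤ _ := by gcongr
  exact_mod_cast h3

end Pool.Agent.Helper7.DivSub
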