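import Pool.Agent.Helper7.DivSub.Comb

/-!
# A refined counting inequality
-/

open Filter
open scoped ENNReal Pointwise

namespace Pool.Agent.Helper7.DivSub

variable {Γ : Type*} [Group Γ]

/-- The refined counting inequality. -/
lemma count_le2 [DecidableEq Γ] (n : Γ → ℕ) (N b : ℕ) (S : Finset Γ)
    (hN : ∑' γ, (n γ : ℝ≥0∞) = N)
    (hS : ∀ g ∈ S, ∑' γ, ((n (g⁻¹ * γ) : ℝ≥0∞) - n γ) ≤ b) (m : ℕ) :
    ((S ^ m).card : ℝ≥0∞) * N ≤
      ∑' γ, ((min N ((S ^ m).card * n γ) : ℕ) : ℝ≥0∞) + (S ^ m).card * (m * b) := by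
  have key : ∀ g ∈ S ^ m, (N : ℝ≥0∞) ≤ ∑' γ, ((min (n (g⁻¹ * γ)) (n γ) : ℕ) : ℝ≥0∞) + m * b := by
    intro g hg
    have h1 := shift_diff_le (fun γ => (n γ : ℝ≥0∞)) S b hS m g hg
    have h2 : ∑' γ, (n (g⁻¹ * γ) : ℝ≥0∞) = N := by
      rw [← hN]
      exact (Equiv.mulLeft g⁻¹).tsum_eq (fun γ => (n γ : ℝ≥0∞))
    rw [← h2]
    calc ∑' γ, (n (g⁻¹ * γ) : ℝ≥0∞)
        ≤ ∑' γ, (((min (n (g⁻¹ * γ)) (n γ) : ℕ) : ℝ≥0∞) + ((n (g⁻¹ * γ) : ℝ≥0∞) - n γ)) := by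
          apply ENNReal.tsum_le_tsum
          intro γ
          rcases le_total (n (g⁻¹ * γ)) (n γ) with h0 | h0
          · rw [min_eq_left h0]
            exact le_self_add
          · rw [min_eq_right h0]
            exact le_add_tsub
      _ = ∑' γ, ((min (n (g⁻¹ * γ)) (n γ) : ℕ) : ℝ≥0∞) +
            ∑' γ, ((n (g⁻¹ * γ) : ℝ≥0∞) - n γ) := ENNReal.tsum_add
      _ ≤ _ := by gcongr
  have hsum : ∑ g ∈ S ^ m, ∑' γ, ((min (n (g⁻¹ * γ)) (n γ) : ℕ) : ℝ≥0∞) ≤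
      ∑' γ, ((min N ((S ^ m).card * n γ) : ℕ) : ℝ≥0∞) := by
    rw [← Summable.tsum_finsetSum (fun _ _ => ENNReal.summable)]
    apply ENNReal.tsum_le_tsum
    intro γ
    have hinj : Function.Injective (fun g : Γ => g⁻¹ * γ) := by
      intro g h hgh
      exact inv_injective (mul_right_cancel hgh)
    have hA : ∑ g ∈ S ^ m, min (n (g⁻¹ * γ)) (n γ) ≤ N := by
      have h3 : ∑ g ∈ S ^ m, (n (g⁻¹ * γ) : ℝ≥0∞) ≤ N := by
        calc ∑ g ∈ S ^ m, (n (g⁻¹ * γ) : ℝ≥0∞) ≤ ∑' g, (n (g⁻¹ * γ) : ℝ≥0∞) :=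
              ENNReal.sum_le_tsum _
          _ ≤ ∑' δ, (n δ : ℝ≥0∞) :=
              ENNReal.tsum_comp_le_tsum_of_injective hinj (fun δ => (n δ : ℝ≥0∞))
          _ = N := hN
      have h4 : ∑ g ∈ S ^ m, n (g⁻¹ * γ) ≤ N := by exact_mod_cast h3
      exact (Finset.sum_le_sum (fun g _ => min_le_left _ _)).trans h4
    have hB : ∑ g ∈ S ^ m, min (n (g⁻¹ * γ)) (n γ) ≤ (S ^ m).card * n γ := by
      calc ∑ g ∈ S ^ m, min (n (g⁻¹ * γ)) (n γ) ≤ ∑ g ∈ S ^ m, n γ :=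
            Finset.sum_le_sum (fun g _ => min_le_right _ _)
        _ = (S ^ m).card * n γ := by rw [Finset.sum_const, smul_eq_mul]
    have hC := le_min hA hB
    exact_mod_cast hC
  calc ((S ^ m).card : ℝ≥0∞) * N = ∑ g ∈ S ^ m, (N : ℝ≥0∞) := by
        rw [Finset.sum_const, nsmul_eq_mul]
    _ ≤ ∑ g ∈ S ^ m, (∑' γ, ((min (n (g⁻¹ * γ)) (n γ) : ℕ) : ℝ≥0∞) + m * b) :=
        Finset.sum_le_sum key
    _ = ∑ g ∈ S ^ m, ∑' γ, ((min (n (g⁻¹ * γ)) (n γ) : ℕ) : ℝ≥0∞) + (S ^ m).card * (m * b) := by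
        rw [Finset.sum_add_distrib, Finset.sum_const, nsmul_eq_mul]
    _ ≤ _ := by gcongr

/-- Interpolation. -/
lemma min_le_interp (N G n : ℕ) (a : ℝ) (ha : 1 ≤ a) (hn : 1 ≤ n) :
    ((min N (G * n) : ℕ) : ℝ) ≤
      (N : ℝ) ^ (1 / a) * (G : ℝ) ^ (1 - 1 / a) * (n : ℝ) ^ (1 - 1 / a) := by
  have ha0 : 0 < a := by linarith
  have hs : 0 < 1 / a := by positivity
  have hs1 : 0 ≤ 1 - 1 / a := by
    rw [sub_nonneg, div_le_one ha0]; exact ha
  set x : ℝ := ((min N (G * n) : ℕ) : ℝ) with hx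
  have hx0 : 0 ≤ x := by positivity
  rcases hx0.eq_or_lt with h0 | h0
  · rw [← h0]; positivity
  · have h1 : x ≤ N := by rw [hx]; exact_mod_cast min_le_left _ _
    have h2 : x ≤ (G : ℝ) * n := by rw [hx]; exact_mod_cast min_le_right _ _
    calc x = x ^ (1 / a) * x ^ (1 - 1 / a) := by
          rw [← Real.rpow_add h0]; simp
      _ ≤ (N : ℝ) ^ (1 / a) * ((G : ℝ) * n) ^ (1 - 1 / a) := by gcongr
      _ = _ := by rw [Real.mul_rpow (by positivity) (by positivity)]; ring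

/-- From the refined counting inequality to an isoperimetric inequality. -/
lemma iso_of_count2 (c0 e a c : ℝ) (hc0 : 0 < c0) (he : 0 < e) (ha : 1 ≤ a) (hc : 0 < c) :
    ∃ c' : ℝ, 0 < c' ∧ ∀ (G : ℕ → ℕ), (∀ m : ℕ, c0 * (m : ℝ) ^ e ≤ G m) →
      ∀ N b : ℕ, 1 ≤ N → 1 ≤ b →
      (∀ m : ℕ, (G m : ℝ) * N ≤
        (N : ℝ) ^ (1 / a) * (G m : ℝ) ^ (1 - 1 / a) / c * b + G m * (m * b)) →
      c' * (N : ℝ) ^ (1 - 1 / (a + e)) ≤ b := by
  have ha0 : 0 < a := by linarith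
  have hae : 0 < a + e := by linarith
  set C : ℝ := 2 * (4 : ℝ) ^ (e / a) / (c * c0 ^ (1 / a)) with hC
  have hC0 : 0 < C := by positivity
  refine ⟨min (1 / 2) (C ^ (a / (a + e)))⁻¹, lt_min (by norm_num) (by positivity), ?_⟩
  intro G hG N b hN hb hcount
  have hNr : (1 : ℝ) ≤ N := by exact_mod_cast hN
  have hN0 : (0 : ℝ) < N := by linarith
  have hbr : (1 : ℝ) ≤ b := by exact_mod_cast hb
  have hb0 : (0 : ℝ) < b := by linarith
  have hpos : 0 < (N : ℝ) ^ (1 - 1 / (a + e)) := by positivity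
  rcases Nat.lt_or_ge N (2 * b) with hNb | hNb
  · have h1 : (N : ℝ) ^ (1 - 1 / (a + e)) ≤ N := by
      calc (N : ℝ) ^ (1 - 1 / (a + e)) ≤ (N : ℝ) ^ (1 : ℝ) := by
            apply Real.rpow_le_rpow_of_exponent_le hNr
            have : 0 < 1 / (a + e) := by positivity
            linarith
        _ = N := Real.rpow_one _
    have h2 : (N : ℝ) < 2 * b := by exact_mod_cast hNb
    calc min (1 / 2) (C ^ (a / (a + e)))⁻¹ * (N : ℝ) ^ (1 - 1 / (a + e))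
        ≤ 1 / 2 * (N : ℝ) ^ (1 - 1 / (a + e)) := by gcongr; exact min_le_left _ _
      _ ≤ 1 / 2 * N := by gcongr
      _ ≤ b := by linarith
  · set m := N / (2 * b) with hm
    have hm1 : 1 ≤ m := by
      rw [hm, Nat.one_le_div_iff (by omega)]
      exact hNb
    have hm2 : m * (2 * b) ≤ N := Nat.div_mul_le_self N (2 * b)
    have hm3 : N < (m + 1) * (2 * b) := by
      have h7 := Nat.div_add_mod N (2 * b)
      rw [← hm] at h7
      have h8 := Nat.mod_lt N (show 2 * b > 0 by omega)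
      have h9 : (m + 1) * (2 * b) = 2 * b * m + 2 * b := by ring
      omega
    have hmr : (1 : ℝ) ≤ m := by exact_mod_cast hm1
    have h4 : (N : ℝ) / (4 * b) ≤ m := by
      rw [div_le_iff₀ (by positivity)]
      have h5 : (N : ℝ) < (m + 1) * (2 * b) := by exact_mod_cast hm3
      nlinarith
    have hm2r : (m : ℝ) * (2 * b) ≤ N := by exact_mod_cast hm2
    have hG1 : c0 * ((N : ℝ) / (4 * b)) ^ e ≤ G m := by
      calc c0 * ((N : ℝ) / (4 * b)) ^ e ≤ c0 * (m : ℝ) ^ e := by gcongr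
        _ ≤ G m := hG m
    have hG0 : (0 : ℝ) < G m := lt_of_lt_of_le (by positivity) hG1
    have h5 := hcount m
    have h6 : (G m : ℝ) * N / 2 ≤ (N : ℝ) ^ (1 / a) * (G m : ℝ) ^ (1 - 1 / a) / c * b := by
      have : (G m : ℝ) * (m * b) ≤ G m * N / 2 := by nlinarith
      linarith
    have hGp : 0 < (G m : ℝ) ^ (1 - 1 / a) := by positivity
    have h7 : (G m : ℝ) ^ (1 / a) * N / 2 ≤ (N : ℝ) ^ (1 / a) / c * b := by
      have e1 : (G m : ℝ) = (G m : ℝ) ^ (1 / a) * (G m : ℝ) ^ (1 - 1 / a) := by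
        rw [← Real.rpow_add hG0]; simp
      have h8 : (G m : ℝ) ^ (1 / a) * N / 2 * (G m : ℝ) ^ (1 - 1 / a) ≤
          (N : ℝ) ^ (1 / a) / c * b * (G m : ℝ) ^ (1 - 1 / a) := by
        calc (G m : ℝ) ^ (1 / a) * N / 2 * (G m : ℝ) ^ (1 - 1 / a)
            = ((G m : ℝ) ^ (1 / a) * (G m : ℝ) ^ (1 - 1 / a)) * N / 2 := by ring
          _ = G m * N / 2 := by rw [← e1]
          _ ≤ _ := h6
          _ = _ := by ring
      exact le_of_mul_le_mul_right h8 hGp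
    have h8 : c0 ^ (1 / a) * ((N : ℝ) / (4 * b)) ^ (e / a) ≤ (G m : ℝ) ^ (1 / a) := by
      have h9 := Real.rpow_le_rpow (by positivity) hG1 (show 0 ≤ 1 / a by positivity)
      rw [Real.mul_rpow hc0.le (by positivity), ← Real.rpow_mul (by positivity)] at h9
      have e2 : e * (1 / a) = e / a := by ring
      rwa [e2] at h9
    have h9 : (N : ℝ) ^ (1 + e / a - 1 / a) ≤ C * (b : ℝ) ^ (1 + e / a) := by
      have e3 : ((N : ℝ) / (4 * b)) ^ (e / a) =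
          (N : ℝ) ^ (e / a) / ((4 : ℝ) ^ (e / a) * (b : ℝ) ^ (e / a)) := by
        rw [Real.div_rpow hN0.le (by positivity), Real.mul_rpow (by norm_num) hb0.le]
      have h10 : c0 ^ (1 / a) * ((N : ℝ) ^ (e / a) / ((4 : ℝ) ^ (e / a) * (b : ℝ) ^ (e / a))) *
          N / 2 ≤ (N : ℝ) ^ (1 / a) / c * b := by
        refine le_trans ?_ h7
        rw [← e3]
        gcongr
      have e4 : (N : ℝ) ^ (1 + e / a - 1 / a) * (N : ℝ) ^ (1 / a) = (N : ℝ) ^ (e / a) * N := by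
        rw [← Real.rpow_add hN0]
        have : 1 + e / a - 1 / a + 1 / a = e / a + 1 := by ring
        rw [this, Real.rpow_add_one hN0.ne']
      have e5 : (b : ℝ) ^ (1 + e / a) = b * (b : ℝ) ^ (e / a) := by
        rw [Real.rpow_add hb0, Real.rpow_one]
      have hNp : 0 < (N : ℝ) ^ (1 / a) := by positivity
      have h11 : (N : ℝ) ^ (1 + e / a - 1 / a) * (N : ℝ) ^ (1 / a) ≤
          C * (b : ℝ) ^ (1 + e / a) * (N : ℝ) ^ (1 / a) := by
        rw [e4, e5, hC]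
        have h12 : c0 ^ (1 / a) * ((N : ℝ) ^ (e / a) / ((4 : ℝ) ^ (e / a) * (b : ℝ) ^ (e / a))) *
          N / 2 = ((N : ℝ) ^ (e / a) * N) *
            (c0 ^ (1 / a) / (2 * ((4 : ℝ) ^ (e / a) * (b : ℝ) ^ (e / a)))) := by
          field_simp
        rw [h12] at h10
        rw [← le_div_iff₀ (by positivity)] at h10
        refine h10.trans (le_of_eq ?_)
        field_simp
      exact le_of_mul_le_mul_right h11 hNp
    have h10 := Real.rpow_le_rpow (by positivity) h9 (show 0 ≤ a / (a + e) by positivity)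
    rw [← Real.rpow_mul hN0.le, Real.mul_rpow hC0.le (by positivity), ← Real.rpow_mul hb0.le] at h10
    have e6 : (1 + e / a - 1 / a) * (a / (a + e)) = 1 - 1 / (a + e) := by
      field_simp
    have e7 : (1 + e / a) * (a / (a + e)) = 1 := by
      field_simp
    rw [e6, e7, Real.rpow_one] at h10
    calc min (1 / 2) (C ^ (a / (a + e)))⁻¹ * (N : ℝ) ^ (1 - 1 / (a + e))
        ≤ (C ^ (a / (a + e)))⁻¹ * (N : ℝ) ^ (1 - 1 / (a + e)) := by
          gcongr; exact min_le_right _ _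
      _ ≤ (C ^ (a / (a + e)))⁻¹ * (C ^ (a / (a + e)) * b) := by gcongr
      _ = b := by
          rw [← mul_assoc, inv_mul_cancel₀ (by positivity), one_mul]

end Pool.Agent.Helper7.DivSub
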