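import Mathlib

/-!
# Real analysis for the isoperimetric inequality
-/

open Filter

namespace Pool.Agent.Helper7.DivSub

/-- From growth of degree `e` and the counting inequality to an isoperimetric inequality. -/
lemma iso_of_count (c e : ℝ) (hc : 0 < c) (he : 0 < e) : ∃ c' : ℝ, 0 < c' ∧
    ∀ (G : ℕ → ℕ), (∀ m : ℕ, c * (m : ℝ) ^ e ≤ G m) → ∀ N b : ℕ, 1 ≤ N →
      (∀ m : ℕ, G m * N ≤ N * N + G m * (m * b)) → c' * (N : ℝ) ^ (1 - 1 / e) ≤ b := by
  refine ⟨min (1 / 2) ((1 / 4) * (c / 2) ^ (1 / e)), lt_min (by norm_num) (by positivity), ?_⟩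
  intro G hG N b hN hcount
  have hNr : (1 : ℝ) ≤ N := by exact_mod_cast hN
  have hN0 : (0 : ℝ) < N := by linarith
  have hpos : 0 < (N : ℝ) ^ (1 - 1 / e) := by positivity
  rcases Nat.eq_zero_or_pos b with hb | hb
  · -- impossible
    exfalso
    subst hb
    have h1 : ∀ m : ℕ, G m ≤ N := by
      intro m
      have h2 := hcount m
      simp only [mul_zero, add_zero] at h2
      exact Nat.le_of_mul_le_mul_right h2 hN
    have htend : Tendsto (fun m : ℕ => c * (m : ℝ) ^ e) atTop atTop :=
      Tendsto.const_mul_atTop hc ((tendsto_rpow_atTop he).comp tendsto_natCast_atTop_atTop)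
    obtain ⟨m, hm⟩ := (htend.eventually_gt_atTop (N : ℝ)).exists
    have h3 := hG m
    have h4 : (G m : ℝ) ≤ N := by exact_mod_cast h1 m
    linarith
  · have hbr : (1 : ℝ) ≤ b := by exact_mod_cast hb
    rcases Nat.lt_or_ge N (2 * b) with hNb | hNb
    · have h1 : (N : ℝ) ^ (1 - 1 / e) ≤ N := by
        calc (N : ℝ) ^ (1 - 1 / e) ≤ (N : ℝ) ^ (1 : ℝ) := by
              apply Real.rpow_le_rpow_of_exponent_le hNr
              have : 0 < 1 / e := by positivity
              linarith
          _ = N := Real.rpow_one _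
      have h2 : (N : ℝ) < 2 * b := by exact_mod_cast hNb
      calc min (1 / 2) ((1 / 4) * (c / 2) ^ (1 / e)) * (N : ℝ) ^ (1 - 1 / e)
          ≤ 1 / 2 * (N : ℝ) ^ (1 - 1 / e) := by gcongr; exact min_le_left _ _
        _ ≤ 1 / 2 * N := by gcongr
        _ ≤ b := by linarith
    · set m := N / (2 * b) with hm
      have hm1 : 1 ≤ m := by
        rw [hm, Nat.one_le_div_iff (by omega)]
        exact hNb
      have hm2 : m * (2 * b) ≤ N := Nat.div_mul_le_self N (2 * b)
      have hm3 : N < (m + 1) * (2 * b) := by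
        have h7 := Nat.div_add_mod N (2 * b)
        rw [← hm] at h7
        have h8 := Nat.mod_lt N (show 2 * b > 0 by omega)
        have h9 : (m + 1) * (2 * b) = 2 * b * m + 2 * b := by ring
        omega
      have hGm : G m ≤ 2 * N := by
        have h1 := hcount m
        have h2 : G m * (m * (2 * b)) ≤ G m * N := Nat.mul_le_mul_left _ hm2
        have h3 : G m * N ≤ (2 * N) * N := by nlinarith
        exact Nat.le_of_mul_le_mul_right h3 hN
      have hmr : (1 : ℝ) ≤ m := by exact_mod_cast hm1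
      have h4 : (N : ℝ) / (4 * b) ≤ m := by
        rw [div_le_iff₀ (by positivity)]
        have h5 : (N : ℝ) < (m + 1) * (2 * b) := by exact_mod_cast hm3
        nlinarith
      have h5 : c * ((N : ℝ) / (4 * b)) ^ e ≤ 2 * N := by
        calc c * ((N : ℝ) / (4 * b)) ^ e ≤ c * (m : ℝ) ^ e := by gcongr
          _ ≤ G m := hG m
          _ ≤ 2 * N := by exact_mod_cast hGm
      have h6 : ((N : ℝ) / (4 * b)) ^ e ≤ 2 * N / c := by
        rw [le_div_iff₀ hc]; linarith
      have h7 : (N : ℝ) / (4 * b) ≤ (2 * N / c) ^ (1 / e) := by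
        have h8 := Real.rpow_le_rpow (by positivity) h6 (show 0 ≤ 1 / e by positivity)
        rwa [← Real.rpow_mul (by positivity), mul_one_div_cancel he.ne', Real.rpow_one] at h8
      have h8 : (2 * (N : ℝ) / c) ^ (1 / e) = (N : ℝ) ^ (1 / e) / (c / 2) ^ (1 / e) := by
        rw [← Real.div_rpow (by positivity) (by positivity)]
        congr 1
        field_simp
      rw [h8, div_le_div_iff₀ (by positivity) (by positivity)] at h7
      have h9 : (N : ℝ) ^ (1 - 1 / e) * (N : ℝ) ^ (1 / e) = N := by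
        rw [← Real.rpow_add hN0]
        simp
      have h10 : 0 < (N : ℝ) ^ (1 / e) := by positivity
      have h11 : (1 / 4) * (c / 2) ^ (1 / e) * (N : ℝ) ^ (1 - 1 / e) ≤ b := by
        by_contra hcon
        push Not at hcon
        have h12 := mul_lt_mul_of_pos_right hcon h10
        have h13 : (1 / 4) * (c / 2) ^ (1 / e) * (N : ℝ) ^ (1 - 1 / e) * (N : ℝ) ^ (1 / e) =
            (1 / 4) * (c / 2) ^ (1 / e) * N := by
          rw [mul_assoc, h9]
        rw [h13] at h12
        linarith
      calc min (1 / 2) ((1 / 4) * (c / 2) ^ (1 / e)) * (N : ℝ) ^ (1 - 1 / e)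
          ≤ (1 / 4) * (c / 2) ^ (1 / e) * (N : ℝ) ^ (1 - 1 / e) := by
            gcongr; exact min_le_right _ _
        _ ≤ b := h11

end Pool.Agent.Helper7.DivSub
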