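import Mathlib

/-!
# A growth contradiction
-/

open Filter

namespace Pool.Agent.Helper7.DivSub

/-- A monotone polynomially bounded function cannot satisfy the recursive inequality below. -/
theorem growth_contra_aux (f : ℕ → ℝ) (hf1 : ∀ n, 1 ≤ f n) (hmono : Monotone f) (d θ κ : ℝ)
    (hθ0 : 0 ≤ θ) (hθ1 : θ < 1) (hκ0 : 0 < κ) (c n0 : ℕ) (hc : 0 < c)
    (hn0 : ∀ n : ℕ, n0 ≤ n → f n ≤ (n : ℝ) ^ d)
    (h1 : ∀ m : ℕ, n0 ≤ m → 1 ≤ m → (1 + κ * (2 * (m : ℝ)) ^ (-θ)) * f m ≤ f (m + c)) :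
    False := by
  have hcr : (0 : ℝ) < c := by exact_mod_cast hc
  -- iterate
  have h2 : ∀ m : ℕ, n0 ≤ m → 1 ≤ m → ∀ j : ℕ, j * c ≤ m →
      (1 + κ * (4 * (m : ℝ)) ^ (-θ)) ^ j * f m ≤ f (m + j * c) := by
    intro m hm hm1 j
    have hm0 : (0 : ℝ) < m := by exact_mod_cast hm1
    induction j with
    | zero => intro _; simp
    | succ j ih =>
      intro hj
      have hj' : j * c ≤ m := by
        have : (j + 1) * c = j * c + c := by ring
        omega
      have h3 := ih hj'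
      have h4 := h1 (m + j * c) (by omega) (by omega)
      have hle : (4 * (m : ℝ)) ^ (-θ) ≤ (2 * ((m + j * c : ℕ) : ℝ)) ^ (-θ) := by
        apply Real.rpow_le_rpow_of_nonpos
        · have : (0 : ℝ) < ((m + j * c : ℕ) : ℝ) := by exact_mod_cast (by omega)
          linarith
        · have : ((m + j * c : ℕ) : ℝ) ≤ ((m + m : ℕ) : ℝ) := by exact_mod_cast (by omega)
          push_cast at this ⊢
          linarith
        · linarith
      have e1 : m + (j + 1) * c = m + j * c + c := by ring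
      rw [e1, pow_succ, mul_comm (_ ^ j) _, mul_assoc]
      refine le_trans ?_ h4
      have hp : 0 ≤ (1 + κ * (4 * (m : ℝ)) ^ (-θ)) ^ j * f m :=
        mul_nonneg (by positivity) (by linarith [hf1 m])
      apply mul_le_mul _ h3 hp (by positivity)
      have := mul_le_mul_of_nonneg_left hle hκ0.le
      linarith
  -- doubling
  set κ' : ℝ := κ * (4 : ℝ) ^ (-θ) / (2 * c) with hκ'
  have hκ'0 : 0 < κ' := by positivity
  have h3 : ∀ m : ℕ, n0 ≤ m → 2 * c ≤ m → (1 + κ' * (m : ℝ) ^ (1 - θ)) * f m ≤ f (m + m) := by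
    intro m hm hmc
    have hm1 : 1 ≤ m := by omega
    have hm0 : (0 : ℝ) < m := by exact_mod_cast hm1
    have hj := Nat.div_mul_le_self m c
    have h4 := h2 m hm hm1 (m / c) hj
    have h5 : f (m + m / c * c) ≤ f (m + m) := hmono (by omega)
    have hb := one_add_mul_le_pow (a := κ * (4 * (m : ℝ)) ^ (-θ))
      (by have : 0 < κ * (4 * (m : ℝ)) ^ (-θ) := by positivity
          linarith) (m / c)
    have hjr : (m : ℝ) / (2 * c) ≤ ((m / c : ℕ) : ℝ) := by
      have h6 : m < (m / c + 1) * c := by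
        have h7 := Nat.div_add_mod m c
        have h8 := Nat.mod_lt m hc
        have h9 : (m / c + 1) * c = c * (m / c) + c := by ring
        omega
      have h6r : (m : ℝ) < (((m / c : ℕ) : ℝ) + 1) * c := by exact_mod_cast h6
      have h7 : (2 : ℝ) * c ≤ m := by exact_mod_cast hmc
      rw [div_le_iff₀ (by positivity)]
      nlinarith
    have h6 : 1 + κ' * (m : ℝ) ^ (1 - θ) ≤ (1 + κ * (4 * (m : ℝ)) ^ (-θ)) ^ (m / c) := by
      refine le_trans ?_ hb
      have e1 : κ' * (m : ℝ) ^ (1 - θ) = (m : ℝ) / (2 * c) * (κ * (4 * (m : ℝ)) ^ (-θ)) := by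
        rw [hκ', Real.mul_rpow (by norm_num) hm0.le, Real.rpow_sub hm0, Real.rpow_one,
          Real.rpow_neg hm0.le]
        field_simp
      rw [e1]
      have : 0 < κ * (4 * (m : ℝ)) ^ (-θ) := by positivity
      nlinarith
    calc (1 + κ' * (m : ℝ) ^ (1 - θ)) * f m
        ≤ (1 + κ * (4 * (m : ℝ)) ^ (-θ)) ^ (m / c) * f m :=
          mul_le_mul_of_nonneg_right h6 (by linarith [hf1 m])
      _ ≤ f (m + m) := h4.trans h5
  -- for large m the doubling factor is at least 2^(d+1)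
  have htend : Tendsto (fun m : ℕ => κ' * (m : ℝ) ^ (1 - θ)) atTop atTop :=
    Tendsto.const_mul_atTop hκ'0
      ((tendsto_rpow_atTop (by linarith : 0 < 1 - θ)).comp tendsto_natCast_atTop_atTop)
  obtain ⟨m1, hm1⟩ := eventually_atTop.1 (htend.eventually_ge_atTop ((2 : ℝ) ^ (d + 1)))
  set M := m1 + n0 + 2 * c with hM
  have hM0 : 0 < M := by omega
  have h4 : ∀ m : ℕ, M ≤ m → (2 : ℝ) ^ (d + 1) * f m ≤ f (m + m) := by
    intro m hm
    have h5 := h3 m (by omega) (by omega)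
    have h6 := hm1 m (by omega)
    have hfm : 0 < f m := lt_of_lt_of_le one_pos (hf1 _)
    nlinarith
  have h5 : ∀ j : ℕ, ((2 : ℝ) ^ (d + 1)) ^ j ≤ f (2 ^ j * M) := by
    intro j
    induction j with
    | zero => simpa using hf1 M
    | succ j ih =>
      have h6 := h4 (2 ^ j * M) (Nat.le_mul_of_pos_left M (by positivity))
      have e1 : 2 ^ (j + 1) * M = 2 ^ j * M + 2 ^ j * M := by ring
      rw [e1, pow_succ, mul_comm]
      refine le_trans ?_ h6
      gcongr
  have h6 : ∀ j : ℕ, (2 : ℝ) ^ j ≤ (M : ℝ) ^ d := by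
    intro j
    have h7 := h5 j
    have h8 := hn0 (2 ^ j * M) (by
      have : M ≤ 2 ^ j * M := Nat.le_mul_of_pos_left M (by positivity)
      omega)
    have h9 := h7.trans h8
    have e1 : ((2 ^ j * M : ℕ) : ℝ) ^ d = ((2 : ℝ) ^ j) ^ d * (M : ℝ) ^ d := by
      push_cast
      rw [Real.mul_rpow (by positivity) (by positivity)]
    have e2 : ((2 : ℝ) ^ (d + 1)) ^ j = ((2 : ℝ) ^ j) ^ d * (2 : ℝ) ^ j := by
      rw [← Real.rpow_natCast, ← Real.rpow_mul (by norm_num), ← Real.rpow_natCast 2 j,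
        ← Real.rpow_mul (by norm_num), ← Real.rpow_add (by norm_num)]
      congr 1
      ring
    rw [e1, e2] at h9
    exact le_of_mul_le_mul_left h9 (by positivity)
  obtain ⟨j, hj⟩ := pow_unbounded_of_one_lt ((M : ℝ) ^ d) (by norm_num : (1 : ℝ) < 2)
  linarith [h6 j]

/-- A monotone function with polynomially bounded growth of degree `< e + 1` cannot satisfy the
recursive inequality below. -/
theorem growth_contra (f : ℕ → ℝ) (hf1 : ∀ n, 1 ≤ f n) (hmono : Monotone f) (d e : ℝ) (he : 0 < e)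
    (hd1 : 1 ≤ d) (hde : d < e + 1) (hub : ∀ᶠ n : ℕ in atTop, f n ≤ (n : ℝ) ^ d)
    (c N : ℕ) (hc : 0 < c) (hN : 0 < N) (c1 : ℝ) (hc1 : 0 < c1)
    (hrec : ∀ m : ℕ, 1 ≤ m → c1 * (f (m + m) / (m + 1)) ^ (-(1 / e)) * f m ≤
      N * (f (m + c) - f m)) : False := by
  obtain ⟨n0, hn0⟩ := eventually_atTop.1 hub
  set θ : ℝ := (d - 1) / e with hθ
  have hθ0 : 0 ≤ θ := div_nonneg (by linarith) he.le
  have hθ1 : θ < 1 := by rw [hθ, div_lt_one he]; linarith
  have hNr : (0 : ℝ) < N := by exact_mod_cast hN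
  have hcr : (0 : ℝ) < c := by exact_mod_cast hc
  set κ : ℝ := c1 * (2 : ℝ) ^ (-(1 / e)) / N with hκ
  have hκ0 : 0 < κ := by positivity
  -- first consequence
  have h1 : ∀ m : ℕ, n0 ≤ m → 1 ≤ m →
      (1 + κ * (2 * (m : ℝ)) ^ (-θ)) * f m ≤ f (m + c) := by
    intro m hm hm1
    have hmr : (1 : ℝ) ≤ m := by exact_mod_cast hm1
    have hm0 : (0 : ℝ) < m := by linarith
    have hb := hn0 (m + m) (by omega)
    have hcast : ((m + m : ℕ) : ℝ) = 2 * m := by push_cast; ring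
    rw [hcast] at hb
    have hG : f (m + m) / (m + 1) ≤ 2 * (2 * (m : ℝ)) ^ (d - 1) := by
      rw [div_le_iff₀ (by linarith)]
      have e1 : (2 * (m : ℝ)) ^ d = (2 * (m : ℝ)) ^ (d - 1) * (2 * m) := by
        rw [← Real.rpow_add_one (by positivity)]
        ring_nf
      have hpos : 0 ≤ (2 * (m : ℝ)) ^ (d - 1) := by positivity
      nlinarith
    have hGpos : 0 < f (m + m) / (m + 1) :=
      div_pos (lt_of_lt_of_le one_pos (hf1 _)) (by linarith)
    have hpow : (2 : ℝ) ^ (-(1 / e)) * (2 * (m : ℝ)) ^ (-θ) ≤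
        (f (m + m) / (m + 1)) ^ (-(1 / e)) := by
      have e2 : (2 * (2 * (m : ℝ)) ^ (d - 1)) ^ (-(1 / e)) =
          (2 : ℝ) ^ (-(1 / e)) * (2 * (m : ℝ)) ^ (-θ) := by
        rw [Real.mul_rpow (by norm_num) (by positivity), ← Real.rpow_mul (by positivity)]
        congr 2
        rw [hθ]; ring
      rw [← e2]
      exact Real.rpow_le_rpow_of_nonpos hGpos hG (by
        have : 0 < 1 / e := by positivity
        linarith)
    have h2 := hrec m hm1
    have hfm : 0 < f m := lt_of_lt_of_le one_pos (hf1 _)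
    have h3 : c1 * ((2 : ℝ) ^ (-(1 / e)) * (2 * (m : ℝ)) ^ (-θ)) * f m ≤
        N * (f (m + c) - f m) := by
      refine le_trans ?_ h2
      gcongr
    have h4 : κ * (2 * (m : ℝ)) ^ (-θ) * f m ≤ f (m + c) - f m := by
      have : κ * (2 * (m : ℝ)) ^ (-θ) * f m =
        (c1 * ((2 : ℝ) ^ (-(1 / e)) * (2 * (m : ℝ)) ^ (-θ)) * f m) / N := by
        rw [hκ]; ring
      rw [this, div_le_iff₀ hNr]
      linarith
    linarith
  exact growth_contra_aux f hf1 hmono d θ κ hθ0 hθ1 hκ0 c n0 hc hn0 h1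

end Pool.Agent.Helper7.DivSub
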