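import Pool.Agent.Helper7.DivSub.Near
import Pool.Agent.Helper7.DivSub.Growth

/-!
# Isoperimetric inequality and finite index
-/

open Module Filter

namespace Pool.Agent.Helper7.DivSub

variable {K Q : Type*} [Field K] [DivisionRing Q] [Algebra K Q]

/-- From a bound on the limsup defining the growth exponent to a polynomial bound. -/
lemma eventually_le_of_limsup (f : ℕ → ℕ) (hf : ∀ n, 1 ≤ f n) (g : ℝ)
    (h : limsup (fun n : ℕ => ((Real.log (f n) / Real.log n : ℝ) : EReal)) atTop < (g : EReal)) :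
    ∃ d : ℝ, d < g ∧ ∀ᶠ n : ℕ in atTop, ((f n : ℕ) : ℝ) ≤ (n : ℝ) ^ d := by
  obtain ⟨d, hd1, hd2⟩ := EReal.lt_iff_exists_real_btwn.1 h
  refine ⟨d, by exact_mod_cast hd2, ?_⟩
  have h1 := eventually_lt_of_limsup_lt hd1
  filter_upwards [h1, eventually_ge_atTop 2] with n hn hn2
  have hn' : Real.log (f n) / Real.log n < d := by exact_mod_cast hn
  have hn2' : (2 : ℝ) ≤ n := by exact_mod_cast hn2
  have hlog : 0 < Real.log n := Real.log_pos (by linarith)
  rw [div_lt_iff₀ hlog] at hn'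
  have hfn : (0 : ℝ) < f n := by exact_mod_cast hf n
  rw [← Real.log_le_log_iff hfn (by positivity), Real.log_rpow (by linarith)]
  exact hn'.le

lemma finrank_pow_pos {V : Submodule K Q} [FiniteDimensional K V] (h1 : (1 : Q) ∈ V) (n : ℕ) :
    1 ≤ finrank K ↥(V ^ n) := by
  have : 0 < finrank K ↥(V ^ n) := by
    rw [Module.finrank_pos_iff_exists_ne_zero]
    exact ⟨⟨1, one_mem_pow h1 n⟩, fun h => one_ne_zero (congrArg Subtype.val h)⟩
  omega

/-- Core theorem: a division subalgebra `D` satisfying an isoperimetric inequality of degree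
`e > GKdim - 1` has finite left index. -/
theorem core (D : Subfield Q) (hK : ∀ k : K, algebraMap K Q k ∈ D)
    (V : Submodule K Q) [hV : FiniteDimensional K V] (h1 : (1 : Q) ∈ V)
    (hfrac : ∀ q : Q, ∃ n : ℕ, ∃ a ∈ V ^ n, ∃ b ∈ V ^ n, b ≠ 0 ∧ q = b⁻¹ * a)
    (L : Submodule K Q) [hL : FiniteDimensional K L] (hLD : ∀ l ∈ L, l ∈ D)
    (e c1 : ℝ) (he : 0 < e) (hc1 : 0 < c1)
    (hiso : ∀ T : Submodule K Q, FiniteDimensional K T → T ≠ ⊥ → (∀ t ∈ T, t ∈ D) →
      (finrank K T : ℝ) + c1 * (finrank K T : ℝ) ^ (1 - 1 / e) ≤ finrank K ↥(L * T))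
    (hgk : limsup (fun n : ℕ => ((Real.log (finrank K ↥(V ^ n)) / Real.log n : ℝ) : EReal))
      atTop < ((e + 1 : ℝ) : EReal)) : Module.Finite D Q := by
  by_contra hinf
  obtain ⟨d, hde, hd⟩ := eventually_le_of_limsup (fun n => finrank K ↥(V ^ n))
    (fun n => finrank_pow_pos h1 n) (e + 1) hgk
  obtain ⟨c, N, hc, hN, hdrop⟩ := drop D hK V h1 hfrac hinf L hLD
  have hmono : Monotone (fun n : ℕ => (finrank K ↥(V ^ n) : ℝ)) := by
    intro a b hab
    have := Submodule.finrank_mono (pow_le_pow_of_one_mem h1 hab)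
    change (finrank K ↥(V ^ a) : ℝ) ≤ finrank K ↥(V ^ b)
    exact_mod_cast this
  refine growth_contra (fun n : ℕ => (finrank K ↥(V ^ n) : ℝ))
    (fun n => by exact_mod_cast finrank_pow_pos h1 n) hmono (max d 1) e he (le_max_right _ _)
    (max_lt hde (by linarith)) ?_ c N hc hN c1 hc1 ?_
  · filter_upwards [hd, eventually_ge_atTop 1] with n hn hn1
    refine hn.trans ?_
    exact Real.rpow_le_rpow_of_exponent_le (by exact_mod_cast hn1) (le_max_left _ _)
  · intro m hm
    apply hdrop m m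
    intro T hT hT0 hTD hTm
    have hiT := hiso T hT hT0 hTD
    have hTpos : 0 < finrank K T := by
      rw [Module.finrank_pos_iff]
      exact (Submodule.nontrivial_iff_ne_bot).2 hT0
    have hTr : (0 : ℝ) < finrank K T := by exact_mod_cast hTpos
    have hm0 : (0 : ℝ) < (m : ℝ) + 1 := by positivity
    have hle : (finrank K T : ℝ) ≤ (finrank K ↥(V ^ (m + m)) : ℝ) / (m + 1) := by
      rw [le_div_iff₀ hm0]
      have : ((m : ℝ) + 1) * finrank K T ≤ finrank K ↥(V ^ (m + m)) := by exact_mod_cast hTm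
      linarith
    have hpow : ((finrank K ↥(V ^ (m + m)) : ℝ) / (m + 1)) ^ (-(1 / e)) ≤
        (finrank K T : ℝ) ^ (-(1 / e)) :=
      Real.rpow_le_rpow_of_nonpos hTr hle (by
        have : 0 < 1 / e := by positivity
        linarith)
    have he1 : (finrank K T : ℝ) ^ (1 - 1 / e) = finrank K T * (finrank K T : ℝ) ^ (-(1 / e)) := by
      rw [sub_eq_add_neg, Real.rpow_add hTr, Real.rpow_one]
    rw [he1] at hiT
    have h2 : c1 * ((finrank K ↥(V ^ (m + m)) : ℝ) / (m + 1)) ^ (-(1 / e)) * finrank K T ≤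
        c1 * (finrank K T * (finrank K T : ℝ) ^ (-(1 / e))) := by
      have := mul_le_mul_of_nonneg_left hpow (mul_pos hc1 hTr).le
      nlinarith
    linarith

end Pool.Agent.Helper7.DivSub
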