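import Pool.Agent.Helper7.DivSub.Tower

/-!
# The valued degree of a division subalgebra
-/

open Module Filter
open scoped Pointwise

namespace Pool.Agent.Helper7.DivSub

universe u

/-- `TowerDegree K D a`: the division subalgebra `D` of `Q` contains a tower of division subalgebras
of total degree `a`.  A step from `D` to `E ⊇ D` adds degree `e ≥ 1` if `E` has a valuation `v`
(multiplicative, the value of a sum is at most the larger value, values in a group with a
left-invariant total order) which is trivial on `D` and has a finite set `S` of values whose powers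
satisfy `|S^m| ≥ c m^e`, and it adds degree `1` if `E` contains an element `t` with
`t D ⊆ D t + D` whose powers are left linearly independent over `D`. -/
inductive TowerDegree (K : Type*) [Field K] {Q : Type*} [DivisionRing Q] [Algebra K Q] :
    Subfield Q → ℝ → Prop
  | base (D : Subfield Q) (hK : ∀ k : K, algebraMap K Q k ∈ D) : TowerDegree K D 0
  | mono (D E : Subfield Q) (a : ℝ) (hD : TowerDegree K D a) (hDE : D ≤ E) : TowerDegree K E a
  | valued (D E : Subfield Q) (a : ℝ) (hD : TowerDegree K D a) (hDE : D ≤ E)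
      (Γ : Type u) [Group Γ] [LinearOrder Γ] [MulLeftMono Γ] (v : E →*₀ WithZero Γ)
      (hadd : ∀ x y : E, v (x + y) ≤ max (v x) (v y))
      (htriv : ∀ (d : Q) (hd : d ∈ D), d ≠ 0 → v ⟨d, hDE hd⟩ = 1)
      (S : Finset Γ) (hS : ∀ g ∈ S, ∃ x : E, v x = (g : WithZero Γ))
      (e c : ℝ) (he : 1 ≤ e) (hc : 0 < c)
      (hgrowth : ∀ m : ℕ, c * (m : ℝ) ^ e ≤ ((S ^ m).card : ℝ)) : TowerDegree K E (a + e)
  | ore (D E : Subfield Q) (a : ℝ) (hD : TowerDegree K D a) (hDE : D ≤ E)
      (t : Q) (htE : t ∈ E) (ht : OreRel D t) (hi : LeftTransc D t) : TowerDegree K E (a + 1)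

variable {K Q : Type*} [Field K] [DivisionRing Q] [Algebra K Q]

lemma hasIso_mono {D E : Subfield Q} (hK : ∀ k : K, algebraMap K Q k ∈ D) (hDE : D ≤ E) (α : ℝ)
    (hα0 : 0 ≤ α) (hα1 : α ≤ 1) (hD : HasIso K D α) : HasIso K E α := by
  obtain ⟨L, hLf, hLD, c, hc, hiso⟩ := hD
  refine ⟨L, hLf, fun l hl => hDE (hLD l hl), c, hc, fun T hT hT0 _ => ?_⟩
  have e1 : T ⊓ toK D hK ⊥ = ⊥ := by
    rw [eq_bot_iff]
    rintro x ⟨_, hx⟩
    exact hx
  have e2 : L * T ⊓ toK D hK ⊥ = ⊥ := by
    rw [eq_bot_iff]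
    rintro x ⟨_, hx⟩
    exact hx
  have h := rel_iso (hK := hK) L hLD c α hc hα0 hα1 hiso (finrank K T) (one_le_finrank T hT0)
    T hT ⊥ (by rw [e1, finrank_bot, add_zero])
  rw [e2, finrank_bot, Nat.cast_zero, add_zero] at h
  exact h

lemma skewP_le {D E : Subfield Q} {t : Q} (hDE : D ≤ E) (htE : t ∈ E) (n : ℕ) :
    ∀ x ∈ skewP D t n, x ∈ E := by
  induction n with
  | zero =>
    intro x hx
    rw [skewP_zero, Submodule.mem_bot] at hx
    subst hx
    exact E.zero_mem
  | succ n ih =>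
    intro x hx
    obtain ⟨a, ha, y, hy, rfl⟩ := mem_skewP_succ.1 hx
    exact E.add_mem (E.mul_mem (hDE ha) (E.pow_mem htE n)) (ih y hy)

lemma oreFrac_le {D E : Subfield Q} {t : Q} (ht : OreRel D t) (hi : LeftTransc D t) (hDE : D ≤ E)
    (htE : t ∈ E) : oreFrac ht hi ≤ E := by
  rintro x (rfl | ⟨z, u, i, j, hu, hux, _⟩)
  · exact E.zero_mem
  · have h1 : u ∈ E := skewP_le hDE htE _ u hu.1
    have h2 : u * x ∈ E := skewP_le hDE htE _ _ hux.1
    have h3 : x = u⁻¹ * (u * x) := by
      rw [← mul_assoc, inv_mul_cancel₀ hu.ne_zero, one_mul]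
    rw [h3]
    exact E.mul_mem (E.inv_mem h1) h2

theorem TowerDegree.hasIso {D : Subfield Q} {a : ℝ} (h : TowerDegree.{u} K D a) :
    (∀ k : K, algebraMap K Q k ∈ D) ∧ (a = 0 ∨ 1 ≤ a ∧ HasIso K D (1 - 1 / a)) := by
  induction h with
  | base D hK => exact ⟨hK, Or.inl rfl⟩
  | mono D E a _ hDE ih =>
    obtain ⟨hK, h0 | ⟨h1, h2⟩⟩ := ih
    · exact ⟨fun k => hDE (hK k), Or.inl h0⟩
    · refine ⟨fun k => hDE (hK k), Or.inr ⟨h1, hasIso_mono hK hDE _ ?_ ?_ h2⟩⟩
      · rw [sub_nonneg, div_le_one (by linarith)]; exact h1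
      · have : 0 < 1 / a := by positivity
        linarith
  | valued D E a _ hDE Γ v hadd htriv S hS e c he hc hgrowth ih =>
    obtain ⟨hK, ih⟩ := ih
    have hKE : ∀ k : K, algebraMap K Q k ∈ E := fun k => hDE (hK k)
    have hv : IsVal E hKE v := by
      refine ⟨hadd, fun k hk => ?_⟩
      apply htriv _ (hK k)
      intro h
      exact hk ((map_eq_zero (algebraMap K Q)).1 h)
    refine ⟨hKE, Or.inr ?_⟩
    rcases ih with h0 | ⟨h1, h2⟩
    · subst h0
      rw [zero_add]
      obtain ⟨L, hL, hLE, c', hc', hiso⟩ := val_iso hv S hS c e hc (by linarith) hgrowth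
      exact ⟨he, L, hL, hLE, c', hc', hiso⟩
    · exact ⟨by linarith, hasIso_prod (hK := hK) hv hDE htriv S hS c e hc (by linarith) hgrowth
        a h1 h2⟩
  | ore D E a _ hDE t htE ht hi ih =>
    obtain ⟨hK, ih⟩ := ih
    have hDF := le_oreFrac ht hi
    have hKF : ∀ k : K, algebraMap K Q k ∈ oreFrac ht hi := fun k => hDF (hK k)
    have hFE : oreFrac ht hi ≤ E := oreFrac_le ht hi hDE htE
    have hv : IsVal (oreFrac ht hi) hKF (oreVal ht hi) := by
      refine ⟨oreVal_add ht hi, fun k hk => ?_⟩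
      apply oreVal_of_mem ht hi _ (hK k)
      intro h
      exact hk ((map_eq_zero (algebraMap K Q)).1 h)
    have hg : (1 : Multiplicative ℤ) < Multiplicative.ofAdd (1 : ℤ) := by
      change (0 : ℤ) < 1
      norm_num
    refine ⟨fun k => hDE (hK k), Or.inr ?_⟩
    rcases ih with h0 | ⟨h1, h2⟩
    · subst h0
      rw [zero_add]
      refine ⟨le_rfl, ?_⟩
      have h3 := hasIso_base hv ⟨t, t_mem_oreFrac ht hi⟩ _ (oreVal_t ht hi) hg
      have h4 : (1 : ℝ) - 1 / 1 = 0 := by norm_num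
      rw [h4]
      exact hasIso_mono hKF hFE 0 le_rfl zero_le_one h3
    · have ha0 : 0 < a := by linarith
      have hα0 : 0 ≤ 1 - 1 / a := by
        rw [sub_nonneg, div_le_one ha0]; exact h1
      have hα1 : 1 - 1 / a ≤ 1 := by
        have : 0 < 1 / a := by positivity
        linarith
      have h3 := hasIso_step (hK := hK) hv hDF (fun d hd hd0 => oreVal_of_mem ht hi d hd hd0)
        ⟨t, t_mem_oreFrac ht hi⟩ _ (oreVal_t ht hi) hg (1 - 1 / a) hα0 hα1 h2
      have e1 : (1 : ℝ) / (2 - (1 - 1 / a)) = 1 - 1 / (a + 1) := by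
        have e2 : (2 : ℝ) - (1 - 1 / a) = (a + 1) / a := by
          rw [eq_div_iff ha0.ne']
          have : 1 / a * a = 1 := one_div_mul_cancel ha0.ne'
          nlinarith
        have e3 : (0 : ℝ) < a + 1 := by positivity
        rw [e2, one_div_div, eq_sub_iff_add_eq, ← add_div, div_self e3.ne']
      rw [e1] at h3
      refine ⟨by linarith, hasIso_mono hKF hFE _ ?_ ?_ h3⟩
      · rw [sub_nonneg, div_le_one (by positivity)]; linarith
      · have : 0 < 1 / (a + 1) := by positivity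
        linarith

end Pool.Agent.Helper7.DivSub
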