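import Pool.Agent.Helper7.DivSub.Jump

/-!
# Expansion of the powers `V^m` from expansion of small subspaces of `D`
-/

open Module

namespace Pool.Agent.Helper7.DivSub

variable {K Q : Type*} [Field K] [DivisionRing Q] [Algebra K Q]
variable {D : Subfield Q} {hK : ∀ k : K, algebraMap K Q k ∈ D}

/-- A left `D`-linear functional as a `K`-linear endomorphism of `Q`. -/
def funK (D : Subfield Q) (hK : ∀ k : K, algebraMap K Q k ∈ D) (f : Q →ₗ[D] D) : Q →ₗ[K] Q where
  toFun := fun x => (f x : Q)
  map_add' := fun a b => by rw [map_add]; rfl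
  map_smul' := by
    intro k x
    have h := f.map_smul (⟨algebraMap K Q k, hK k⟩ : D) x
    have h2 : (⟨algebraMap K Q k, hK k⟩ : D) • x = k • x := (Algebra.smul_def k x).symm
    rw [h2] at h
    rw [h]
    simp [Algebra.smul_def]

lemma funK_mul (f : Q →ₗ[D] D) (d : Q) (hd : d ∈ D) (x : Q) :
    funK D hK f (d * x) = d * funK D hK f x := by
  have h := f.map_smul (⟨d, hd⟩ : D) x
  have h2 : (⟨d, hd⟩ : D) • x = d * x := rfl
  rw [h2] at h
  change ((f (d * x) : D) : Q) = d * ((f x : D) : Q)
  rw [h]
  rfl

instance finite_mul (V W : Submodule K Q) [hV : FiniteDimensional K V] [hW : FiniteDimensional K W] :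
    FiniteDimensional K ↥(V * W) :=
  (Submodule.fg_iff_finiteDimensional _).1
    (((Submodule.fg_iff_finiteDimensional V).2 hV).mul
      ((Submodule.fg_iff_finiteDimensional W).2 hW))

/-- Splitting of a subspace `Y` along a left `D`-linear functional: expansion of the kernel part and
of the image give expansion of `Y`. -/
lemma split (L : Submodule K Q) [hL : FiniteDimensional K L] (hLD : ∀ l ∈ L, l ∈ D)
    (f : Q →ₗ[D] D) (Y : Submodule K Q) [hY : FiniteDimensional K Y] :
    finrank K ↥(L * (Y ⊓ LinearMap.ker (funK D hK f))) + finrank K ↥(L * Y.map (funK D hK f)) ≤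
      finrank K ↥(L * Y) := by
  have h := finrank_map_add (funK D hK f) (L * Y)
  have h1 : L * (Y ⊓ LinearMap.ker (funK D hK f)) ≤ (L * Y) ⊓ LinearMap.ker (funK D hK f) := by
    rw [Submodule.mul_le]
    rintro l hl y ⟨hy, hy0⟩
    refine ⟨Submodule.mul_mem_mul hl hy, ?_⟩
    have hy1 : funK D hK f y = 0 := hy0
    change funK D hK f (l * y) = 0
    rw [funK_mul f l (hLD l hl) y, hy1, mul_zero]
  have h2 : L * Y.map (funK D hK f) ≤ (L * Y).map (funK D hK f) := by
    rw [Submodule.mul_le]
    rintro l hl z ⟨y, hy, rfl⟩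
    exact ⟨l * y, Submodule.mul_mem_mul hl hy, funK_mul f l (hLD l hl) y⟩
  have : FiniteDimensional K ↥((L * Y) ⊓ LinearMap.ker (funK D hK f)) :=
    Submodule.finiteDimensional_of_le (inf_le_left : _ ≤ L * Y)
  have h3 := Submodule.finrank_mono h1
  have h4 := Submodule.finrank_mono h2
  omega

/-- If every nonzero subspace `T ⊆ D` with `(k+1) dim T ≤ dim V^(m+k)` expands by the factor
`1 + β` under multiplication by `L ⊆ D`, then so does `V^m ∩ P` for every finite-dimensional left
`D`-subspace `P`. -/
theorem expand (V : Submodule K Q) [hV : FiniteDimensional K V] (h1 : (1 : Q) ∈ V)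
    (hfrac : ∀ q : Q, ∃ n : ℕ, ∃ a ∈ V ^ n, ∃ b ∈ V ^ n, b ≠ 0 ∧ q = b⁻¹ * a)
    (hinf : ¬ Module.Finite D Q) (L : Submodule K Q) [hL : FiniteDimensional K L]
    (hLD : ∀ l ∈ L, l ∈ D) (m k : ℕ) (β : ℝ)
    (hT : ∀ T : Submodule K Q, FiniteDimensional K T → T ≠ ⊥ → (∀ t ∈ T, t ∈ D) →
      (k + 1) * finrank K T ≤ finrank K ↥(V ^ (m + k)) →
      (1 + β) * (finrank K T : ℝ) ≤ finrank K ↥(L * T)) :
    ∀ n : ℕ, ∀ P : Submodule D Q, FiniteDimensional D P → finrank D P = n →
      (1 + β) * (finrank K ↥(V ^ m ⊓ toK D hK P) : ℝ) ≤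
        finrank K ↥(L * (V ^ m ⊓ toK D hK P)) := by
  intro n
  induction n using Nat.strong_induction_on with
  | _ n ih =>
    intro P hP hn
    by_cases hP0 : P = ⊥
    · subst hP0
      have : V ^ m ⊓ toK D hK (⊥ : Submodule D Q) = ⊥ := by
        rw [eq_bot_iff]
        rintro x ⟨_, hx⟩
        exact hx
      rw [this]
      simp
    · obtain ⟨H, hH, hle⟩ := jump (hK := hK) V h1 hfrac hinf P hP0 m k
      obtain ⟨y, hyP, hyH⟩ := SetLike.exists_of_lt hH
      obtain ⟨f, hfy, hHf⟩ := Submodule.exists_le_ker_of_notMem hyH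
      set P' := P ⊓ LinearMap.ker f with hP'
      have hlt : P' < P := by
        refine lt_of_le_of_ne inf_le_left ?_
        intro h
        have : y ∈ P' := by rw [h]; exact hyP
        exact hfy (LinearMap.mem_ker.1 this.2)
      have hP'fin : FiniteDimensional D P' := Submodule.finiteDimensional_of_le hlt.le
      have hrank : finrank D P' < n := by
        rw [← hn]
        exact Submodule.finrank_lt_finrank_of_lt hlt
      have hI := ih _ hrank P' hP'fin rfl
      set Y := V ^ m ⊓ toK D hK P with hY
      have hYfin : FiniteDimensional K ↥Y := Submodule.finiteDimensional_of_le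
        (inf_le_left : Y ≤ V ^ m)
      have hker : Y ⊓ LinearMap.ker (funK D hK f) = V ^ m ⊓ toK D hK P' := by
        ext z
        constructor
        · rintro ⟨⟨hz1, hz2⟩, hz3⟩
          refine ⟨hz1, hz2, ?_⟩
          have hz4 : funK D hK f z = 0 := hz3
          exact LinearMap.mem_ker.2 (Subtype.ext hz4)
        · rintro ⟨hz1, hz2, hz3⟩
          refine ⟨⟨hz1, hz2⟩, ?_⟩
          have : f z = 0 := LinearMap.mem_ker.1 hz3
          change ((f z : D) : Q) = 0
          rw [this]; rfl
      have hs := split (hK := hK) L hLD f Y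
      have hr := finrank_map_add (funK D hK f) Y
      rw [hker] at hs hr
      -- the image
      have himg : (1 + β) * (finrank K ↥(Y.map (funK D hK f)) : ℝ) ≤
          finrank K ↥(L * Y.map (funK D hK f)) := by
        by_cases h0 : Y.map (funK D hK f) = ⊥
        · rw [h0]; simp
        · apply hT _ inferInstance h0
          · rintro t ⟨y', _, rfl⟩
            exact (f y').2
          · refine le_trans (Nat.mul_le_mul_left _ ?_) hle
            have hmono : finrank K ↥(V ^ m ⊓ toK D hK H) ≤ finrank K ↥(V ^ m ⊓ toK D hK P') := by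
              have : FiniteDimensional K ↥(V ^ m ⊓ toK D hK P') :=
                Submodule.finiteDimensional_of_le (inf_le_left : _ ≤ V ^ m)
              apply Submodule.finrank_mono
              apply inf_le_inf_left
              apply toK_mono
              exact le_inf hH.le hHf
            omega
      have hr' : (finrank K ↥Y : ℝ) = finrank K ↥(Y.map (funK D hK f)) +
          finrank K ↥(V ^ m ⊓ toK D hK P') := by exact_mod_cast hr.symm
      have hs' : (finrank K ↥(L * (V ^ m ⊓ toK D hK P')) : ℝ) +
          finrank K ↥(L * Y.map (funK D hK f)) ≤ finrank K ↥(L * Y) := by exact_mod_cast hs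
      rw [hr', mul_add]
      linarith

end Pool.Agent.Helper7.DivSub
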