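import Mathlib

/-!
# Graded dimensions of finite-dimensional subspaces with respect to a filtration
-/

open Module
open scoped ENNReal

namespace Pool.Agent.Helper7.DivSub

variable {K M Γ : Type*} [Field K] [AddCommGroup M] [Module K M] [LinearOrder Γ]

/-- The dimension of the graded piece of `T` in degree `γ`, for the filtration `le`, `lt`. -/
noncomputable def grdim (le lt : Γ → Submodule K M) (T : Submodule K M) (γ : Γ) : ℕ :=
  finrank K ↥(T ⊓ le γ) - finrank K ↥(T ⊓ lt γ)

/-- Relative dimensions are monotone. -/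
lemma rel_mono (T T' A B : Submodule K M) [hT' : FiniteDimensional K T'] (hT : T ≤ T')
    (hAB : A ≤ B) :
    finrank K ↥(T ⊓ B) + finrank K ↥(T' ⊓ A) ≤ finrank K ↥(T' ⊓ B) + finrank K ↥(T ⊓ A) := by
  have f1 : FiniteDimensional K ↥(T' ⊓ B) :=
    Submodule.finiteDimensional_of_le (inf_le_left : T' ⊓ B ≤ T')
  have f2 : FiniteDimensional K ↥(T' ⊓ A) :=
    Submodule.finiteDimensional_of_le (inf_le_left : T' ⊓ A ≤ T')
  have f3 : FiniteDimensional K ↥(T ⊓ B) :=
    Submodule.finiteDimensional_of_le (inf_le_left.trans hT : T ⊓ B ≤ T')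
  have f4 : FiniteDimensional K ↥(T ⊓ A) :=
    Submodule.finiteDimensional_of_le (inf_le_left.trans hT : T ⊓ A ≤ T')
  have h1 := Submodule.finrank_sup_add_finrank_inf_eq (T ⊓ B) (T' ⊓ A)
  have h2 : (T ⊓ B) ⊔ (T' ⊓ A) ≤ T' ⊓ B :=
    sup_le (inf_le_inf_right _ hT) (inf_le_inf_left _ hAB)
  have h3 : (T ⊓ B) ⊓ (T' ⊓ A) ≤ T ⊓ A := by
    rintro x ⟨⟨hx1, _⟩, ⟨_, hx4⟩⟩
    exact ⟨hx1, hx4⟩
  have h4 := Submodule.finrank_mono h2
  have h5 := Submodule.finrank_mono h3
  omega

omit [LinearOrder Γ] in
lemma grdim_mono (le lt : Γ → Submodule K M) (hlt : ∀ γ, lt γ ≤ le γ) (T T' : Submodule K M)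
    [hT' : FiniteDimensional K T'] (hT : T ≤ T') (γ : Γ) :
    grdim le lt T γ ≤ grdim le lt T' γ := by
  unfold grdim
  have h := rel_mono T T' (lt γ) (le γ) hT (hlt γ)
  omega

/-- The graded dimensions sum up to the dimension. -/
lemma tsum_grdim (le lt : Γ → Submodule K M) (hlt : ∀ γ, lt γ ≤ le γ)
    (hle : ∀ γ δ, γ < δ → le γ ≤ lt δ) (dom : Submodule K M)
    (hdom : ∀ x ∈ dom, x ≠ 0 → ∃ γ, x ∈ le γ ∧ x ∉ lt γ) :
    ∀ n : ℕ, ∀ T : Submodule K M, FiniteDimensional K T → T ≤ dom → finrank K T = n →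
      ∑' γ, (grdim le lt T γ : ℝ≥0∞) = n := by
  classical
  intro n
  induction n using Nat.strong_induction_on with
  | _ n ih =>
    intro T hT hTd hn
    by_cases h0 : T = ⊥
    · subst h0
      have h1 : ∀ γ, grdim le lt (⊥ : Submodule K M) γ = 0 := by
        intro γ
        unfold grdim
        rw [bot_inf_eq, bot_inf_eq]
        simp
      simp only [h1]
      rw [finrank_bot] at hn
      subst hn
      simp
    · obtain ⟨s, hs⟩ := (Submodule.fg_iff_finiteDimensional T).2 hT
      have hsT : ∀ x ∈ s, x ∈ T := fun x hx => hs ▸ Submodule.subset_span hx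
      have hex : ∀ x : M, x ∈ s → x ≠ 0 → ∃ γ, x ∈ le γ ∧ x ∉ lt γ :=
        fun x hx hx0 => hdom x (hTd (hsT x hx)) hx0
      have hΓ : Nonempty Γ := by
        obtain ⟨x, hx, hx0⟩ := T.ne_bot_iff.1 h0
        obtain ⟨γ, _⟩ := hdom x (hTd hx) hx0
        exact ⟨γ⟩
      choose! w hw1 hw2 using hex
      have hne : (s.filter (fun x => x ≠ 0)).Nonempty := by
        by_contra hcon
        rw [Finset.not_nonempty_iff_eq_empty, Finset.filter_eq_empty_iff] at hcon
        apply h0
        rw [← hs, Submodule.span_eq_bot]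
        intro x hx
        have := hcon hx
        simpa using this
      obtain ⟨x0, hx0, hmax⟩ := Finset.exists_max_image _ w hne
      rw [Finset.mem_filter] at hx0
      set γ0 := w x0 with hγ0
      have hTle : T ≤ le γ0 := by
        rw [← hs, Submodule.span_le]
        intro x hx
        by_cases hx' : x = 0
        · subst hx'; exact Submodule.zero_mem _
        · have h1 := hmax x (Finset.mem_filter.2 ⟨hx, hx'⟩)
          rcases h1.lt_or_eq with h2 | h2
          · exact hlt _ (hle _ _ h2 (hw1 x hx hx'))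
          · rw [← h2]; exact hw1 x hx hx'
      set T' := T ⊓ lt γ0 with hT'
      have hT'lt : T' < T := by
        refine lt_of_le_of_ne inf_le_left ?_
        intro h
        have h1 : x0 ∈ T' := by rw [h]; exact hsT x0 hx0.1
        exact hw2 x0 hx0.1 hx0.2 h1.2
      have hT'f : FiniteDimensional K T' := Submodule.finiteDimensional_of_le hT'lt.le
      have hrank : finrank K T' < n := by
        rw [← hn]; exact Submodule.finrank_lt_finrank_of_lt hT'lt
      have hI := ih _ hrank T' hT'f (hT'lt.le.trans hTd) rfl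
      have hkey : ∀ γ, (grdim le lt T γ : ℝ≥0∞) = grdim le lt T' γ +
          (if γ = γ0 then ((finrank K T - finrank K T' : ℕ) : ℝ≥0∞) else 0) := by
        intro γ
        rcases lt_trichotomy γ γ0 with h | h | h
        · rw [if_neg h.ne, add_zero]
          have e1 : T' ⊓ le γ = T ⊓ le γ := by
            rw [hT', inf_assoc, inf_eq_right.2 (hle _ _ h)]
          have e2 : T' ⊓ lt γ = T ⊓ lt γ := by
            rw [hT', inf_assoc, inf_eq_right.2 ((hlt γ).trans (hle _ _ h))]
          unfold grdim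
          rw [e1, e2]
        · subst h
          rw [if_pos rfl]
          have e1 : T ⊓ le γ0 = T := inf_eq_left.2 hTle
          have e2 : T' ⊓ le γ0 = T' := inf_eq_left.2 (inf_le_right.trans (hlt γ0))
          have e3 : T' ⊓ lt γ0 = T' := inf_eq_left.2 inf_le_right
          unfold grdim
          rw [e1, e2, e3, Nat.sub_self, Nat.cast_zero, zero_add]
        · rw [if_neg h.ne', add_zero]
          have e1 : T ⊓ le γ = T := inf_eq_left.2 (hTle.trans ((hle _ _ h).trans (hlt γ)))
          have e2 : T ⊓ lt γ = T := inf_eq_left.2 (hTle.trans (hle _ _ h))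
          have e3 : T' ⊓ le γ = T' := inf_eq_left.2 (hT'lt.le.trans (inf_eq_left.1 e1))
          have e4 : T' ⊓ lt γ = T' := inf_eq_left.2 (hT'lt.le.trans (inf_eq_left.1 e2))
          unfold grdim
          rw [e1, e2, e3, e4, Nat.sub_self, Nat.sub_self]
      calc ∑' γ, (grdim le lt T γ : ℝ≥0∞)
          = ∑' γ, ((grdim le lt T' γ : ℝ≥0∞) +
            (if γ = γ0 then ((finrank K T - finrank K T' : ℕ) : ℝ≥0∞) else 0)) :=
            tsum_congr hkey
        _ = (finrank K T' : ℝ≥0∞) + ((finrank K T - finrank K T' : ℕ) : ℝ≥0∞) := by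
            rw [ENNReal.tsum_add, hI, tsum_ite_eq]
        _ = n := by
            rw [← Nat.cast_add, ← hn]
            congr 1
            omega

end Pool.Agent.Helper7.DivSub
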