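import Mathlib

/-!
# The jump lemma

`Q` is a division ring over a field `K`, `D ⊆ Q` a division subring containing `K`, and `V ⊆ Q` a
finite-dimensional `K`-subspace containing `1` such that every element of `Q` is a left fraction
`b⁻¹ a` of elements of the algebra generated by `V`.  If `Q` is infinite-dimensional as a left
`D`-vector space, then every nonzero finite-dimensional left `D`-subspace `P` of `Q` has a proper
`D`-subspace `H` with `(k+1) (dim (V^m ∩ P) - dim (V^m ∩ H)) ≤ dim V^(m+k)`.
-/

open Module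

namespace Pool.Agent.Helper7.DivSub

variable {K Q : Type*} [Field K] [DivisionRing Q] [Algebra K Q]

/-- A left `D`-subspace as a `K`-subspace. -/
def toK (D : Subfield Q) (hK : ∀ k : K, algebraMap K Q k ∈ D) (P : Submodule D Q) :
    Submodule K Q where
  carrier := P
  add_mem' := fun ha hb => P.add_mem ha hb
  zero_mem' := P.zero_mem
  smul_mem' := by
    intro k x hx
    have h := P.smul_mem (⟨algebraMap K Q k, hK k⟩ : D) hx
    rw [Algebra.smul_def]
    exact h

variable {D : Subfield Q} {hK : ∀ k : K, algebraMap K Q k ∈ D}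

@[simp] lemma mem_toK {P : Submodule D Q} {x : Q} : x ∈ toK D hK P ↔ x ∈ P := Iff.rfl

lemma toK_mono {P P' : Submodule D Q} (h : P ≤ P') : toK D hK P ≤ toK D hK P' := h

/-- Right multiplication as a left `D`-linear map. -/
def rmul (D : Subfield Q) (x : Q) : Q →ₗ[D] Q where
  toFun := fun y => y * x
  map_add' := fun a b => add_mul a b x
  map_smul' := by
    intro d y
    change ((d : Q) * y) * x = (d : Q) * (y * x)
    rw [mul_assoc]

@[simp] lemma rmul_apply (x y : Q) : rmul D x y = y * x := rfl

/-- The product `P V` of a left `D`-subspace and a `K`-subspace. -/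
def prodR (P : Submodule D Q) (V : Submodule K Q) : Submodule D Q :=
  Submodule.span D {z | ∃ p ∈ P, ∃ v ∈ V, z = p * v}

lemma mul_mem_prodR {P : Submodule D Q} {V : Submodule K Q} {p v : Q} (hp : p ∈ P) (hv : v ∈ V) :
    p * v ∈ prodR P V := Submodule.subset_span ⟨p, hp, v, hv, rfl⟩

lemma prodR_mono {P : Submodule D Q} {V W : Submodule K Q} (h : V ≤ W) :
    prodR P V ≤ prodR P W := by
  apply Submodule.span_mono
  rintro z ⟨p, hp, v, hv, rfl⟩
  exact ⟨p, hp, v, h hv, rfl⟩

lemma prodR_le {P : Submodule D Q} {V : Submodule K Q} {R : Submodule D Q}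
    (h : ∀ p ∈ P, ∀ v ∈ V, p * v ∈ R) : prodR P V ≤ R := by
  apply Submodule.span_le.2
  rintro z ⟨p, hp, v, hv, rfl⟩
  exact h p hp v hv

include hK in
lemma prodR_finite (P : Submodule D Q) (V : Submodule K Q) [hP : FiniteDimensional D P]
    [hV : FiniteDimensional K V] : FiniteDimensional D (prodR P V) := by
  obtain ⟨s, hs⟩ := (Submodule.fg_iff_finiteDimensional P).2 hP
  obtain ⟨t, ht⟩ := (Submodule.fg_iff_finiteDimensional V).2 hV
  have key : prodR P V = ⨆ v ∈ t, P.map (rmul D v) := by
    apply le_antisymm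
    · apply prodR_le
      intro p hp v hv
      rw [← ht] at hv
      induction hv using Submodule.span_induction with
      | mem v hv =>
        have : p * v ∈ P.map (rmul D v) := ⟨p, hp, rfl⟩
        exact (le_iSup₂_of_le v hv le_rfl : P.map (rmul D v) ≤ _) this
      | zero => rw [mul_zero]; exact Submodule.zero_mem _
      | add a b _ _ ha hb => rw [mul_add]; exact Submodule.add_mem _ ha hb
      | smul k a _ ha =>
        rw [Algebra.mul_smul_comm]
        have h := Submodule.smul_mem (⨆ v ∈ t, P.map (rmul D v))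
          (⟨algebraMap K Q k, hK k⟩ : D) ha
        rw [Algebra.smul_def]
        exact h
    · apply iSup₂_le
      intro v hv
      rintro z ⟨p, hp, rfl⟩
      exact mul_mem_prodR hp (ht ▸ Submodule.subset_span hv)
  rw [key]
  apply (Submodule.fg_iff_finiteDimensional _).1
  apply Submodule.fg_biSup
  intro v hv
  exact ((Submodule.fg_iff_finiteDimensional P).2 hP).map _

include hK in
lemma smul_mem_of (N : Submodule D Q) (k : K) {x : Q} (hx : x ∈ N) : k • x ∈ N :=
  (toK D hK N).smul_mem k hx

include hK in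
/-- A nonzero finite-dimensional left `D`-subspace stable under right multiplication by `V` is
everything. -/
lemma eq_top_of_stable (V : Submodule K Q)
    (hfrac : ∀ q : Q, ∃ n : ℕ, ∃ a ∈ V ^ n, ∃ b ∈ V ^ n, b ≠ 0 ∧ q = b⁻¹ * a)
    (N : Submodule D Q) [hN : FiniteDimensional D N] (hN0 : N ≠ ⊥)
    (hst : ∀ x ∈ N, ∀ v ∈ V, x * v ∈ N) : N = ⊤ := by
  have hst' : ∀ n : ℕ, ∀ v ∈ V ^ n, ∀ x ∈ N, x * v ∈ N := by
    intro n
    induction n with
    | zero =>
      intro v hv x hx
      rw [pow_zero, Submodule.one_eq_span, Submodule.mem_span_singleton] at hv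
      obtain ⟨k, rfl⟩ := hv
      rw [Algebra.mul_smul_comm, mul_one]
      exact smul_mem_of (hK := hK) N k hx
    | succ n ih =>
      intro v hv
      rw [pow_succ] at hv
      induction hv using Submodule.mul_induction_on' with
      | mem_mul_mem a ha b hb =>
        intro x hx
        rw [← mul_assoc]
        exact hst _ (ih a ha x hx) b hb
      | add a _ b _ ha hb =>
        intro x hx
        rw [mul_add]
        exact N.add_mem (ha x hx) (hb x hx)
  have hinv : ∀ n : ℕ, ∀ b ∈ V ^ n, b ≠ 0 → ∀ x ∈ N, x * b⁻¹ ∈ N := by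
    intro n b hb hb0 x hx
    let f : N →ₗ[D] N := (rmul D b).restrict (fun y hy => hst' n b hb y hy)
    have hf : Function.Injective f := by
      intro y z hyz
      have h1 : (y : Q) * b = (z : Q) * b := congrArg Subtype.val hyz
      exact Subtype.ext (mul_right_cancel₀ hb0 h1)
    obtain ⟨y, hy⟩ := (LinearMap.injective_iff_surjective.1 hf) ⟨x, hx⟩
    have h1 : (y : Q) * b = x := congrArg Subtype.val hy
    rw [← h1, mul_assoc, mul_inv_cancel₀ hb0, mul_one]
    exact y.2
  obtain ⟨x, hx, hx0⟩ := N.ne_bot_iff.1 hN0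
  rw [eq_top_iff]
  intro q _
  obtain ⟨n, a, ha, b, hb, hb0, hq⟩ := hfrac (x⁻¹ * q)
  have h1 : q = x * b⁻¹ * a := by
    rw [mul_assoc, ← hq, ← mul_assoc, mul_inv_cancel₀ hx0, one_mul]
  rw [h1]
  exact hst' n a ha _ (hinv n b hb hb0 x hx)

/-- Rank-nullity for the image of a finite-dimensional subspace. -/
lemma finrank_map_add {F M M' : Type*} [Field F] [AddCommGroup M] [Module F M] [AddCommGroup M']
    [Module F M'] (f : M →ₗ[F] M') (Y : Submodule F M) [FiniteDimensional F Y] :
    finrank F (Y.map f) + finrank F ↥(Y ⊓ LinearMap.ker f) = finrank F Y := by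
  have h := LinearMap.finrank_range_add_finrank_ker (f.domRestrict Y)
  have h1 : LinearMap.range (f.domRestrict Y) = Y.map f := by
    ext z
    simp [Submodule.mem_map]
  have h2 : finrank F (LinearMap.ker (f.domRestrict Y)) = finrank F ↥(Y ⊓ LinearMap.ker f) := by
    have h3 : (LinearMap.ker (f.domRestrict Y)).map Y.subtype = Y ⊓ LinearMap.ker f := by
      ext z
      simp only [Submodule.mem_map, LinearMap.mem_ker, LinearMap.domRestrict_apply,
        Submodule.subtype_apply, Submodule.mem_inf]
      constructor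
      · rintro ⟨y, hy, rfl⟩
        exact ⟨y.2, hy⟩
      · rintro ⟨hz, hz'⟩
        exact ⟨⟨z, hz⟩, hz', rfl⟩
    rw [← h3]
    exact (LinearEquiv.finrank_eq
      (Submodule.equivMapOfInjective Y.subtype Y.injective_subtype _))
  rw [h1, h2] at h
  exact h

lemma pow_le_pow_of_one_mem {V : Submodule K Q} (h1 : (1 : Q) ∈ V) {m n : ℕ} (h : m ≤ n) :
    V ^ m ≤ V ^ n := by
  have h1' : (1 : Submodule K Q) ≤ V := Submodule.one_le.2 h1
  exact pow_le_pow_right₀ h1' h

lemma one_mem_pow {V : Submodule K Q} (h1 : (1 : Q) ∈ V) (n : ℕ) : (1 : Q) ∈ V ^ n := by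
  have h := pow_le_pow_of_one_mem h1 (Nat.zero_le n)
  rw [pow_zero] at h
  exact h (Submodule.one_le.1 le_rfl)

instance finite_pow (V : Submodule K Q) [hV : FiniteDimensional K V] (n : ℕ) :
    FiniteDimensional K ↥(V ^ n) :=
  (Submodule.fg_iff_finiteDimensional _).1
    (((Submodule.fg_iff_finiteDimensional V).2 hV).pow n)

include hK in
/-- One step of the chain in the jump lemma. -/
lemma step (V : Submodule K Q) [hV : FiniteDimensional K V] (h1 : (1 : Q) ∈ V)
    (P : Submodule D Q) (R R' : Submodule D Q) (t m M : ℕ) (hM : m + t ≤ M)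
    (x : Q) (hx : x ∈ V ^ t) (hR : R ≤ R') (hPx : ∀ p ∈ P, p * x ∈ R')
    (hex : ∃ p ∈ P, p * x ∉ R) :
    ∃ H : Submodule D Q, H < P ∧
      finrank K ↥(V ^ M ⊓ toK D hK R) +
        (finrank K ↥(V ^ m ⊓ toK D hK P) - finrank K ↥(V ^ m ⊓ toK D hK H)) ≤
      finrank K ↥(V ^ M ⊓ toK D hK R') := by
  obtain ⟨p, hp, hpx⟩ := hex
  have hx0 : x ≠ 0 := by
    rintro rfl
    exact hpx (by rw [mul_zero]; exact R.zero_mem)
  refine ⟨P ⊓ R.comap (rmul D x), ?_, ?_⟩
  · refine lt_of_le_of_ne inf_le_left ?_
    intro h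
    have : p ∈ P ⊓ R.comap (rmul D x) := by rw [h]; exact hp
    exact hpx this.2
  · set H := P ⊓ R.comap (rmul D x) with hH
    set f : Q →ₗ[K] Q := LinearMap.mulRight K x with hf
    have hfinj : Function.Injective f := by
      intro a b hab
      exact mul_right_cancel₀ hx0 hab
    set Y := V ^ m ⊓ toK D hK P with hY
    set YH := V ^ m ⊓ toK D hK H with hYH
    set B := V ^ M ⊓ toK D hK R with hB
    have : FiniteDimensional K ↥Y := Submodule.finiteDimensional_of_le
      (inf_le_left : Y ≤ V ^ m)
    have : FiniteDimensional K ↥YH := Submodule.finiteDimensional_of_le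
      (inf_le_left : YH ≤ V ^ m)
    have : FiniteDimensional K ↥B := Submodule.finiteDimensional_of_le
      (inf_le_left : B ≤ V ^ M)
    have : FiniteDimensional K ↥(V ^ M ⊓ toK D hK R') := Submodule.finiteDimensional_of_le
      (inf_le_left : V ^ M ⊓ toK D hK R' ≤ V ^ M)
    have hle : Y.map f ⊔ B ≤ V ^ M ⊓ toK D hK R' := by
      apply sup_le
      · rintro z ⟨y, ⟨hy1, hy2⟩, rfl⟩
        refine ⟨?_, hPx y hy2⟩
        have : y * x ∈ V ^ (m + t) := by
          rw [pow_add]; exact Submodule.mul_mem_mul hy1 hx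
        exact pow_le_pow_of_one_mem h1 hM this
      · exact inf_le_inf_left _ (toK_mono hR)
    have hinf : Y.map f ⊓ B ≤ YH.map f := by
      rintro z ⟨⟨y, ⟨hy1, hy2⟩, rfl⟩, hz⟩
      exact ⟨y, ⟨hy1, hy2, hz.2⟩, rfl⟩
    have e1 := Submodule.finrank_sup_add_finrank_inf_eq (Y.map f) B
    have e2 : finrank K ↥(Y.map f) = finrank K ↥Y :=
      (LinearEquiv.finrank_eq (Submodule.equivMapOfInjective f hfinj Y)).symm
    have e3 : finrank K ↥(YH.map f) = finrank K ↥YH :=
      (LinearEquiv.finrank_eq (Submodule.equivMapOfInjective f hfinj YH)).symm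
    have e4 := Submodule.finrank_mono hinf
    have e5 := Submodule.finrank_mono hle
    have e6 : finrank K ↥YH ≤ finrank K ↥Y :=
      Submodule.finrank_mono (inf_le_inf_left _ (toK_mono inf_le_left))
    omega

/-- The jump lemma. -/
theorem jump (V : Submodule K Q) [hV : FiniteDimensional K V] (h1 : (1 : Q) ∈ V)
    (hfrac : ∀ q : Q, ∃ n : ℕ, ∃ a ∈ V ^ n, ∃ b ∈ V ^ n, b ≠ 0 ∧ q = b⁻¹ * a)
    (hinf : ¬ Module.Finite D Q) (P : Submodule D Q) [hP : FiniteDimensional D P] (hP0 : P ≠ ⊥)
    (m k : ℕ) :
    ∃ H : Submodule D Q, H < P ∧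
      (k + 1) * (finrank K ↥(V ^ m ⊓ toK D hK P) - finrank K ↥(V ^ m ⊓ toK D hK H))
        ≤ finrank K ↥(V ^ (m + k)) := by
  by_contra hcon
  push Not at hcon
  let R : ℕ → Submodule D Q := fun t => Nat.casesOn t ⊥ (fun s => prodR P (V ^ s))
  have hR0 : R 0 = ⊥ := rfl
  have hRs : ∀ s, R (s + 1) = prodR P (V ^ s) := fun s => rfl
  have hfinR : ∀ s, FiniteDimensional D (prodR P (V ^ s)) :=
    fun s => prodR_finite (hK := hK) P (V ^ s)
  have hPle : ∀ s, P ≤ prodR P (V ^ s) := by
    intro s p hp
    have := mul_mem_prodR (P := P) hp (one_mem_pow h1 s)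
    rwa [mul_one] at this
  have hmono : ∀ t, R t ≤ R (t + 1) := by
    intro t
    cases t with
    | zero => rw [hR0]; exact bot_le
    | succ s =>
      rw [hRs, hRs]
      exact prodR_mono (pow_le_pow_of_one_mem h1 (Nat.le_succ s))
  have hstrict : ∀ t, ∃ x ∈ V ^ t, ∃ p ∈ P, p * x ∉ R t := by
    intro t
    by_contra hno
    push Not at hno
    have hle : prodR P (V ^ t) ≤ R t := prodR_le (fun p hp v hv => hno v hv p hp)
    cases t with
    | zero =>
      rw [hR0] at hle
      exact hP0 (le_bot_iff.1 ((hPle 0).trans hle))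
    | succ s =>
      rw [hRs] at hle
      have := hfinR s
      have htop : prodR P (V ^ s) = ⊤ := by
        apply eq_top_of_stable (hK := hK) V hfrac
        · intro hbot
          exact hP0 (le_bot_iff.1 (hbot ▸ hPle s))
        · intro y hy v hv
          unfold prodR at hy
          induction hy using Submodule.span_induction with
          | mem z hz =>
            obtain ⟨p, hp, w, hw, rfl⟩ := hz
            rw [mul_assoc]
            apply hle
            apply mul_mem_prodR hp
            rw [pow_succ]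
            exact Submodule.mul_mem_mul hw hv
          | zero => rw [zero_mul]; exact Submodule.zero_mem _
          | add a b _ _ ha hb => rw [add_mul]; exact Submodule.add_mem _ ha hb
          | smul d a _ ha =>
            have := Submodule.smul_mem _ d ha
            change (d : Q) * (a * v) ∈ _ at this
            change ((d : Q) * a) * v ∈ _
            rw [mul_assoc]
            exact this
      apply hinf
      have h2 : Module.Finite D (⊤ : Submodule D Q) := by rw [← htop]; exact hfinR s
      exact Module.Finite.of_surjective (Submodule.subtype (⊤ : Submodule D Q))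
        (fun q => ⟨⟨q, trivial⟩, rfl⟩)
  have hstep : ∀ t, t ≤ k + 1 →
      t * (finrank K ↥(V ^ (m + k)) + 1) ≤ (k + 1) * finrank K ↥(V ^ (m + k) ⊓ toK D hK (R t)) := by
    intro t
    induction t with
    | zero => intro _; simp
    | succ t ih =>
      intro ht
      obtain ⟨x, hx, p, hp, hpx⟩ := hstrict t
      obtain ⟨H, hH, hle⟩ := step (hK := hK) V h1 P (R t) (R (t + 1)) t m (m + k)
        (by omega) x hx (hmono t) (fun p hp => by rw [hRs]; exact mul_mem_prodR hp hx)
        ⟨p, hp, hpx⟩
      have h3 := hcon H hH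
      have h4 := ih (by omega)
      have h5 := Nat.mul_le_mul_left (k + 1) hle
      rw [Nat.mul_add] at h5
      have h6 : (t + 1) * (finrank K ↥(V ^ (m + k)) + 1) =
        t * (finrank K ↥(V ^ (m + k)) + 1) + (finrank K ↥(V ^ (m + k)) + 1) := by ring
      omega
  have hlast := hstep (k + 1) le_rfl
  have h7 : finrank K ↥(V ^ (m + k) ⊓ toK D hK (R (k + 1))) ≤ finrank K ↥(V ^ (m + k)) :=
    Submodule.finrank_mono inf_le_left
  have h8 := Nat.le_of_mul_le_mul_left hlast (Nat.succ_pos k)
  omega

end Pool.Agent.Helper7.DivSub
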