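import Pool.Agent.Helper7.DivSub.Expand

/-!
# Near invariance of `V^m` under left multiplication
-/

open Module

namespace Pool.Agent.Helper7.DivSub

variable {K Q : Type*} [Field K] [DivisionRing Q] [Algebra K Q]

lemma near_one (V : Submodule K Q) [hV : FiniteDimensional K V] {c m : ℕ} {a b : Q}
    (ha : a ∈ V ^ c) (hb : b ∈ V ^ c) (hb0 : b ≠ 0) :
    finrank K ↥((V ^ m).map (LinearMap.mulLeft K (b⁻¹ * a)) ⊔ V ^ m) ≤ finrank K ↥(V ^ (m + c)) := by
  set W := (V ^ m).map (LinearMap.mulLeft K a) ⊔ (V ^ m).map (LinearMap.mulLeft K b) with hW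
  have h1 : (V ^ m).map (LinearMap.mulLeft K (b⁻¹ * a)) ⊔ V ^ m =
      W.map (LinearMap.mulLeft K b⁻¹) := by
    rw [hW, Submodule.map_sup]
    congr 1
    · rw [← Submodule.map_comp]
      congr 1
      ext x
      simp
    · rw [← Submodule.map_comp]
      have : (LinearMap.mulLeft K b⁻¹).comp (LinearMap.mulLeft K b) = LinearMap.id := by
        ext x
        simp [hb0]
      rw [this, Submodule.map_id]
  have hinj : Function.Injective (LinearMap.mulLeft K b⁻¹ : Q →ₗ[K] Q) := by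
    intro x y hxy
    exact mul_left_cancel₀ (inv_ne_zero hb0) hxy
  have h2 : finrank K ↥(W.map (LinearMap.mulLeft K b⁻¹)) = finrank K ↥W :=
    (LinearEquiv.finrank_eq (Submodule.equivMapOfInjective _ hinj W)).symm
  rw [h1, h2]
  apply Submodule.finrank_mono
  rw [hW]
  apply sup_le
  · rintro z ⟨y, hy, rfl⟩
    rw [add_comm, pow_add]
    exact Submodule.mul_mem_mul ha hy
  · rintro z ⟨y, hy, rfl⟩
    rw [add_comm, pow_add]
    exact Submodule.mul_mem_mul hb hy

lemma near_finset (V : Submodule K Q) [hV : FiniteDimensional K V] (c m : ℕ) (s : Finset Q)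
    (hs : ∀ l ∈ s, ∃ a ∈ V ^ c, ∃ b ∈ V ^ c, b ≠ 0 ∧ l = b⁻¹ * a)
    (hm : finrank K ↥(V ^ m) ≤ finrank K ↥(V ^ (m + c))) :
    finrank K ↥(Submodule.span K (s : Set Q) * V ^ m ⊔ V ^ m) ≤
      finrank K ↥(V ^ m) + s.card * (finrank K ↥(V ^ (m + c)) - finrank K ↥(V ^ m)) := by
  classical
  induction s using Finset.induction_on with
  | empty =>
    rw [Finset.coe_empty, Submodule.span_empty, Submodule.bot_mul, bot_sup_eq]
    simp
  | insert l s hl ih =>
    have ih' := ih (fun x hx => hs x (Finset.mem_insert_of_mem hx))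
    obtain ⟨a, ha, b, hb, hb0, hlab⟩ := hs l (Finset.mem_insert_self _ _)
    have h1 := near_one V (m := m) ha hb hb0
    rw [← hlab] at h1
    have hfs : FiniteDimensional K ↥(Submodule.span K (s : Set Q)) :=
      FiniteDimensional.span_finset K s
    set A := Submodule.span K (s : Set Q) * V ^ m ⊔ V ^ m with hA
    set B := (V ^ m).map (LinearMap.mulLeft K l) ⊔ V ^ m with hB
    have h2 : Submodule.span K ((insert l s : Finset Q) : Set Q) * V ^ m ⊔ V ^ m = A ⊔ B := by
      rw [Finset.coe_insert, Submodule.span_insert, Submodule.sup_mul]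
      have : (Submodule.span K {l} : Submodule K Q) * V ^ m =
          (V ^ m).map (LinearMap.mulLeft K l) := by
        apply le_antisymm
        · rw [Submodule.mul_le]
          intro x hx y hy
          obtain ⟨r, rfl⟩ := Submodule.mem_span_singleton.1 hx
          exact ⟨r • y, Submodule.smul_mem _ _ hy, by simp⟩
        · rintro z ⟨y, hy, rfl⟩
          exact Submodule.mul_mem_mul (Submodule.mem_span_singleton_self l) hy
      rw [this, hA, hB]
      rw [sup_comm ((V ^ m).map (LinearMap.mulLeft K l)) _, sup_assoc, sup_assoc, ← sup_assoc (V ^ m)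
        _ (V ^ m), sup_comm (V ^ m) ((V ^ m).map (LinearMap.mulLeft K l)), sup_assoc, sup_idem]
    have h3 := Submodule.finrank_sup_add_finrank_inf_eq A B
    have h4 : finrank K ↥(V ^ m) ≤ finrank K ↥(A ⊓ B) :=
      Submodule.finrank_mono (le_inf le_sup_right le_sup_right)
    rw [h2, Finset.card_insert_of_notMem hl, add_mul, one_mul]
    omega

/-- Near invariance. -/
theorem near (V : Submodule K Q) [hV : FiniteDimensional K V] (h1 : (1 : Q) ∈ V)
    (hfrac : ∀ q : Q, ∃ n : ℕ, ∃ a ∈ V ^ n, ∃ b ∈ V ^ n, b ≠ 0 ∧ q = b⁻¹ * a)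
    (L : Submodule K Q) [hL : FiniteDimensional K L] :
    ∃ c N : ℕ, 0 < c ∧ 0 < N ∧ ∀ m : ℕ, finrank K ↥(L * V ^ m) ≤
      finrank K ↥(V ^ m) + N * (finrank K ↥(V ^ (m + c)) - finrank K ↥(V ^ m)) := by
  classical
  obtain ⟨s, hs⟩ := (Submodule.fg_iff_finiteDimensional L).2 hL
  choose n a ha b hb hb0 hq using hfrac
  refine ⟨s.sup n + 1, s.card + 1, Nat.succ_pos _, Nat.succ_pos _, fun m => ?_⟩
  have hle : ∀ l ∈ s, V ^ (n l) ≤ V ^ (s.sup n + 1) := fun l hl =>
    pow_le_pow_of_one_mem h1 ((Finset.le_sup hl).trans (Nat.le_succ _))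
  have hm : finrank K ↥(V ^ m) ≤ finrank K ↥(V ^ (m + (s.sup n + 1))) :=
    Submodule.finrank_mono (pow_le_pow_of_one_mem h1 (Nat.le_add_right _ _))
  have h := near_finset V (s.sup n + 1) m s
    (fun l hl => ⟨a l, hle l hl (ha l), b l, hle l hl (hb l), hb0 l, hq l⟩) hm
  have hfs : FiniteDimensional K ↥(Submodule.span K (s : Set Q)) :=
    FiniteDimensional.span_finset K s
  have h2 : finrank K ↥(L * V ^ m) ≤
      finrank K ↥(Submodule.span K (s : Set Q) * V ^ m ⊔ V ^ m) := by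
    apply Submodule.finrank_mono
    rw [hs]
    exact le_sup_left
  rw [add_mul, one_mul]
  omega

lemma span_finite {D : Subfield Q} (hK : ∀ k : K, algebraMap K Q k ∈ D) (X : Submodule K Q)
    [hX : FiniteDimensional K X] : FiniteDimensional D ↥(Submodule.span D (X : Set Q)) := by
  obtain ⟨s, hs⟩ := (Submodule.fg_iff_finiteDimensional X).2 hX
  have h : Submodule.span D (X : Set Q) = Submodule.span D (s : Set Q) := by
    apply le_antisymm
    · rw [Submodule.span_le]
      have h2 : X ≤ toK D hK (Submodule.span D (s : Set Q)) := by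
        rw [← hs, Submodule.span_le]
        exact fun x hx => Submodule.subset_span hx
      exact h2
    · apply Submodule.span_mono
      rw [← hs]
      exact Submodule.subset_span
  rw [h]
  exact FiniteDimensional.span_finset D s

/-- The drop inequality. -/
theorem drop (D : Subfield Q) (hK : ∀ k : K, algebraMap K Q k ∈ D)
    (V : Submodule K Q) [hV : FiniteDimensional K V] (h1 : (1 : Q) ∈ V)
    (hfrac : ∀ q : Q, ∃ n : ℕ, ∃ a ∈ V ^ n, ∃ b ∈ V ^ n, b ≠ 0 ∧ q = b⁻¹ * a)
    (hinf : ¬ Module.Finite D Q) (L : Submodule K Q) [hL : FiniteDimensional K L]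
    (hLD : ∀ l ∈ L, l ∈ D) :
    ∃ c N : ℕ, 0 < c ∧ 0 < N ∧ ∀ m k : ℕ, ∀ β : ℝ,
      (∀ T : Submodule K Q, FiniteDimensional K T → T ≠ ⊥ → (∀ t ∈ T, t ∈ D) →
        (k + 1) * finrank K T ≤ finrank K ↥(V ^ (m + k)) →
        (1 + β) * (finrank K T : ℝ) ≤ finrank K ↥(L * T)) →
      β * finrank K ↥(V ^ m) ≤ N * ((finrank K ↥(V ^ (m + c)) : ℝ) - finrank K ↥(V ^ m)) := by
  obtain ⟨c, N, hc, hN, hn⟩ := near V h1 hfrac L
  refine ⟨c, N, hc, hN, fun m k β hT => ?_⟩
  have hfin := span_finite hK (V ^ m)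
  have h := expand (hK := hK) V h1 hfrac hinf L hLD m k β hT _
    (Submodule.span D ((V ^ m : Submodule K Q) : Set Q)) hfin rfl
  have h2 : V ^ m ⊓ toK D hK (Submodule.span D ((V ^ m : Submodule K Q) : Set Q)) = V ^ m := by
    apply inf_eq_left.2
    exact fun x hx => Submodule.subset_span hx
  rw [h2] at h
  have h3 := hn m
  have hmono : finrank K ↥(V ^ m) ≤ finrank K ↥(V ^ (m + c)) :=
    Submodule.finrank_mono (pow_le_pow_of_one_mem h1 (Nat.le_add_right _ _))
  have h4 : (finrank K ↥(L * V ^ m) : ℝ) ≤ finrank K ↥(V ^ m) +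
      N * ((finrank K ↥(V ^ (m + c)) : ℝ) - finrank K ↥(V ^ m)) := by
    have : (finrank K ↥(L * V ^ m) : ℝ) ≤ ((finrank K ↥(V ^ m) +
      N * (finrank K ↥(V ^ (m + c)) - finrank K ↥(V ^ m)) : ℕ) : ℝ) := by exact_mod_cast h3
    rwa [Nat.cast_add, Nat.cast_mul, Nat.cast_sub hmono] at this
  linarith

end Pool.Agent.Helper7.DivSub
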