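import Mathlib

/-!
# Skew polynomials inside a division ring

`D ⊆ Q` division rings, `t ∈ Q` with `t D ⊆ D t + D` and `1, t, t², …` left linearly independent over
`D`.  `P n` is the left `D`-span of `1, t, …, t^(n-1)`.
-/

open Module

namespace Pool.Agent.Helper7.DivSub

variable {Q : Type*} [DivisionRing Q]

/-- `t D ⊆ D t + D`. -/
def OreRel (D : Subfield Q) (t : Q) : Prop :=
  ∀ d ∈ D, ∃ a ∈ D, ∃ b ∈ D, t * d = a * t + b

/-- The powers of `t` are left linearly independent over `D`. -/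
def LeftTransc (D : Subfield Q) (t : Q) : Prop :=
  LinearIndependent D (fun n : ℕ => t ^ n)

/-- The left `D`-span of `1, t, …, t^(n-1)`. -/
def skewP (D : Subfield Q) (t : Q) (n : ℕ) : Submodule D Q :=
  Submodule.span D ((fun j : ℕ => t ^ j) '' Set.Iio n)

variable {D : Subfield Q} {t : Q}

lemma smul_def' (d : D) (x : Q) : d • x = (d : Q) * x := rfl

lemma skewP_zero : skewP D t 0 = ⊥ := by
  unfold skewP
  rw [Submodule.span_eq_bot]
  rintro x ⟨j, hj, _⟩
  exact absurd hj (Nat.not_lt_zero j)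

lemma skewP_mono {m n : ℕ} (h : m ≤ n) : skewP D t m ≤ skewP D t n := by
  apply Submodule.span_mono
  apply Set.image_mono
  exact Set.Iio_subset_Iio h

lemma pow_mem_skewP {j n : ℕ} (h : j < n) : t ^ j ∈ skewP D t n :=
  Submodule.subset_span ⟨j, h, rfl⟩

lemma one_mem_skewP {n : ℕ} (h : 0 < n) : (1 : Q) ∈ skewP D t n := by
  have := pow_mem_skewP (D := D) (t := t) h
  rwa [pow_zero] at this

/-- Decomposition with leading coefficient. -/
lemma mem_skewP_succ {n : ℕ} {x : Q} :
    x ∈ skewP D t (n + 1) ↔ ∃ a ∈ D, ∃ y ∈ skewP D t n, x = a * t ^ n + y := by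
  have h : skewP D t (n + 1) = Submodule.span D {t ^ n} ⊔ skewP D t n := by
    unfold skewP
    rw [← Submodule.span_union]
    congr 1
    ext x
    simp only [Set.mem_image, Set.mem_Iio, Set.mem_union, Set.mem_singleton_iff]
    constructor
    · rintro ⟨j, hj, rfl⟩
      rcases Nat.lt_succ_iff_lt_or_eq.1 hj with h | h
      · exact Or.inr ⟨j, h, rfl⟩
      · exact Or.inl (by rw [h])
    · rintro (rfl | ⟨j, hj, rfl⟩)
      · exact ⟨n, Nat.lt_succ_self n, rfl⟩
      · exact ⟨j, Nat.lt_succ_of_lt hj, rfl⟩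
  rw [h, Submodule.mem_sup]
  constructor
  · rintro ⟨y, hy, z, hz, rfl⟩
    obtain ⟨d, rfl⟩ := Submodule.mem_span_singleton.1 hy
    exact ⟨d, d.2, z, hz, rfl⟩
  · rintro ⟨a, ha, y, hy, rfl⟩
    exact ⟨a * t ^ n, Submodule.mem_span_singleton.2 ⟨⟨a, ha⟩, rfl⟩, y, hy, rfl⟩

lemma mul_mem_skewP_left {n : ℕ} {a x : Q} (ha : a ∈ D) (hx : x ∈ skewP D t n) :
    a * x ∈ skewP D t n := (skewP D t n).smul_mem (⟨a, ha⟩ : D) hx

lemma t_mul_mem (ht : OreRel D t) {n : ℕ} {x : Q} (hx : x ∈ skewP D t n) :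
    t * x ∈ skewP D t (n + 1) := by
  induction n generalizing x with
  | zero =>
    rw [skewP_zero, Submodule.mem_bot] at hx
    subst hx
    rw [mul_zero]
    exact Submodule.zero_mem _
  | succ n ih =>
    obtain ⟨a, ha, y, hy, rfl⟩ := mem_skewP_succ.1 hx
    obtain ⟨a', ha', b', hb', hab⟩ := ht a ha
    have e : t * (a * t ^ n + y) = a' * t ^ (n + 1) + (b' * t ^ n + t * y) := by
      rw [mul_add, ← mul_assoc, hab, add_mul, mul_assoc, ← pow_succ', add_assoc]
    rw [e]
    apply Submodule.add_mem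
    · exact mul_mem_skewP_left ha' (pow_mem_skewP (by omega))
    · apply Submodule.add_mem
      · exact mul_mem_skewP_left hb' (pow_mem_skewP (by omega))
      · exact skewP_mono (by omega) (ih hy)

lemma tpow_mul_mem (ht : OreRel D t) (i : ℕ) {n : ℕ} {x : Q} (hx : x ∈ skewP D t n) :
    t ^ i * x ∈ skewP D t (n + i) := by
  induction i with
  | zero => rw [pow_zero, one_mul]; exact hx
  | succ i ih =>
    rw [pow_succ', mul_assoc]
    exact t_mul_mem ht ih

lemma mul_mem_skewP (ht : OreRel D t) {m n : ℕ} {x y : Q} (hx : x ∈ skewP D t (m + 1))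
    (hy : y ∈ skewP D t n) : x * y ∈ skewP D t (n + m) := by
  induction m generalizing x with
  | zero =>
    obtain ⟨a, ha, z, hz, rfl⟩ := mem_skewP_succ.1 hx
    rw [skewP_zero, Submodule.mem_bot] at hz
    subst hz
    simp only [pow_zero, mul_one, add_zero]
    exact mul_mem_skewP_left ha hy
  | succ m ih =>
    obtain ⟨a, ha, z, hz, rfl⟩ := mem_skewP_succ.1 hx
    rw [add_mul]
    apply Submodule.add_mem
    · rw [mul_assoc]
      exact mul_mem_skewP_left ha (tpow_mul_mem ht (m + 1) hy)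
    · exact skewP_mono (by omega) (ih hz)

lemma tpow_notMem (hi : LeftTransc D t) (n : ℕ) : t ^ n ∉ skewP D t n := by
  have h := hi.notMem_span_image (s := Set.Iio n) (x := n) (by simp)
  exact h

lemma t_mul_notMem (ht : OreRel D t) (hi : LeftTransc D t) {n : ℕ} {x : Q}
    (hx : x ∈ skewP D t (n + 1)) (hx' : x ∉ skewP D t n) : t * x ∉ skewP D t (n + 1) := by
  obtain ⟨a, ha, y, hy, rfl⟩ := mem_skewP_succ.1 hx
  obtain ⟨a', ha', b', hb', hab⟩ := ht a ha
  have ha0 : a ≠ 0 := by
    rintro rfl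
    apply hx'
    rw [zero_mul, zero_add]
    exact hy
  have ha'0 : a' ≠ 0 := by
    rintro rfl
    rw [zero_mul, zero_add] at hab
    have h1 : t = b' * a⁻¹ := by rw [← hab, mul_assoc, mul_inv_cancel₀ ha0, mul_one]
    have h2 : t ^ 1 ∈ skewP D t 1 := by
      have := mul_mem_skewP_left (t := t) (n := 1) (D.mul_mem hb' (D.inv_mem ha))
        (one_mem_skewP (D := D) (t := t) one_pos)
      rw [mul_one] at this
      rw [pow_one]
      exact h1.symm ▸ this
    exact tpow_notMem hi 1 h2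
  have e : t * (a * t ^ n + y) = a' * t ^ (n + 1) + (b' * t ^ n + t * y) := by
    rw [mul_add, ← mul_assoc, hab, add_mul, mul_assoc, ← pow_succ', add_assoc]
  rw [e]
  intro hcon
  have h3 : b' * t ^ n + t * y ∈ skewP D t (n + 1) :=
    Submodule.add_mem _ (mul_mem_skewP_left hb' (pow_mem_skewP (by omega))) (t_mul_mem ht hy)
  have h4 : a' * t ^ (n + 1) ∈ skewP D t (n + 1) := by
    have := Submodule.sub_mem _ hcon h3
    rwa [add_sub_cancel_right] at this
  have h5 : t ^ (n + 1) ∈ skewP D t (n + 1) := by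
    have := mul_mem_skewP_left (D.inv_mem ha') h4
    rwa [← mul_assoc, inv_mul_cancel₀ ha'0, one_mul] at this
  exact tpow_notMem hi (n + 1) h5

lemma tpow_mul_notMem (ht : OreRel D t) (hi : LeftTransc D t) (i : ℕ) {n : ℕ} {x : Q}
    (hx : x ∈ skewP D t (n + 1)) (hx' : x ∉ skewP D t n) : t ^ i * x ∉ skewP D t (n + i) := by
  induction i with
  | zero => rw [pow_zero, one_mul]; exact hx'
  | succ i ih =>
    rw [pow_succ', mul_assoc]
    refine t_mul_notMem ht hi ?_ ih
    have := tpow_mul_mem ht i hx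
    rwa [show n + 1 + i = n + i + 1 by ring] at this

/-- Degrees add up. -/
lemma mul_notMem_skewP (ht : OreRel D t) (hi : LeftTransc D t) {m n : ℕ} {x y : Q}
    (hx : x ∈ skewP D t (m + 1)) (hx' : x ∉ skewP D t m)
    (hy : y ∈ skewP D t (n + 1)) (hy' : y ∉ skewP D t n) : x * y ∉ skewP D t (n + m) := by
  obtain ⟨a, ha, z, hz, rfl⟩ := mem_skewP_succ.1 hx
  have ha0 : a ≠ 0 := by
    rintro rfl
    apply hx'
    rw [zero_mul, zero_add]
    exact hz
  intro hcon
  rw [add_mul] at hcon
  have h1 : z * y ∈ skewP D t (n + m) := by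
    rcases Nat.eq_zero_or_pos m with h0 | h0
    · subst h0
      rw [skewP_zero, Submodule.mem_bot] at hz
      subst hz
      rw [zero_mul]
      exact Submodule.zero_mem _
    · obtain ⟨k, rfl⟩ := Nat.exists_eq_succ_of_ne_zero h0.ne'
      have := mul_mem_skewP ht hz hy
      rwa [show n + 1 + k = n + k.succ by omega] at this
  have h2 : a * t ^ m * y ∈ skewP D t (n + m) := by
    have := Submodule.sub_mem _ hcon h1
    rwa [add_sub_cancel_right] at this
  have h3 : t ^ m * y ∈ skewP D t (n + m) := by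
    have := mul_mem_skewP_left (D.inv_mem ha) h2
    rwa [mul_assoc a, ← mul_assoc a⁻¹, inv_mul_cancel₀ ha0, one_mul] at this
  exact tpow_mul_notMem ht hi m hy hy' h3

lemma finrank_skewP (hi : LeftTransc D t) (n : ℕ) : finrank D ↥(skewP D t n) = n := by
  have h : skewP D t n = Submodule.span D (Set.range (fun j : Fin n => t ^ (j : ℕ))) := by
    unfold skewP
    congr 1
    ext x
    simp only [Set.mem_image, Set.mem_Iio, Set.mem_range]
    constructor
    · rintro ⟨j, hj, rfl⟩
      exact ⟨⟨j, hj⟩, rfl⟩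
    · rintro ⟨j, rfl⟩
      exact ⟨j, j.2, rfl⟩
  rw [h]
  have hi' : LinearIndependent D (fun j : Fin n => t ^ (j : ℕ)) :=
    hi.comp (fun j : Fin n => (j : ℕ)) Fin.val_injective
  rw [finrank_span_eq_card hi', Fintype.card_fin]

instance finite_skewP (n : ℕ) : FiniteDimensional D ↥(skewP D t n) := by
  unfold skewP
  exact FiniteDimensional.span_of_finite D ((Set.finite_Iio n).image _)

end Pool.Agent.Helper7.DivSub
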