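import Pool.Agent.Helper7.DivSub.Jump
import Pool.Agent.Helper7.DivSub.Ore1

/-!
# The degree valuation on the division ring of fractions of a skew polynomial ring
-/

open Module

namespace Pool.Agent.Helper7.DivSub

variable {Q : Type*} [DivisionRing Q] {D : Subfield Q} {t : Q}

/-- `x` is a skew polynomial of degree `n`. -/
def HasDeg (D : Subfield Q) (t : Q) (x : Q) (n : ℕ) : Prop :=
  x ∈ skewP D t (n + 1) ∧ x ∉ skewP D t n

lemma HasDeg.unique {x : Q} {m n : ℕ} (hm : HasDeg D t x m) (hn : HasDeg D t x n) : m = n := by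
  rcases lt_trichotomy m n with h | h | h
  · exact absurd (skewP_mono (by omega) hm.1) hn.2
  · exact h
  · exact absurd (skewP_mono (by omega) hn.1) hm.2

lemma HasDeg.ne_zero {x : Q} {n : ℕ} (h : HasDeg D t x n) : x ≠ 0 := by
  rintro rfl
  exact h.2 (Submodule.zero_mem _)

lemma exists_hasDeg {x : Q} {k : ℕ} (hx : x ∈ skewP D t k) (hx0 : x ≠ 0) :
    ∃ n, n + 1 ≤ k ∧ HasDeg D t x n := by
  classical
  have hex : ∃ k, x ∈ skewP D t k := ⟨k, hx⟩
  have h1 := Nat.find_spec hex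
  have h2 : Nat.find hex ≠ 0 := by
    intro h
    rw [h, skewP_zero, Submodule.mem_bot] at h1
    exact hx0 h1
  obtain ⟨n, hn⟩ := Nat.exists_eq_succ_of_ne_zero h2
  refine ⟨n, ?_, ?_, ?_⟩
  · have := Nat.find_min' hex hx
    omega
  · rw [hn] at h1; exact h1
  · exact Nat.find_min hex (by omega)

lemma HasDeg.mul (ht : OreRel D t) (hi : LeftTransc D t) {x y : Q} {m n : ℕ}
    (hx : HasDeg D t x m) (hy : HasDeg D t y n) : HasDeg D t (x * y) (m + n) := by
  constructor
  · have := mul_mem_skewP ht hx.1 hy.1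
    rwa [show n + 1 + m = m + n + 1 by ring] at this
  · have := mul_notMem_skewP ht hi hx.1 hx.2 hy.1 hy.2
    rwa [add_comm] at this

lemma hasDeg_of_mem {d : Q} (hd : d ∈ D) (hd0 : d ≠ 0) : HasDeg D t d 0 := by
  constructor
  · have := mul_mem_skewP_left (t := t) hd (one_mem_skewP (D := D) (t := t) one_pos)
    rwa [mul_one] at this
  · rw [skewP_zero, Submodule.mem_bot]
    exact hd0

lemma hasDeg_t (hi : LeftTransc D t) : HasDeg D t t 1 := by
  constructor
  · have := pow_mem_skewP (D := D) (t := t) (show 1 < 2 by omega)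
    rwa [pow_one] at this
  · have := tpow_notMem hi 1
    rwa [pow_one] at this

/-- The left Ore condition. -/
lemma ore_cond (ht : OreRel D t) (hi : LeftTransc D t) {a b : Q} {m n : ℕ}
    (ha : HasDeg D t a m) (hb : HasDeg D t b n) :
    ∃ u w i j, HasDeg D t u i ∧ HasDeg D t w j ∧ u * a = w * b := by
  set M := max m n with hM
  set A := (skewP D t (M + 1)).map (rmul D a) with hA
  set B := (skewP D t (M + 1)).map (rmul D b) with hB
  have hinj : ∀ x : Q, x ≠ 0 → Function.Injective (rmul D x) := by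
    intro x hx y z hyz
    exact mul_right_cancel₀ hx hyz
  have hAr : finrank D A = M + 1 := by
    rw [hA, ← (LinearEquiv.finrank_eq
      (Submodule.equivMapOfInjective _ (hinj a ha.ne_zero) (skewP D t (M + 1)))),
      finrank_skewP hi]
  have hBr : finrank D B = M + 1 := by
    rw [hB, ← (LinearEquiv.finrank_eq
      (Submodule.equivMapOfInjective _ (hinj b hb.ne_zero) (skewP D t (M + 1)))),
      finrank_skewP hi]
  have hAle : A ≤ skewP D t (M + M + 1) := by
    rintro z ⟨u, hu, rfl⟩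
    have := mul_mem_skewP ht hu ha.1
    exact skewP_mono (by omega) this
  have hBle : B ≤ skewP D t (M + M + 1) := by
    rintro z ⟨u, hu, rfl⟩
    have := mul_mem_skewP ht hu hb.1
    exact skewP_mono (by omega) this
  have hne : A ⊓ B ≠ ⊥ := by
    intro h
    have h1 := Submodule.finrank_sup_add_finrank_inf_eq A B
    rw [h, finrank_bot, hAr, hBr] at h1
    have h2 := Submodule.finrank_mono (sup_le hAle hBle)
    rw [finrank_skewP hi] at h2
    omega
  obtain ⟨z, ⟨hzA, hzB⟩, hz0⟩ := (A ⊓ B).ne_bot_iff.1 hne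
  obtain ⟨u, hu, hu'⟩ := hzA
  obtain ⟨w, hw, hw'⟩ := hzB
  have hu0 : u ≠ 0 := by
    rintro rfl
    apply hz0
    rw [← hu', map_zero]
  have hw0 : w ≠ 0 := by
    rintro rfl
    apply hz0
    rw [← hw', map_zero]
  obtain ⟨i, _, hi'⟩ := exists_hasDeg hu hu0
  obtain ⟨j, _, hj'⟩ := exists_hasDeg hw hw0
  exact ⟨u, w, i, j, hi', hj', hu'.trans hw'.symm⟩

/-- `q` is a left fraction `u⁻¹ r` of skew polynomials and `z = deg r - deg u`. -/
def HasVal (D : Subfield Q) (t : Q) (q : Q) (z : ℤ) : Prop :=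
  ∃ (u : Q) (i j : ℕ), HasDeg D t u i ∧ HasDeg D t (u * q) j ∧ z = (j : ℤ) - i

lemma HasVal.ne_zero {q : Q} {z : ℤ} (h : HasVal D t q z) : q ≠ 0 := by
  obtain ⟨u, i, j, _, h2, _⟩ := h
  rintro rfl
  rw [mul_zero] at h2
  exact h2.ne_zero rfl

lemma HasVal.unique (ht : OreRel D t) (hi : LeftTransc D t) {q : Q} {z z' : ℤ}
    (h : HasVal D t q z) (h' : HasVal D t q z') : z = z' := by
  obtain ⟨u, i, j, h1, h2, rfl⟩ := h
  obtain ⟨u', i', j', h1', h2', rfl⟩ := h'
  obtain ⟨w, w', k, k', hw, hw', he⟩ := ore_cond ht hi h1 h1'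
  have e1 : k + i = k' + i' := by
    have a1 := hw.mul ht hi h1
    have a2 := hw'.mul ht hi h1'
    rw [← he] at a2
    exact a1.unique a2
  have e2 : k + j = k' + j' := by
    have a1 := hw.mul ht hi h2
    have a2 := hw'.mul ht hi h2'
    rw [← mul_assoc] at a1 a2
    rw [← he] at a2
    exact a1.unique a2
  omega

lemma HasVal.mul (ht : OreRel D t) (hi : LeftTransc D t) {q p : Q} {z z' : ℤ}
    (h : HasVal D t q z) (h' : HasVal D t p z') : HasVal D t (q * p) (z + z') := by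
  obtain ⟨u, i, j, h1, h2, rfl⟩ := h
  obtain ⟨w, i', j', h1', h2', rfl⟩ := h'
  obtain ⟨a, b, k, l, ha, hb, he⟩ := ore_cond ht hi h2 h1'
  have e1 : k + j = l + i' := by
    have a1 := ha.mul ht hi h2
    have a2 := hb.mul ht hi h1'
    rw [← he] at a2
    exact a1.unique a2
  refine ⟨a * u, k + i, l + j', ha.mul ht hi h1, ?_, ?_⟩
  · have e2 : a * u * (q * p) = b * (w * p) := by
      calc a * u * (q * p) = a * (u * q) * p := by simp only [mul_assoc]
        _ = b * w * p := by rw [he]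
        _ = b * (w * p) := mul_assoc _ _ _
    rw [e2]
    exact hb.mul ht hi h2'
  · push_cast
    have : (k : ℤ) + j = l + i' := by exact_mod_cast e1
    omega

lemma HasVal.add (ht : OreRel D t) (hi : LeftTransc D t) {q p : Q} {z z' : ℤ}
    (h : HasVal D t q z) (h' : HasVal D t p z') (hqp : q + p ≠ 0) :
    ∃ z'', HasVal D t (q + p) z'' ∧ z'' ≤ max z z' := by
  obtain ⟨u, i, j, h1, h2, rfl⟩ := h
  obtain ⟨w, i', j', h1', h2', rfl⟩ := h'
  obtain ⟨a, b, k, l, ha, hb, he⟩ := ore_cond ht hi h1 h1'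
  have e1 : k + i = l + i' := by
    have a1 := ha.mul ht hi h1
    have a2 := hb.mul ht hi h1'
    rw [← he] at a2
    exact a1.unique a2
  have h3 := ha.mul ht hi h2
  have h4 := hb.mul ht hi h2'
  have e2 : a * u * (q + p) = a * (u * q) + b * (w * p) := by
    rw [mul_add, mul_assoc, he, mul_assoc]
  have h5 : a * u * (q + p) ∈ skewP D t (max (k + j) (l + j') + 1) := by
    rw [e2]
    exact Submodule.add_mem _ (skewP_mono (by omega) h3.1) (skewP_mono (by omega) h4.1)
  have hau := ha.mul ht hi h1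
  obtain ⟨n, hn, hn'⟩ := exists_hasDeg h5 (mul_ne_zero hau.ne_zero hqp)
  refine ⟨(n : ℤ) - ((k + i : ℕ) : ℤ), ⟨a * u, k + i, n, hau, hn', rfl⟩, ?_⟩
  have h6 : n ≤ max (k + j) (l + j') := by omega
  have h7 : (k : ℤ) + i = l + i' := by exact_mod_cast e1
  push_cast
  rcases le_total (k + j) (l + j') with h8 | h8
  · rw [max_eq_right h8] at h6
    refine le_max_of_le_right ?_
    have : (n : ℤ) ≤ l + j' := by exact_mod_cast h6
    omega
  · rw [max_eq_left h8] at h6
    refine le_max_of_le_left ?_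
    have : (n : ℤ) ≤ k + j := by exact_mod_cast h6
    omega

lemma HasVal.inv {q : Q} {z : ℤ} (h : HasVal D t q z) : HasVal D t q⁻¹ (-z) := by
  have hq := h.ne_zero
  obtain ⟨u, i, j, h1, h2, rfl⟩ := h
  refine ⟨u * q, j, i, h2, ?_, by ring⟩
  rw [mul_assoc, mul_inv_cancel₀ hq, mul_one]
  exact h1

lemma hasVal_of_mem {d : Q} (hd : d ∈ D) (hd0 : d ≠ 0) : HasVal D t d 0 := by
  refine ⟨1, 0, 0, hasDeg_of_mem D.one_mem one_ne_zero, ?_, by simp⟩
  rw [one_mul]
  exact hasDeg_of_mem hd hd0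

lemma hasVal_t (hi : LeftTransc D t) : HasVal D t t 1 := by
  refine ⟨1, 0, 1, hasDeg_of_mem D.one_mem one_ne_zero, ?_, by simp⟩
  rw [one_mul]
  exact hasDeg_t hi

/-- The division subring of left fractions of skew polynomials. -/
def oreFrac (ht : OreRel D t) (hi : LeftTransc D t) : Subfield Q where
  carrier := {q | q = 0 ∨ ∃ z, HasVal D t q z}
  mul_mem' := by
    rintro a b (rfl | ⟨z, hz⟩) (rfl | ⟨z', hz'⟩)
    · exact Or.inl (mul_zero _)
    · exact Or.inl (zero_mul _)
    · exact Or.inl (mul_zero _)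
    · exact Or.inr ⟨_, hz.mul ht hi hz'⟩
  one_mem' := Or.inr ⟨0, hasVal_of_mem D.one_mem one_ne_zero⟩
  add_mem' := by
    rintro a b (rfl | ⟨z, hz⟩) (rfl | ⟨z', hz'⟩)
    · exact Or.inl (add_zero _)
    · exact Or.inr ⟨z', by rwa [zero_add]⟩
    · exact Or.inr ⟨z, by rwa [add_zero]⟩
    · by_cases h : a + b = 0
      · exact Or.inl h
      · obtain ⟨z'', h1, _⟩ := hz.add ht hi hz' h
        exact Or.inr ⟨z'', h1⟩
  zero_mem' := Or.inl rfl
  neg_mem' := by
    rintro a (rfl | ⟨z, hz⟩)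
    · exact Or.inl neg_zero
    · right
      have h1 := (hasVal_of_mem (t := t) (D.neg_mem D.one_mem)
        (neg_ne_zero.2 one_ne_zero)).mul ht hi hz
      rw [neg_mul, one_mul] at h1
      exact ⟨_, h1⟩
  inv_mem' := by
    rintro a (rfl | ⟨z, hz⟩)
    · exact Or.inl inv_zero
    · exact Or.inr ⟨_, hz.inv⟩

lemma mem_oreFrac (ht : OreRel D t) (hi : LeftTransc D t) (q : Q) :
    q ∈ oreFrac ht hi ↔ q = 0 ∨ ∃ z, HasVal D t q z := Iff.rfl

lemma le_oreFrac (ht : OreRel D t) (hi : LeftTransc D t) : D ≤ oreFrac ht hi := by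
  intro d hd
  by_cases h : d = 0
  · exact Or.inl h
  · exact Or.inr ⟨0, hasVal_of_mem hd h⟩

lemma t_mem_oreFrac (ht : OreRel D t) (hi : LeftTransc D t) : t ∈ oreFrac ht hi :=
  Or.inr ⟨1, hasVal_t hi⟩

open Classical in
/-- The degree function on `Q`. -/
noncomputable def oreFun (D : Subfield Q) (t : Q) (q : Q) : WithZero (Multiplicative ℤ) :=
  if h : ∃ z, HasVal D t q z then
    ((Multiplicative.ofAdd h.choose : Multiplicative ℤ) : WithZero (Multiplicative ℤ)) else 0

lemma oreFun_eq (ht : OreRel D t) (hi : LeftTransc D t) {q : Q} {z : ℤ} (hz : HasVal D t q z) :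
    oreFun D t q = ((Multiplicative.ofAdd z : Multiplicative ℤ) :
      WithZero (Multiplicative ℤ)) := by
  have h : ∃ z, HasVal D t q z := ⟨z, hz⟩
  unfold oreFun
  rw [dif_pos h, h.choose_spec.unique ht hi hz]

lemma oreFun_zero : oreFun D t (0 : Q) = 0 := by
  unfold oreFun
  rw [dif_neg]
  rintro ⟨z, hz⟩
  exact hz.ne_zero rfl

/-- The degree valuation. -/
noncomputable def oreVal (ht : OreRel D t) (hi : LeftTransc D t) :
    oreFrac ht hi →*₀ WithZero (Multiplicative ℤ) where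
  toFun := fun q => oreFun D t (q : Q)
  map_zero' := oreFun_zero
  map_one' := oreFun_eq ht hi (hasVal_of_mem D.one_mem one_ne_zero)
  map_mul' := by
    rintro ⟨q, hq⟩ ⟨p, hp⟩
    change oreFun D t (q * p) = oreFun D t q * oreFun D t p
    rcases hq with rfl | ⟨z, hz⟩
    · rw [zero_mul, oreFun_zero, zero_mul]
    · rcases hp with rfl | ⟨z', hz'⟩
      · rw [mul_zero, oreFun_zero, mul_zero]
      · rw [oreFun_eq ht hi hz, oreFun_eq ht hi hz', oreFun_eq ht hi (hz.mul ht hi hz')]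
        rfl

lemma oreVal_eq (ht : OreRel D t) (hi : LeftTransc D t) (q : oreFrac ht hi) (z : ℤ)
    (hz : HasVal D t (q : Q) z) :
    oreVal ht hi q = ((Multiplicative.ofAdd z : Multiplicative ℤ) :
      WithZero (Multiplicative ℤ)) := oreFun_eq ht hi hz

lemma oreVal_add (ht : OreRel D t) (hi : LeftTransc D t) (q p : oreFrac ht hi) :
    oreVal ht hi (q + p) ≤ max (oreVal ht hi q) (oreVal ht hi p) := by
  obtain ⟨q, hq⟩ := q
  obtain ⟨p, hp⟩ := p
  change oreFun D t (q + p) ≤ max (oreFun D t q) (oreFun D t p)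
  rcases hq with rfl | ⟨z, hz⟩
  · rw [zero_add]
    exact le_max_right _ _
  · rcases hp with rfl | ⟨z', hz'⟩
    · rw [add_zero]
      exact le_max_left _ _
    · by_cases hqp : q + p = 0
      · rw [hqp, oreFun_zero]
        exact zero_le
      · obtain ⟨z'', h1, h2⟩ := hz.add ht hi hz' hqp
        rw [oreFun_eq ht hi hz, oreFun_eq ht hi hz', oreFun_eq ht hi h1]
        rcases le_max_iff.1 h2 with h3 | h3
        · refine le_max_of_le_left ?_
          rw [WithZero.coe_le_coe]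
          exact h3
        · refine le_max_of_le_right ?_
          rw [WithZero.coe_le_coe]
          exact h3

lemma oreVal_of_mem (ht : OreRel D t) (hi : LeftTransc D t) (d : Q) (hd : d ∈ D) (hd0 : d ≠ 0) :
    oreVal ht hi ⟨d, le_oreFrac ht hi hd⟩ = 1 :=
  oreVal_eq ht hi ⟨d, le_oreFrac ht hi hd⟩ 0 (hasVal_of_mem hd hd0)

lemma oreVal_t (ht : OreRel D t) (hi : LeftTransc D t) :
    oreVal ht hi ⟨t, t_mem_oreFrac ht hi⟩ = ((Multiplicative.ofAdd (1 : ℤ) : Multiplicative ℤ) :
      WithZero (Multiplicative ℤ)) :=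
  oreVal_eq ht hi ⟨t, t_mem_oreFrac ht hi⟩ 1 (hasVal_t hi)

end Pool.Agent.Helper7.DivSub
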