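import Pool.Agent.Helper7.DivSub.Ore2

/-!
# Left algebraic elements of Ore type
-/

open Module

namespace Pool.Agent.Helper7.DivSub

variable {Q : Type*} [DivisionRing Q] {D : Subfield Q} {t : Q}

/-- If no power of `t` lies in the span of the lower ones, the powers are left independent. -/
lemma leftTransc_of_notMem (h : ∀ n, t ^ n ∉ skewP D t n) : LeftTransc D t := by
  classical
  unfold LeftTransc
  rw [linearIndependent_iff']
  intro s g hg j hj
  by_contra hgj
  set s' := s.filter (fun i => g i ≠ 0) with hs'
  have hne : s'.Nonempty := ⟨j, Finset.mem_filter.2 ⟨hj, hgj⟩⟩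
  set m := s'.max' hne with hm
  have hms' : m ∈ s' := s'.max'_mem hne
  have hms : m ∈ s := (Finset.mem_filter.1 hms').1
  have hgm : g m ≠ 0 := (Finset.mem_filter.1 hms').2
  have hsum : g m • t ^ m + ∑ i ∈ s.erase m, g i • t ^ i = 0 := by
    rw [← hg, ← Finset.add_sum_erase s _ hms]
  have hrest : ∑ i ∈ s.erase m, g i • t ^ i ∈ skewP D t m := by
    apply Submodule.sum_mem
    intro i hi
    by_cases h0 : g i = 0
    · rw [h0, zero_smul]; exact Submodule.zero_mem _
    · apply Submodule.smul_mem
      apply pow_mem_skewP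
      have hi' : i ∈ s' := Finset.mem_filter.2 ⟨Finset.mem_of_mem_erase hi, h0⟩
      have h1 : i ≤ m := s'.le_max' i hi'
      have h2 : i ≠ m := Finset.ne_of_mem_erase hi
      omega
  have h1 : g m • t ^ m ∈ skewP D t m := by
    rw [eq_neg_of_add_eq_zero_left hsum]
    exact Submodule.neg_mem _ hrest
  apply h m
  have := Submodule.smul_mem _ (g m)⁻¹ h1
  rwa [smul_smul, inv_mul_cancel₀ hgm, one_smul] at this

/-- If some power of `t` lies in the span of the lower ones then that span is a division ring. -/
lemma closure_le_of_mem (ht : OreRel D t) {n : ℕ} (hn : t ^ n ∈ skewP D t n) :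
    ∀ x ∈ Subfield.closure ((D : Set Q) ∪ {t}), x ∈ skewP D t n := by
  have hn0 : 0 < n := by
    rcases Nat.eq_zero_or_pos n with h | h
    · subst h
      rw [skewP_zero, Submodule.mem_bot, pow_zero] at hn
      exact absurd hn one_ne_zero
    · exact h
  have hP : skewP D t (n + 1) ≤ skewP D t n := by
    intro x hx
    obtain ⟨a, ha, y, hy, rfl⟩ := mem_skewP_succ.1 hx
    exact Submodule.add_mem _ (mul_mem_skewP_left ha hn) hy
  have htP : ∀ x ∈ skewP D t n, t * x ∈ skewP D t n := fun x hx => hP (t_mul_mem ht hx)
  have htpP : ∀ i : ℕ, ∀ x ∈ skewP D t n, t ^ i * x ∈ skewP D t n := by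
    intro i
    induction i with
    | zero => intro x hx; rw [pow_zero, one_mul]; exact hx
    | succ i ih =>
      intro x hx
      rw [pow_succ', mul_assoc]
      exact htP _ (ih x hx)
  have hmulP : ∀ k, ∀ x ∈ skewP D t k, ∀ y ∈ skewP D t n, x * y ∈ skewP D t n := by
    intro k
    induction k with
    | zero =>
      intro x hx y _
      rw [skewP_zero, Submodule.mem_bot] at hx
      subst hx
      rw [zero_mul]
      exact Submodule.zero_mem _
    | succ k ih =>
      intro x hx y hy
      obtain ⟨a, ha, z, hz, rfl⟩ := mem_skewP_succ.1 hx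
      rw [add_mul, mul_assoc]
      exact Submodule.add_mem _ (mul_mem_skewP_left ha (htpP k y hy)) (ih z hz y hy)
  have hone : (1 : Q) ∈ skewP D t n := one_mem_skewP hn0
  have hinv : ∀ x ∈ skewP D t n, x⁻¹ ∈ skewP D t n := by
    intro x hx
    by_cases hx0 : x = 0
    · subst hx0; rw [inv_zero]; exact Submodule.zero_mem _
    · let f : skewP D t n →ₗ[D] skewP D t n :=
        (rmul D x).restrict (fun y hy => hmulP n y hy x hx)
      have hf : Function.Injective f := by
        intro y z hyz
        have h1 : (y : Q) * x = (z : Q) * x := congrArg Subtype.val hyz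
        exact Subtype.ext (mul_right_cancel₀ hx0 h1)
      obtain ⟨y, hy⟩ := (LinearMap.injective_iff_surjective.1 hf) ⟨1, hone⟩
      have h1 : (y : Q) * x = 1 := congrArg Subtype.val hy
      have h2 : x⁻¹ = y := by
        rw [← one_mul x⁻¹, ← h1, mul_assoc, mul_inv_cancel₀ hx0, mul_one]
      rw [h2]
      exact y.2
  let F : Subfield Q :=
    { carrier := skewP D t n
      mul_mem' := fun {a b} ha hb => hmulP n a ha b hb
      one_mem' := hone
      add_mem' := fun ha hb => Submodule.add_mem _ ha hb
      zero_mem' := Submodule.zero_mem _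
      neg_mem' := fun ha => Submodule.neg_mem _ ha
      inv_mem' := hinv }
  have hle : Subfield.closure ((D : Set Q) ∪ {t}) ≤ F := by
    rw [Subfield.closure_le]
    rintro x (hx | hx)
    · have := mul_mem_skewP_left (t := t) (n := n) hx hone
      rw [mul_one] at this
      exact this
    · rw [Set.mem_singleton_iff] at hx
      subst hx
      have := htP 1 hone
      rw [mul_one] at this
      exact this
  exact fun x hx => hle hx

/-- A left finite-dimensional extension followed by an algebraic extension of Ore type is left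
finite-dimensional. -/
lemma span_of_mem {D₀ : Subfield Q} (s : Finset Q)
    (hs : ∀ x ∈ D, x ∈ Submodule.span D₀ (s : Set Q)) (n : ℕ) :
    ∃ s' : Finset Q, ∀ x ∈ skewP D t n, x ∈ Submodule.span D₀ (s' : Set Q) := by
  classical
  induction n with
  | zero =>
    refine ⟨∅, fun x hx => ?_⟩
    rw [skewP_zero, Submodule.mem_bot] at hx
    subst hx
    exact Submodule.zero_mem _
  | succ n ih =>
    obtain ⟨s', hs'⟩ := ih
    refine ⟨s' ∪ s.image (fun a => a * t ^ n), fun x hx => ?_⟩
    obtain ⟨a, ha, y, hy, rfl⟩ := mem_skewP_succ.1 hx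
    rw [Finset.coe_union]
    apply Submodule.add_mem
    · have h1 : a * t ^ n ∈ (Submodule.span D₀ (s : Set Q)).map (rmul D₀ (t ^ n)) :=
        ⟨a, hs a ha, rfl⟩
      rw [Submodule.map_span] at h1
      refine Submodule.span_mono ?_ h1
      rintro z ⟨w, hw, rfl⟩
      right
      rw [Finset.coe_image]
      exact ⟨w, hw, rfl⟩
    · exact Submodule.span_mono Set.subset_union_left (hs' y hy)

end Pool.Agent.Helper7.DivSub
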