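import Pool.Agent.Helper7.DivSub.RelVal3
import Pool.Agent.Helper7.DivSub.Comb2

/-!
# Isoperimetric degree of a valued extension
-/

open Module Filter
open scoped ENNReal Pointwise

namespace Pool.Agent.Helper7.DivSub

variable {K Q Γ : Type*} [Field K] [DivisionRing Q] [Algebra K Q]
variable [Group Γ] [LinearOrder Γ] [MulLeftMono Γ]
variable {D E : Subfield Q} {hK : ∀ k : K, algebraMap K Q k ∈ D}
  {hKE : ∀ k : K, algebraMap K Q k ∈ E} {v : E →*₀ WithZero Γ}

omit [MulLeftMono Γ] in
include hK in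
/-- The graded pieces of `T` contribute to the boundary of `T`. -/
lemma tsum_bound (hv : IsVal E hKE v) (hDE : D ≤ E)
    (hvD : ∀ (d : Q) (hd : d ∈ D), d ≠ 0 → v ⟨d, hDE hd⟩ = 1)
    (L : Submodule K Q) [hL : FiniteDimensional K L] (hLD : ∀ l ∈ L, l ∈ D)
    (c α : ℝ) (hc : 0 < c) (hα0 : 0 ≤ α) (hα1 : α ≤ 1)
    (hiso : ∀ T : Submodule K Q, FiniteDimensional K T → T ≠ ⊥ → (∀ t ∈ T, t ∈ D) →
      (finrank K T : ℝ) + c * (finrank K T : ℝ) ^ α ≤ finrank K ↥(L * T))
    (T : Submodule K Q) [hT : FiniteDimensional K T] (hTE : ∀ t ∈ T, t ∈ E) :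
    ∑' γ, (if grdim (vle hv) (vlt hv) T γ = 0 then 0 else
        ENNReal.ofReal (c * (grdim (vle hv) (vlt hv) T γ : ℝ) ^ α)) + (finrank K T : ℕ) ≤
      (finrank K ↥(L * T) : ℕ) := by
  have hLTE := mul_mem_sub (fun l hl => hDE (hLD l hl)) hTE
  rw [← tsum_val hv T hTE, ← tsum_val hv (L * T) hLTE, ← ENNReal.tsum_add]
  apply ENNReal.tsum_le_tsum
  intro γ
  rcases Nat.eq_zero_or_pos (grdim (vle hv) (vlt hv) T γ) with h0 | h0
  · rw [if_pos h0, h0]; simp
  · rw [if_neg (by omega)]
    have h1 := grdim_bound (hK := hK) hv hDE hvD L hLD c α hc hα0 hα1 hiso T γ h0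
    have h2 := ENNReal.ofReal_le_ofReal h1
    rw [ENNReal.ofReal_add (by positivity) (by positivity), ENNReal.ofReal_natCast,
      ENNReal.ofReal_natCast] at h2
    rw [add_comm]
    exact h2

include hK in
/-- If `D` has isoperimetric degree `a` and `E ⊇ D` has a valuation trivial on `D` whose values grow
with degree `e`, then `E` has isoperimetric degree `a + e`. -/
theorem hasIso_prod [DecidableEq Γ] (hv : IsVal E hKE v) (hDE : D ≤ E)
    (hvD : ∀ (d : Q) (hd : d ∈ D), d ≠ 0 → v ⟨d, hDE hd⟩ = 1) (S : Finset Γ)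
    (hS : ∀ g ∈ S, ∃ x : E, v x = (g : WithZero Γ)) (c0 e : ℝ) (hc0 : 0 < c0) (he : 0 < e)
    (hG : ∀ m : ℕ, c0 * (m : ℝ) ^ e ≤ ((S ^ m).card : ℝ)) (a : ℝ) (ha : 1 ≤ a)
    (hD : HasIso K D (1 - 1 / a)) : HasIso K E (1 - 1 / (a + e)) := by
  classical
  obtain ⟨L0, hL0f, hL0E, cv, hcv, hisov⟩ := val_iso hv S hS c0 e hc0 he hG
  obtain ⟨L1, hL1f, hL1D, c, hc, hiso⟩ := hD
  obtain ⟨c', hc', hreal⟩ := iso_of_count2 c0 e a c hc0 he ha hc
  choose! x hx using hS
  set s : Finset Q := insert 1 (S.image (fun g => (x g : Q))) with hs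
  have hsf : FiniteDimensional K ↥(Submodule.span K (s : Set Q)) :=
    FiniteDimensional.span_finset K s
  set L : Submodule K Q := (L0 ⊔ L1) ⊔ Submodule.span K (s : Set Q) with hL
  have hLf : FiniteDimensional K L := inferInstance
  have h1 : (1 : Q) ∈ L :=
    le_sup_right (a := L0 ⊔ L1) (Submodule.subset_span (by simp [hs]))
  have hxL : ∀ g ∈ S, (x g : Q) ∈ L := by
    intro g hg
    apply le_sup_right (a := L0 ⊔ L1)
    apply Submodule.subset_span
    simp only [hs, Finset.coe_insert, Finset.coe_image, Set.mem_insert_iff, Set.mem_image,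
      Finset.mem_coe]
    exact Or.inr ⟨g, hg, rfl⟩
  have hLE : ∀ l ∈ L, l ∈ E := by
    have h2 : L ≤ domK E hKE := by
      rw [hL]
      refine sup_le (sup_le hL0E (fun l hl => hDE (hL1D l hl))) ?_
      rw [Submodule.span_le]
      intro z hz
      simp only [hs, Finset.coe_insert, Finset.coe_image, Set.mem_insert_iff, Set.mem_image,
        Finset.mem_coe] at hz
      rcases hz with rfl | ⟨g, _, rfl⟩
      · exact E.one_mem
      · exact (x g).2
    exact fun l hl => h2 hl
  have hL0L : L0 ≤ L := le_sup_left.trans le_sup_left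
  have hL1L : L1 ≤ L := le_sup_right.trans le_sup_left
  have hα0 : 0 ≤ 1 - 1 / a := by
    rw [sub_nonneg, div_le_one (by linarith)]; exact ha
  have hα1 : 1 - 1 / a ≤ 1 := by
    have : 0 < 1 / a := by positivity
    linarith
  refine ⟨L, hLf, hLE, c', hc', fun T hT hT0 hTE => ?_⟩
  have hN : 1 ≤ finrank K T := one_le_finrank T hT0
  have hNr : (1 : ℝ) ≤ finrank K T := by exact_mod_cast hN
  have hle : finrank K T ≤ finrank K ↥(L * T) :=
    Submodule.finrank_mono (le_mul_of_one_mem L T h1)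
  set b := finrank K ↥(L * T) - finrank K T with hb
  have hbe : (b : ℝ) = finrank K ↥(L * T) - finrank K T := by rw [hb, Nat.cast_sub hle]
  -- the boundary is positive
  have hb1 : 1 ≤ b := by
    have h2 := hisov T hT hT0 hTE
    have h3 : finrank K ↥(L0 * T) ≤ finrank K ↥(L * T) := Submodule.finrank_mono
      (Submodule.mul_le.2 (fun l hl t ht => Submodule.mul_mem_mul (hL0L hl) ht))
    have h3r : (finrank K ↥(L0 * T) : ℝ) ≤ finrank K ↥(L * T) := by exact_mod_cast h3
    have h4 : 0 < cv * (finrank K T : ℝ) ^ (1 - 1 / e) := by positivity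
    have h5 : (0 : ℝ) < b := by linarith
    exact_mod_cast h5
  -- boundary from graded pieces
  have hbd := tsum_bound (hK := hK) hv hDE hvD L1 hL1D c (1 - 1 / a) hc hα0 hα1 hiso T hTE
  have h6 : finrank K ↥(L1 * T) ≤ finrank K ↥(L * T) := Submodule.finrank_mono
    (Submodule.mul_le.2 (fun l hl t ht => Submodule.mul_mem_mul (hL1L hl) ht))
  set h : Γ → ℝ≥0∞ := fun γ => (if grdim (vle hv) (vlt hv) T γ = 0 then 0 else
        ENNReal.ofReal (c * (grdim (vle hv) (vlt hv) T γ : ℝ) ^ (1 - 1 / a))) with hh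
  have hbd2 : ∑' γ, h γ ≤ b := by
    have h7 : ∑' γ, h γ + (finrank K T : ℕ) ≤ (finrank K ↥(L * T) : ℕ) :=
      hbd.trans (by exact_mod_cast h6)
    rw [hb, ENNReal.natCast_sub]
    exact ENNReal.le_sub_of_add_le_right (ENNReal.natCast_ne_top _) h7
  have hdiff : ∀ g ∈ S, ∑' γ, ((grdim (vle hv) (vlt hv) T (g⁻¹ * γ) : ℝ≥0∞) -
      grdim (vle hv) (vlt hv) T γ) ≤ b :=
    fun g hg => diff_le hv L hLE h1 (x g) (hxL g hg) g (hx g hg) T hTE
  have hcount : ∀ m : ℕ, ((S ^ m).card : ℝ) * finrank K T ≤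
      (finrank K T : ℝ) ^ (1 / a) * ((S ^ m).card : ℝ) ^ (1 - 1 / a) / c * b +
        (S ^ m).card * (m * b) := by
    intro m
    have h8 := count_le2 (fun γ => grdim (vle hv) (vlt hv) T γ) (finrank K T) b S
      (tsum_val hv T hTE) hdiff m
    set G := (S ^ m).card with hG'
    set C : ℝ := (finrank K T : ℝ) ^ (1 / a) * (G : ℝ) ^ (1 - 1 / a) with hC
    have hC0 : 0 ≤ C := by positivity
    have h9 : ∑' γ, ((min (finrank K T) (G * grdim (vle hv) (vlt hv) T γ) : ℕ) : ℝ≥0∞) ≤
        ENNReal.ofReal (C / c) * b := by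
      calc ∑' γ, ((min (finrank K T) (G * grdim (vle hv) (vlt hv) T γ) : ℕ) : ℝ≥0∞)
          ≤ ∑' γ, ENNReal.ofReal (C / c) * h γ := by
            apply ENNReal.tsum_le_tsum
            intro γ
            rcases Nat.eq_zero_or_pos (grdim (vle hv) (vlt hv) T γ) with h0 | h0
            · rw [h0]; simp
            · rw [hh]
              simp only
              rw [if_neg (by omega), ← ENNReal.ofReal_mul (by positivity),
                ← ENNReal.ofReal_natCast]
              apply ENNReal.ofReal_le_ofReal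
              have h10 := min_le_interp (finrank K T) G (grdim (vle hv) (vlt hv) T γ) a ha h0
              refine h10.trans (le_of_eq ?_)
              rw [← hC]
              field_simp
        _ = ENNReal.ofReal (C / c) * ∑' γ, h γ := ENNReal.tsum_mul_left
        _ ≤ _ := by gcongr
    have h10 : ((G : ℕ) : ℝ≥0∞) * (finrank K T : ℕ) ≤
        ENNReal.ofReal (C / c) * b + G * (m * b) := h8.trans (by gcongr)
    have h11 : ENNReal.ofReal ((G : ℝ) * finrank K T) ≤
        ENNReal.ofReal (C / c * b + G * (m * b)) := by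
      rw [ENNReal.ofReal_mul (by positivity), ENNReal.ofReal_add (by positivity) (by positivity),
        ENNReal.ofReal_mul (by positivity), ENNReal.ofReal_mul (by positivity),
        ENNReal.ofReal_mul (by positivity), ENNReal.ofReal_natCast, ENNReal.ofReal_natCast,
        ENNReal.ofReal_natCast, ENNReal.ofReal_natCast]
      exact h10
    rwa [ENNReal.ofReal_le_ofReal_iff (by positivity)] at h11
  have h12 := hreal (fun m => (S ^ m).card) hG (finrank K T) b hN hb1 hcount
  linarith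

end Pool.Agent.Helper7.DivSub
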