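import Pool.Agent.Helper7.DivSub.ValIso2

/-!
# Isoperimetric inequalities relative to a division subalgebra
-/

open Module Filter
open scoped ENNReal Pointwise

namespace Pool.Agent.Helper7.DivSub

variable {K Q : Type*} [Field K] [DivisionRing Q] [Algebra K Q]

lemma nat_rpow_subadd (a b : ℕ) (α : ℝ) (h0 : 0 ≤ α) (h1 : α ≤ 1) :
    ((a + b : ℕ) : ℝ) ^ α ≤ (a : ℝ) ^ α + (b : ℝ) ^ α := by
  have h := NNReal.rpow_add_le_add_rpow (a : NNReal) (b : NNReal) h0 h1
  have h2 : (((a : NNReal) + (b : NNReal) : NNReal) : ℝ) ^ α ≤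
      ((a : NNReal) : ℝ) ^ α + ((b : NNReal) : ℝ) ^ α := by exact_mod_cast h
  simpa using h2

variable {D : Subfield Q} {hK : ∀ k : K, algebraMap K Q k ∈ D}

/-- An isoperimetric inequality for subspaces of `D` gives one for arbitrary subspaces of `Q`,
relative to a left `D`-subspace `R`. -/
theorem rel_iso (L : Submodule K Q) [hL : FiniteDimensional K L] (hLD : ∀ l ∈ L, l ∈ D)
    (c α : ℝ) (hc : 0 < c) (hα0 : 0 ≤ α) (hα1 : α ≤ 1)
    (hiso : ∀ T : Submodule K Q, FiniteDimensional K T → T ≠ ⊥ → (∀ t ∈ T, t ∈ D) →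
      (finrank K T : ℝ) + c * (finrank K T : ℝ) ^ α ≤ finrank K ↥(L * T)) :
    ∀ n : ℕ, 1 ≤ n → ∀ T : Submodule K Q, FiniteDimensional K T → ∀ R : Submodule D Q,
      finrank K T = n + finrank K ↥(T ⊓ toK D hK R) →
      (n : ℝ) + c * (n : ℝ) ^ α + finrank K ↥(L * T ⊓ toK D hK R) ≤ finrank K ↥(L * T) := by
  intro n
  induction n using Nat.strong_induction_on with
  | _ n ih =>
    intro hn1 T hT R hTR
    have hne : ¬ T ≤ toK D hK R := by
      intro h
      rw [inf_eq_left.2 h] at hTR
      omega
    obtain ⟨t, htT, htR⟩ := Set.not_subset.1 hne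
    obtain ⟨f, hft, hRf⟩ := Submodule.exists_le_ker_of_notMem (p := R) (v := t) htR
    set F := funK D hK f with hF
    have hker : toK D hK R ≤ LinearMap.ker F := by
      intro x hx
      have : f x = 0 := LinearMap.mem_ker.1 (hRf hx)
      change ((f x : D) : Q) = 0
      rw [this]; rfl
    set T' := T ⊓ LinearMap.ker F with hT'
    have hT'f : FiniteDimensional K T' := Submodule.finiteDimensional_of_le inf_le_left
    have hr := finrank_map_add F T
    have hrL := finrank_map_add F (L * T)
    have hmapL : L * T.map F ≤ (L * T).map F := by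
      rw [Submodule.mul_le]
      rintro l hl z ⟨y, hy, rfl⟩
      exact ⟨l * y, Submodule.mul_mem_mul hl hy, funK_mul f l (hLD l hl) y⟩
    have hkerL : L * T' ≤ L * T ⊓ LinearMap.ker F := by
      rw [Submodule.mul_le]
      rintro l hl y ⟨hy, hy0⟩
      refine ⟨Submodule.mul_mem_mul hl hy, ?_⟩
      have hy1 : F y = 0 := hy0
      change F (l * y) = 0
      rw [hF, funK_mul f l (hLD l hl) y, ← hF, hy1, mul_zero]
    have hfinker : FiniteDimensional K ↥(L * T ⊓ LinearMap.ker F) :=
      Submodule.finiteDimensional_of_le inf_le_left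
    have e1 : T' ⊓ toK D hK R = T ⊓ toK D hK R := by
      rw [hT', inf_assoc, inf_eq_right.2 hker]
    have e2 : (L * T ⊓ LinearMap.ker F) ⊓ toK D hK R = L * T ⊓ toK D hK R := by
      rw [inf_assoc, inf_eq_right.2 hker]
    -- the image
    have himg0 : T.map F ≠ ⊥ := by
      intro h
      have h2 : F t ∈ T.map F := ⟨t, htT, rfl⟩
      rw [h, Submodule.mem_bot] at h2
      exact hft (Subtype.ext h2)
    have himg := hiso (T.map F) inferInstance himg0 (by
      rintro z ⟨y, _, rfl⟩
      exact (f y).2)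
    have hn1' : 1 ≤ finrank K ↥(T.map F) := by
      have : 0 < finrank K ↥(T.map F) := by
        rw [Module.finrank_pos_iff]
        exact (Submodule.nontrivial_iff_ne_bot).2 himg0
      omega
    have hm1 := Submodule.finrank_mono hmapL
    have hm2 := rel_mono (L * T') (L * T ⊓ LinearMap.ker F) (toK D hK R) ⊤ hkerL le_top
    rw [inf_top_eq, inf_top_eq, e2] at hm2
    -- the kernel
    have hle : finrank K ↥(T ⊓ toK D hK R) ≤ finrank K T' := by
      rw [← e1]
      exact Submodule.finrank_mono inf_le_left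
    obtain ⟨n2, hn2⟩ := Nat.exists_eq_add_of_le' hle
    have hnn : n = finrank K ↥(T.map F) + n2 := by
      rw [hTR, hn2] at hr
      omega
    have hsub := nat_rpow_subadd (finrank K ↥(T.map F)) n2 α hα0 hα1
    rw [← hnn] at hsub
    have hker2 : (n2 : ℝ) + c * (n2 : ℝ) ^ α + finrank K ↥(L * T' ⊓ toK D hK R) ≤
        finrank K ↥(L * T') + (if n2 = 0 then c * (0 : ℝ) ^ α else 0) := by
      rcases Nat.eq_zero_or_pos n2 with h0 | h0
      · subst h0
        rw [if_pos rfl]
        have hfin : FiniteDimensional K ↥(L * T') := inferInstance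
        have : finrank K ↥(L * T' ⊓ toK D hK R) ≤ finrank K ↥(L * T') :=
          Submodule.finrank_mono inf_le_left
        have h2 : (finrank K ↥(L * T' ⊓ toK D hK R) : ℝ) ≤ finrank K ↥(L * T') := by
          exact_mod_cast this
        simp only [Nat.cast_zero]
        linarith
      · rw [if_neg (by omega), add_zero]
        apply ih n2 (by omega) h0 T' hT'f R
        rw [e1]
        omega
    have hn2' : (n : ℝ) = finrank K ↥(T.map F) + n2 := by exact_mod_cast hnn
    have hrL' : (finrank K ↥((L * T).map F) : ℝ) + finrank K ↥(L * T ⊓ LinearMap.ker F) =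
        finrank K ↥(L * T) := by exact_mod_cast hrL
    have hm1' : (finrank K ↥(L * T.map F) : ℝ) ≤ finrank K ↥((L * T).map F) := by
      exact_mod_cast hm1
    have hm2' : (finrank K ↥(L * T') : ℝ) + finrank K ↥(L * T ⊓ toK D hK R) ≤
        finrank K ↥(L * T ⊓ LinearMap.ker F) + finrank K ↥(L * T' ⊓ toK D hK R) := by
      exact_mod_cast hm2
    by_cases h0 : n2 = 0
    · rw [if_pos h0] at hker2
      subst h0
      simp only [Nat.cast_zero] at hker2 hn2'
      have e3 : (n : ℝ) ^ α = (finrank K ↥(T.map F) : ℝ) ^ α := by rw [hn2', add_zero]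
      rw [e3]
      linarith
    · rw [if_neg h0] at hker2
      have := mul_le_mul_of_nonneg_left hsub hc.le
      linarith

end Pool.Agent.Helper7.DivSub
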