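import Pool.Agent.Helper7.DivSub.RelIso

/-!
# Valuations trivial on a division subalgebra raise the isoperimetric degree
-/

open Module Filter
open scoped ENNReal Pointwise

namespace Pool.Agent.Helper7.DivSub

variable {K Q Γ : Type*} [Field K] [DivisionRing Q] [Algebra K Q]
variable [Group Γ] [LinearOrder Γ] [MulLeftMono Γ]

/-- An isoperimetric inequality with exponent `α` for the finite-dimensional subspaces of `D`. -/
def HasIso (K : Type*) [Field K] {Q : Type*} [DivisionRing Q] [Algebra K Q] (D : Subfield Q)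
    (α : ℝ) : Prop :=
  ∃ L : Submodule K Q, FiniteDimensional K L ∧ (∀ l ∈ L, l ∈ D) ∧ ∃ c : ℝ, 0 < c ∧
    ∀ T : Submodule K Q, FiniteDimensional K T → T ≠ ⊥ → (∀ t ∈ T, t ∈ D) →
      (finrank K T : ℝ) + c * (finrank K T : ℝ) ^ α ≤ finrank K ↥(L * T)

lemma pow_mul_injective (g γ : Γ) (hg : 1 < g) : Function.Injective (fun k : ℕ => g ^ k * γ) := by
  intro a b hab
  have h1 : g ^ a = g ^ b := mul_right_cancel hab
  have hmono : StrictMono (fun k : ℕ => g ^ k) := by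
    apply strictMono_nat_of_lt_succ
    intro k
    rw [pow_succ]
    exact lt_mul_of_one_lt_right' _ hg
  exact hmono.injective h1

omit [LinearOrder Γ] [MulLeftMono Γ] in
lemma telescope (a : Γ → ℝ≥0∞) (g γ : Γ) (m : ℕ) :
    a γ ≤ ∑ k ∈ Finset.range m, (a (g ^ k * γ) - a (g ^ (k + 1) * γ)) + a (g ^ m * γ) := by
  induction m with
  | zero => simp
  | succ m ih =>
    rw [Finset.sum_range_succ, add_assoc]
    exact ih.trans (by gcongr; exact le_tsub_add)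

/-- The values of an integrable integer-valued function are bounded by its total decrease along
`g`-orbits. -/
lemma le_of_diff (n : Γ → ℕ) (N b : ℕ) (g : Γ) (hg : 1 < g) (hN : ∑' γ, (n γ : ℝ≥0∞) = N)
    (hb : ∑' γ, ((n (g⁻¹ * γ) : ℝ≥0∞) - n γ) ≤ b) (γ : Γ) : n γ ≤ b := by
  have hinj := pow_mul_injective g γ hg
  obtain ⟨m, hm⟩ : ∃ m : ℕ, n (g ^ m * γ) = 0 := by
    by_contra hcon
    push Not at hcon
    have h1 : ∑ k ∈ Finset.range (N + 1), (n (g ^ k * γ) : ℝ≥0∞) ≤ N := by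
      calc ∑ k ∈ Finset.range (N + 1), (n (g ^ k * γ) : ℝ≥0∞)
          ≤ ∑' k : ℕ, (n (g ^ k * γ) : ℝ≥0∞) := ENNReal.sum_le_tsum _
        _ ≤ ∑' γ, (n γ : ℝ≥0∞) :=
            ENNReal.tsum_comp_le_tsum_of_injective hinj (fun δ => (n δ : ℝ≥0∞))
        _ = N := hN
    have h2 : ((N + 1 : ℕ) : ℝ≥0∞) ≤ ∑ k ∈ Finset.range (N + 1), (n (g ^ k * γ) : ℝ≥0∞) := by
      calc ((N + 1 : ℕ) : ℝ≥0∞) = ∑ k ∈ Finset.range (N + 1), (1 : ℝ≥0∞) := by simp
        _ ≤ _ := by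
          apply Finset.sum_le_sum
          intro k _
          have := Nat.one_le_iff_ne_zero.2 (hcon k)
          exact_mod_cast this
    have h3 := h2.trans h1
    have h4 : N + 1 ≤ N := by exact_mod_cast h3
    omega
  have h1 := telescope (fun γ => (n γ : ℝ≥0∞)) g γ m
  simp only [hm, Nat.cast_zero, add_zero] at h1
  have h2 : ∑ k ∈ Finset.range m, ((n (g ^ k * γ) : ℝ≥0∞) - n (g ^ (k + 1) * γ)) ≤ b := by
    calc ∑ k ∈ Finset.range m, ((n (g ^ k * γ) : ℝ≥0∞) - n (g ^ (k + 1) * γ))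
        ≤ ∑' k : ℕ, ((n (g ^ k * γ) : ℝ≥0∞) - n (g ^ (k + 1) * γ)) := ENNReal.sum_le_tsum _
      _ = ∑' k : ℕ, ((n (g⁻¹ * (g ^ (k + 1) * γ)) : ℝ≥0∞) - n (g ^ (k + 1) * γ)) := by
          apply tsum_congr
          intro k
          have : g⁻¹ * (g ^ (k + 1) * γ) = g ^ k * γ := by
            rw [pow_succ', ← mul_assoc, ← mul_assoc, inv_mul_cancel, one_mul]
          rw [this]
      _ ≤ ∑' δ, ((n (g⁻¹ * δ) : ℝ≥0∞) - n δ) := by
          have hinj' : Function.Injective (fun k : ℕ => g ^ (k + 1) * γ) := by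
            intro a b hab
            have := hinj (a₁ := a + 1) (a₂ := b + 1) hab
            omega
          exact ENNReal.tsum_comp_le_tsum_of_injective hinj'
            (fun δ => (n (g⁻¹ * δ) : ℝ≥0∞) - n δ)
      _ ≤ b := hb
  have h3 := h1.trans h2
  exact_mod_cast h3

variable {D E : Subfield Q} {hK : ∀ k : K, algebraMap K Q k ∈ D}
  {hKE : ∀ k : K, algebraMap K Q k ∈ E} {v : E →*₀ WithZero Γ}

omit [MulLeftMono Γ] in
/-- Elements of value less than `γ`, as a left subspace over a division subalgebra on which the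
valuation is trivial. -/
def vltD (hv : IsVal E hKE v) (hDE : D ≤ E)
    (hvD : ∀ (d : Q) (hd : d ∈ D), d ≠ 0 → v ⟨d, hDE hd⟩ = 1) (γ : Γ) : Submodule D Q where
  carrier := vlt hv γ
  add_mem' := (vlt hv γ).add_mem
  zero_mem' := (vlt hv γ).zero_mem
  smul_mem' := by
    rintro d x ⟨hx, hx'⟩
    by_cases hd : d = 0
    · subst hd
      rw [zero_smul]
      exact (vlt hv γ).zero_mem
    · have hmem : (d : Q) * x ∈ E := E.mul_mem (hDE d.2) hx
      refine ⟨hmem, ?_⟩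
      have e : (⟨(d : Q) * x, hmem⟩ : E) = ⟨d, hDE d.2⟩ * ⟨x, hx⟩ := rfl
      have hd0 : (d : Q) ≠ 0 := fun h => hd (Subtype.ext h)
      change v ⟨(d : Q) * x, hmem⟩ < _
      rw [e, map_mul, hvD d d.2 hd0, one_mul]
      exact hx'

omit [MulLeftMono Γ] in
lemma toK_vltD (hv : IsVal E hKE v) (hDE : D ≤ E)
    (hvD : ∀ (d : Q) (hd : d ∈ D), d ≠ 0 → v ⟨d, hDE hd⟩ = 1) (γ : Γ) :
    toK D hK (vltD hv hDE hvD γ) = vlt hv γ := by
  ext x
  exact Iff.rfl

omit [MulLeftMono Γ] in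
lemma mul_vle_le (hv : IsVal E hKE v) (hDE : D ≤ E)
    (hvD : ∀ (d : Q) (hd : d ∈ D), d ≠ 0 → v ⟨d, hDE hd⟩ = 1) (L T : Submodule K Q)
    (hLD : ∀ l ∈ L, l ∈ D) (γ : Γ) : L * (T ⊓ vle hv γ) ≤ L * T ⊓ vle hv γ := by
  rw [Submodule.mul_le]
  rintro l hl y ⟨hy, hyE, hy'⟩
  refine ⟨Submodule.mul_mem_mul hl hy, ?_⟩
  by_cases hl0 : l = 0
  · subst hl0
    rw [zero_mul]
    exact (vle hv γ).zero_mem
  · have hmem : l * y ∈ E := E.mul_mem (hDE (hLD l hl)) hyE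
    refine ⟨hmem, ?_⟩
    have e : (⟨l * y, hmem⟩ : E) = ⟨l, hDE (hLD l hl)⟩ * ⟨y, hyE⟩ := rfl
    rw [e, map_mul, hvD l (hLD l hl) hl0, one_mul]
    exact hy'

end Pool.Agent.Helper7.DivSub
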