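import Pool.Agent.Helper7.DivSub.RelVal

/-!
# Valuations trivial on a division subalgebra raise the isoperimetric degree, II
-/

open Module Filter
open scoped ENNReal Pointwise

namespace Pool.Agent.Helper7.DivSub

variable {K Q Γ : Type*} [Field K] [DivisionRing Q] [Algebra K Q]
variable [Group Γ] [LinearOrder Γ] [MulLeftMono Γ]
variable {D E : Subfield Q} {hK : ∀ k : K, algebraMap K Q k ∈ D}
  {hKE : ∀ k : K, algebraMap K Q k ∈ E} {v : E →*₀ WithZero Γ}

lemma mul_mem_sub {E : Subfield Q} {L T : Submodule K Q} (hL : ∀ l ∈ L, l ∈ E)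
    (hT : ∀ t ∈ T, t ∈ E) : ∀ z ∈ L * T, z ∈ E := by
  intro z hz
  induction hz using Submodule.mul_induction_on' with
  | mem_mul_mem a ha b hb => exact E.mul_mem (hL a ha) (hT b hb)
  | add a _ b _ ha hb => exact E.add_mem ha hb

omit [MulLeftMono Γ] in
include hK in
/-- Isoperimetric inequality for one graded piece. -/
lemma grdim_bound (hv : IsVal E hKE v) (hDE : D ≤ E)
    (hvD : ∀ (d : Q) (hd : d ∈ D), d ≠ 0 → v ⟨d, hDE hd⟩ = 1)
    (L : Submodule K Q) [hL : FiniteDimensional K L] (hLD : ∀ l ∈ L, l ∈ D)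
    (c α : ℝ) (hc : 0 < c) (hα0 : 0 ≤ α) (hα1 : α ≤ 1)
    (hiso : ∀ T : Submodule K Q, FiniteDimensional K T → T ≠ ⊥ → (∀ t ∈ T, t ∈ D) →
      (finrank K T : ℝ) + c * (finrank K T : ℝ) ^ α ≤ finrank K ↥(L * T))
    (T : Submodule K Q) [hT : FiniteDimensional K T] (γ : Γ)
    (h0 : 1 ≤ grdim (vle hv) (vlt hv) T γ) :
    (grdim (vle hv) (vlt hv) T γ : ℝ) + c * (grdim (vle hv) (vlt hv) T γ : ℝ) ^ α ≤
      grdim (vle hv) (vlt hv) (L * T) γ := by
  set n := grdim (vle hv) (vlt hv) T γ with hn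
  set U := T ⊓ vle hv γ with hU
  have hUf : FiniteDimensional K U := Submodule.finiteDimensional_of_le inf_le_left
  have e1 : U ⊓ toK D hK (vltD hv hDE hvD γ) = T ⊓ vlt hv γ := by
    rw [toK_vltD, hU, inf_assoc, inf_eq_right.2 (vlt_le hv γ)]
  have hle : finrank K ↥(T ⊓ vlt hv γ) ≤ finrank K U := by
    apply Submodule.finrank_mono
    exact inf_le_inf_left _ (vlt_le hv γ)
  have h1 := rel_iso (hK := hK) L hLD c α hc hα0 hα1 hiso n h0 U hUf
    (vltD hv hDE hvD γ) (by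
      have h00 : n = finrank K U - finrank K ↥(T ⊓ vlt hv γ) := rfl
      rw [e1]
      omega)
  rw [toK_vltD] at h1
  have e2 : L * U ⊓ vle hv γ = L * U :=
    inf_eq_left.2 ((mul_vle_le hv hDE hvD L T hLD γ).trans inf_le_right)
  have hLU : L * U ≤ L * T := (mul_vle_le hv hDE hvD L T hLD γ).trans inf_le_left
  have h2 := rel_mono (L * U) (L * T) (vlt hv γ) (vle hv γ) hLU (vlt_le hv γ)
  rw [e2] at h2
  have hle2 : finrank K ↥(L * T ⊓ vlt hv γ) ≤ finrank K ↥(L * T ⊓ vle hv γ) := by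
    have : FiniteDimensional K ↥(L * T ⊓ vle hv γ) :=
      Submodule.finiteDimensional_of_le inf_le_left
    exact Submodule.finrank_mono (inf_le_inf_left _ (vlt_le hv γ))
  have h3 : (grdim (vle hv) (vlt hv) (L * T) γ : ℝ) =
      finrank K ↥(L * T ⊓ vle hv γ) - finrank K ↥(L * T ⊓ vlt hv γ) := by
    unfold grdim
    rw [Nat.cast_sub hle2]
  have h2' : (finrank K ↥(L * U) : ℝ) + finrank K ↥(L * T ⊓ vlt hv γ) ≤
      finrank K ↥(L * T ⊓ vle hv γ) + finrank K ↥(L * U ⊓ vlt hv γ) := by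
    exact_mod_cast h2
  rw [h3]
  linarith

omit [MulLeftMono Γ] in
include hK in
lemma sum_bound (hv : IsVal E hKE v) (hDE : D ≤ E)
    (hvD : ∀ (d : Q) (hd : d ∈ D), d ≠ 0 → v ⟨d, hDE hd⟩ = 1)
    (L : Submodule K Q) [hL : FiniteDimensional K L] (hLD : ∀ l ∈ L, l ∈ D)
    (c α : ℝ) (hc : 0 < c) (hα0 : 0 ≤ α) (hα1 : α ≤ 1)
    (hiso : ∀ T : Submodule K Q, FiniteDimensional K T → T ≠ ⊥ → (∀ t ∈ T, t ∈ D) →
      (finrank K T : ℝ) + c * (finrank K T : ℝ) ^ α ≤ finrank K ↥(L * T))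
    (T : Submodule K Q) [hT : FiniteDimensional K T] (hTE : ∀ t ∈ T, t ∈ E)
    (B : ℝ) (hB0 : 0 < B) (hB : ∀ γ, (grdim (vle hv) (vlt hv) T γ : ℝ) ≤ B) :
    (finrank K T : ℝ) + c * (finrank K T : ℝ) * B ^ (α - 1) ≤ finrank K ↥(L * T) := by
  have hLTE := mul_mem_sub (fun l hl => hDE (hLD l hl)) hTE
  have s1 := tsum_val hv T hTE
  have s2 := tsum_val hv (L * T) hLTE
  have hBα : 0 < B ^ (α - 1) := by positivity
  have key : ∀ γ, ENNReal.ofReal (1 + c * B ^ (α - 1)) * (grdim (vle hv) (vlt hv) T γ : ℝ≥0∞) ≤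
      (grdim (vle hv) (vlt hv) (L * T) γ : ℝ≥0∞) := by
    intro γ
    rcases Nat.eq_zero_or_pos (grdim (vle hv) (vlt hv) T γ) with h0 | h0
    · rw [h0]; simp
    · have h1 := grdim_bound (hK := hK) hv hDE hvD L hLD c α hc hα0 hα1 hiso T γ h0
      set n := grdim (vle hv) (vlt hv) T γ with hn
      have hnr : (0 : ℝ) < n := by exact_mod_cast h0
      have hnB : (n : ℝ) ≤ B := hB γ
      have h4 : (n : ℝ) * B ^ (α - 1) ≤ (n : ℝ) ^ α := by
        have e3 : (n : ℝ) ^ α = n * (n : ℝ) ^ (α - 1) := by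
          rw [Real.rpow_sub_one hnr.ne']
          field_simp
        rw [e3]
        gcongr ?_ * ?_
        exact Real.rpow_le_rpow_of_nonpos hnr hnB (by linarith)
      have h5 : (1 + c * B ^ (α - 1)) * n ≤ grdim (vle hv) (vlt hv) (L * T) γ := by
        have := mul_le_mul_of_nonneg_left h4 hc.le
        nlinarith
      calc ENNReal.ofReal (1 + c * B ^ (α - 1)) * (n : ℝ≥0∞)
          = ENNReal.ofReal ((1 + c * B ^ (α - 1)) * n) := by
            rw [ENNReal.ofReal_mul (by positivity), ENNReal.ofReal_natCast]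
        _ ≤ ENNReal.ofReal (grdim (vle hv) (vlt hv) (L * T) γ) := ENNReal.ofReal_le_ofReal h5
        _ = _ := ENNReal.ofReal_natCast _
  have hsum : ENNReal.ofReal (1 + c * B ^ (α - 1)) * ((finrank K T : ℕ) : ℝ≥0∞) ≤
      ((finrank K ↥(L * T) : ℕ) : ℝ≥0∞) := by
    rw [← s1, ← s2, ← ENNReal.tsum_mul_left]
    exact ENNReal.tsum_le_tsum key
  have h6 : ENNReal.ofReal ((1 + c * B ^ (α - 1)) * finrank K T) ≤
      ENNReal.ofReal (finrank K ↥(L * T)) := by
    rw [ENNReal.ofReal_mul (by positivity), ENNReal.ofReal_natCast, ENNReal.ofReal_natCast]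
    exact hsum
  rw [ENNReal.ofReal_le_ofReal_iff (by positivity)] at h6
  linarith

end Pool.Agent.Helper7.DivSub
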