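import Pool.Agent.Helper7.DivSub.Core

/-!
# Gelfand-Kirillov dimension and quotient division algebras
-/

open Module Filter

namespace Pool.Agent.Helper7.DivSub

/-- The Gelfand-Kirillov dimension of a `K`-algebra `A`: the supremum, over all finite-dimensional
subspaces `V` of `A` containing `1`, of `limsup log dim (V^n) / log n`.  (If `A` is finitely
generated, every generating `V` attains the supremum.) -/
noncomputable def GKdim (K A : Type*) [Field K] [Ring A] [Algebra K A] : EReal :=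
  ⨆ (V : Submodule K A) (_ : FiniteDimensional K V) (_ : (1 : A) ∈ V),
    limsup (fun n : ℕ => ((Real.log (finrank K ↥(V ^ n)) / Real.log n : ℝ) : EReal)) atTop

/-- `ι : A → Q` makes the division algebra `Q` the (left) quotient division algebra of `A`. -/
def IsQuotientDivisionAlgebra {K A Q : Type*} [Field K] [Ring A] [Algebra K A] [DivisionRing Q]
    [Algebra K Q] (ι : A →ₐ[K] Q) : Prop :=
  Function.Injective ι ∧ ∀ q : Q, ∃ a b : A, b ≠ 0 ∧ q = (ι b)⁻¹ * ι a

variable {K A Q : Type*} [Field K] [Ring A] [Algebra K A] [DivisionRing Q] [Algebra K Q]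

lemma pow_mono' {V : Submodule K A} (h1 : (1 : A) ∈ V) {m n : ℕ} (h : m ≤ n) :
    V ^ m ≤ V ^ n := by
  have h1' : (1 : Submodule K A) ≤ V := Submodule.one_le.2 h1
  exact pow_le_pow_right₀ h1' h

/-- A finitely generated algebra is the union of the powers of a finite-dimensional subspace. -/
lemma exists_generating [hA : Algebra.FiniteType K A] : ∃ V : Submodule K A,
    FiniteDimensional K V ∧ (1 : A) ∈ V ∧ ∀ a : A, ∃ n : ℕ, a ∈ V ^ n := by
  classical
  obtain ⟨s, hs⟩ := hA.out
  set V := Submodule.span K ((insert 1 s : Finset A) : Set A) with hV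
  have h1 : (1 : A) ∈ V := Submodule.subset_span (by simp)
  refine ⟨V, FiniteDimensional.span_finset K _, h1, fun a => ?_⟩
  have ha : a ∈ Algebra.adjoin K (s : Set A) := by rw [hs]; trivial
  induction ha using Algebra.adjoin_induction with
  | mem x hx => exact ⟨1, by rw [pow_one]; exact Submodule.subset_span (by simp; exact Or.inr hx)⟩
  | algebraMap r =>
    refine ⟨0, ?_⟩
    rw [pow_zero]
    exact Submodule.algebraMap_mem r
  | add x y _ _ hx hy =>
    obtain ⟨n, hn⟩ := hx
    obtain ⟨m, hm⟩ := hy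
    exact ⟨max n m, Submodule.add_mem _ (pow_mono' h1 (le_max_left _ _) hn)
      (pow_mono' h1 (le_max_right _ _) hm)⟩
  | mul x y _ _ hx hy =>
    obtain ⟨n, hn⟩ := hx
    obtain ⟨m, hm⟩ := hy
    exact ⟨n + m, by rw [pow_add]; exact Submodule.mul_mem_mul hn hm⟩

/-- Transport of a generating subspace to the quotient division algebra. -/
lemma exists_V [hA : Algebra.FiniteType K A] (ι : A →ₐ[K] Q) (hι : IsQuotientDivisionAlgebra ι) :
    ∃ V : Submodule K Q, FiniteDimensional K V ∧ (1 : Q) ∈ V ∧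
      (∀ q : Q, ∃ n : ℕ, ∃ a ∈ V ^ n, ∃ b ∈ V ^ n, b ≠ 0 ∧ q = b⁻¹ * a) ∧
      limsup (fun n : ℕ => ((Real.log (finrank K ↥(V ^ n)) / Real.log n : ℝ) : EReal)) atTop ≤
        GKdim K A := by
  obtain ⟨W, hWf, hW1, hW⟩ := exists_generating (K := K) (A := A)
  have hpow : ∀ n : ℕ, (W.map ι.toLinearMap) ^ n = (W ^ n).map ι.toLinearMap := by
    intro n
    exact (Submodule.map_pow W ι n).symm
  have h1 : (1 : Q) ∈ W.map ι.toLinearMap := ⟨1, hW1, map_one ι⟩
  refine ⟨W.map ι.toLinearMap, inferInstance, h1, ?_, ?_⟩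
  · intro q
    obtain ⟨a, b, hb, hq⟩ := hι.2 q
    obtain ⟨n, hn⟩ := hW a
    obtain ⟨m, hm⟩ := hW b
    refine ⟨max n m, ι a, ?_, ι b, ?_, ?_, hq⟩
    · rw [hpow]
      exact ⟨a, pow_mono' hW1 (le_max_left _ _) hn, rfl⟩
    · rw [hpow]
      exact ⟨b, pow_mono' hW1 (le_max_right _ _) hm, rfl⟩
    · intro h
      exact hb (hι.1 (h.trans (map_zero ι).symm))
  · have h2 : ∀ n : ℕ, finrank K ↥((W.map ι.toLinearMap) ^ n) = finrank K ↥(W ^ n) := by
      intro n
      rw [hpow]
      exact (LinearEquiv.finrank_eq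
        (Submodule.equivMapOfInjective ι.toLinearMap hι.1 (W ^ n))).symm
    simp only [h2]
    unfold GKdim
    exact le_iSup_of_le W (le_iSup_of_le hWf (le_iSup_of_le hW1 le_rfl))

end Pool.Agent.Helper7.DivSub
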