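import Pool.Agent.Helper7.DivSub.RelVal2
import Pool.Agent.Helper7.DivSub.Setup

/-!
# Valuations trivial on a division subalgebra isomorphic to the whole algebra
-/

open Module Filter
open scoped ENNReal Pointwise

namespace Pool.Agent.Helper7.DivSub

variable {K Q Γ : Type*} [Field K] [DivisionRing Q] [Algebra K Q]
variable [Group Γ] [LinearOrder Γ] [MulLeftMono Γ]
variable {D E : Subfield Q} {hK : ∀ k : K, algebraMap K Q k ∈ D}
  {hKE : ∀ k : K, algebraMap K Q k ∈ E} {v : E →*₀ WithZero Γ}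

lemma one_le_finrank (T : Submodule K Q) [FiniteDimensional K T] (h0 : T ≠ ⊥) :
    1 ≤ finrank K T := by
  have : 0 < finrank K T := by
    rw [Module.finrank_pos_iff]
    exact (Submodule.nontrivial_iff_ne_bot).2 h0
  omega

lemma grdim_le_boundary (hv : IsVal E hKE v) (L : Submodule K Q) [hL : FiniteDimensional K L]
    (hLE : ∀ l ∈ L, l ∈ E) (h1 : (1 : Q) ∈ L) (x : E) (hxL : (x : Q) ∈ L) (g : Γ)
    (hx : v x = (g : WithZero Γ)) (hg : 1 < g) (T : Submodule K Q) [hT : FiniteDimensional K T]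
    (hTE : ∀ t ∈ T, t ∈ E) (γ : Γ) :
    grdim (vle hv) (vlt hv) T γ ≤ finrank K ↥(L * T) - finrank K T :=
  le_of_diff (fun γ => grdim (vle hv) (vlt hv) T γ) (finrank K T) _ g hg (tsum_val hv T hTE)
    (diff_le hv L hLE h1 x hxL g hx T hTE) γ

lemma one_le_boundary (hv : IsVal E hKE v) (L : Submodule K Q) [hL : FiniteDimensional K L]
    (hLE : ∀ l ∈ L, l ∈ E) (h1 : (1 : Q) ∈ L) (x : E) (hxL : (x : Q) ∈ L) (g : Γ)
    (hx : v x = (g : WithZero Γ)) (hg : 1 < g) (T : Submodule K Q) [hT : FiniteDimensional K T]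
    (hT0 : T ≠ ⊥) (hTE : ∀ t ∈ T, t ∈ E) :
    1 ≤ finrank K ↥(L * T) - finrank K T := by
  by_contra hcon
  have hb : finrank K ↥(L * T) - finrank K T = 0 := by omega
  have h2 := grdim_le_boundary hv L hLE h1 x hxL g hx hg T hTE
  rw [hb] at h2
  have h3 := tsum_val hv T hTE
  have h4 : ∀ γ, grdim (vle hv) (vlt hv) T γ = 0 := fun γ => Nat.le_zero.1 (h2 γ)
  simp only [h4, Nat.cast_zero, tsum_zero] at h3
  have h5 : finrank K T = 0 := by exact_mod_cast h3.symm
  have := one_le_finrank T hT0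
  omega

omit [MulLeftMono Γ] in
/-- An auxiliary subspace spanned by `L`, `1` and `x`. -/
lemma exists_aux (L : Submodule K Q) [hL : FiniteDimensional K L] (hLE : ∀ l ∈ L, l ∈ E)
    (hKE : ∀ k : K, algebraMap K Q k ∈ E) (x : E) :
    ∃ L' : Submodule K Q, FiniteDimensional K L' ∧ (∀ l ∈ L', l ∈ E) ∧ (1 : Q) ∈ L' ∧
      (x : Q) ∈ L' ∧ L ≤ L' := by
  classical
  set s : Finset Q := {1, (x : Q)} with hs
  have hsf : FiniteDimensional K ↥(Submodule.span K (s : Set Q)) :=
    FiniteDimensional.span_finset K s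
  refine ⟨L ⊔ Submodule.span K (s : Set Q), inferInstance, ?_, ?_, ?_, le_sup_left⟩
  · have h2 : L ⊔ Submodule.span K (s : Set Q) ≤ domK E hKE := by
      apply sup_le
      · exact hLE
      · rw [Submodule.span_le]
        intro z hz
        simp only [hs, Finset.coe_insert, Finset.coe_singleton, Set.mem_insert_iff,
          Set.mem_singleton_iff] at hz
        rcases hz with rfl | rfl
        · exact E.one_mem
        · exact x.2
    exact fun l hl => h2 hl
  · exact le_sup_right (a := L) (Submodule.subset_span (by simp [hs]))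
  · exact le_sup_right (a := L) (Submodule.subset_span (by simp [hs]))

/-- Base case. -/
theorem hasIso_base (hv : IsVal E hKE v) (x : E) (g : Γ) (hx : v x = (g : WithZero Γ))
    (hg : 1 < g) : HasIso K E 0 := by
  obtain ⟨L, hLf, hLE, h1, hxL, _⟩ := exists_aux (K := K) (E := E) (⊥ : Submodule K Q)
    (by rintro l hl; rw [Submodule.mem_bot] at hl; subst hl; exact E.zero_mem) hKE x
  refine ⟨L, hLf, hLE, 1, one_pos, fun T hT hT0 hTE => ?_⟩
  have h2 := one_le_boundary hv L hLE h1 x hxL g hx hg T hT0 hTE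
  rw [Real.rpow_zero, mul_one]
  have h3 : finrank K T + 1 ≤ finrank K ↥(L * T) := by omega
  exact_mod_cast h3

include hK in
/-- The inductive step: a valuation on `E`, trivial on `D`, raises the exponent from `α` to
`1 / (2 - α)`. -/
theorem hasIso_step (hv : IsVal E hKE v) (hDE : D ≤ E)
    (hvD : ∀ (d : Q) (hd : d ∈ D), d ≠ 0 → v ⟨d, hDE hd⟩ = 1) (x : E) (g : Γ)
    (hx : v x = (g : WithZero Γ)) (hg : 1 < g) (α : ℝ) (hα0 : 0 ≤ α) (hα1 : α ≤ 1)
    (hD : HasIso K D α) : HasIso K E (1 / (2 - α)) := by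
  obtain ⟨L, hLf, hLD, c, hc, hiso⟩ := hD
  obtain ⟨L', hL'f, hL'E, h1, hxL, hLL'⟩ := exists_aux (K := K) (E := E) L
    (fun l hl => hDE (hLD l hl)) hKE x
  refine ⟨L', hL'f, hL'E, c ^ (1 / (2 - α)), by positivity, fun T hT hT0 hTE => ?_⟩
  set b := finrank K ↥(L' * T) - finrank K T with hb
  have hle : finrank K T ≤ finrank K ↥(L' * T) :=
    Submodule.finrank_mono (le_mul_of_one_mem L' T h1)
  have hb1 : 1 ≤ b := one_le_boundary hv L' hL'E h1 x hxL g hx hg T hT0 hTE
  have hbr : (0 : ℝ) < b := by exact_mod_cast hb1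
  have hgr : ∀ γ, (grdim (vle hv) (vlt hv) T γ : ℝ) ≤ b := by
    intro γ
    exact_mod_cast grdim_le_boundary hv L' hL'E h1 x hxL g hx hg T hTE γ
  have h2 := sum_bound (hK := hK) hv hDE hvD L hLD c α hc hα0 hα1 hiso T hTE b hbr hgr
  have h3 : finrank K ↥(L * T) ≤ finrank K ↥(L' * T) :=
    Submodule.finrank_mono
      (Submodule.mul_le.2 (fun l hl t ht => Submodule.mul_mem_mul (hLL' hl) ht))
  have h3r : (finrank K ↥(L * T) : ℝ) ≤ finrank K ↥(L' * T) := by exact_mod_cast h3
  have hbe : (b : ℝ) = finrank K ↥(L' * T) - finrank K T := by rw [hb, Nat.cast_sub hle]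
  have h4 : c * (finrank K T : ℝ) * (b : ℝ) ^ (α - 1) ≤ b := by linarith
  have h5 : c * (finrank K T : ℝ) ≤ (b : ℝ) ^ (2 - α) := by
    have e1 : (b : ℝ) ^ (2 - α) = b * (b : ℝ) ^ (1 - α) := by
      rw [← Real.rpow_one_add' hbr.le (by linarith)]
      ring_nf
    have e2 : (b : ℝ) ^ (α - 1) * (b : ℝ) ^ (1 - α) = 1 := by
      rw [← Real.rpow_add hbr]
      simp
    have hp : 0 < (b : ℝ) ^ (1 - α) := by positivity
    have h6 := mul_le_mul_of_nonneg_right h4 hp.le
    rw [mul_assoc, e2, mul_one] at h6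
    rw [e1]
    exact h6
  have h6 : (c * (finrank K T : ℝ)) ^ (1 / (2 - α)) ≤ b := by
    have h7 := Real.rpow_le_rpow (by positivity) h5
      (show 0 ≤ 1 / (2 - α) by
        have : 0 < 2 - α := by linarith
        positivity)
    rwa [← Real.rpow_mul hbr.le, mul_one_div_cancel (by linarith : (2 - α) ≠ 0),
      Real.rpow_one] at h7
  rw [Real.mul_rpow hc.le (by positivity)] at h6
  linarith

include hKE in
omit [MulLeftMono Γ] in
/-- Extension of an isoperimetric inequality from a division subalgebra to the whole algebra. -/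
theorem hasIso_top (α : ℝ) (hα0 : 0 ≤ α) (hα1 : α ≤ 1) (hE : HasIso K E α) :
    HasIso K (⊤ : Subfield Q) α := by
  obtain ⟨L, hLf, hLE, c, hc, hiso⟩ := hE
  refine ⟨L, hLf, fun l _ => trivial, c, hc, fun T hT hT0 _ => ?_⟩
  have e1 : T ⊓ toK E hKE ⊥ = ⊥ := by
    rw [eq_bot_iff]
    rintro x ⟨_, hx⟩
    exact hx
  have e2 : L * T ⊓ toK E hKE ⊥ = ⊥ := by
    rw [eq_bot_iff]
    rintro x ⟨_, hx⟩
    exact hx
  have h := rel_iso (hK := hKE) L hLE c α hc hα0 hα1 hiso (finrank K T) (one_le_finrank T hT0)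
    T hT ⊥ (by rw [e1, finrank_bot, add_zero])
  rw [e2, finrank_bot, Nat.cast_zero, add_zero] at h
  exact h

/-- Transport of an isoperimetric inequality along an endomorphism. -/
theorem hasIso_map (φ : Q →ₐ[K] Q) (α : ℝ) (hQ : HasIso K (⊤ : Subfield Q) α) (D : Subfield Q)
    (hD : ∀ q : Q, q ∈ D ↔ ∃ p : Q, φ p = q) : HasIso K D α := by
  obtain ⟨L, hLf, _, c, hc, hiso⟩ := hQ
  have hφ : Function.Injective φ := φ.toRingHom.injective
  refine ⟨L.map φ.toLinearMap, inferInstance, ?_, c, hc, fun T hT hT0 hTD => ?_⟩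
  · rintro l ⟨p, _, rfl⟩
    exact (hD _).2 ⟨p, rfl⟩
  · set T' := T.comap φ.toLinearMap with hT'
    have hmap : T'.map φ.toLinearMap = T := by
      rw [hT', Submodule.map_comap_eq, inf_eq_right]
      intro t ht
      obtain ⟨p, hp⟩ := (hD t).1 (hTD t ht)
      exact ⟨p, hp⟩
    have hT'f : FiniteDimensional K T' := by
      have e : T' ≃ₗ[K] ↥(T'.map φ.toLinearMap) :=
        Submodule.equivMapOfInjective φ.toLinearMap hφ T'
      rw [hmap] at e
      exact Module.Finite.equiv e.symm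
    have hT'0 : T' ≠ ⊥ := by
      intro h
      apply hT0
      rw [← hmap, h, Submodule.map_bot]
    have h := hiso T' hT'f hT'0 (fun _ _ => trivial)
    have e1 : finrank K T' = finrank K T := by
      rw [(LinearEquiv.finrank_eq (Submodule.equivMapOfInjective φ.toLinearMap hφ T')), hmap]
    have e2 : finrank K ↥(L * T') = finrank K ↥(L.map φ.toLinearMap * T) := by
      rw [(LinearEquiv.finrank_eq
        (Submodule.equivMapOfInjective φ.toLinearMap hφ (L * T'))), Submodule.map_mul, hmap]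
    rw [e1, e2] at h
    exact h

end Pool.Agent.Helper7.DivSub
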