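import Pool.Agent.Helper7.DivSub.RelVal3

/-!
# Valuations trivial on a division subalgebra isomorphic to the whole algebra, II
-/

open Module Filter
open scoped ENNReal Pointwise

namespace Pool.Agent.Helper7.DivSub

variable {K Q Γ : Type*} [Field K] [DivisionRing Q] [Algebra K Q]
variable [Group Γ] [LinearOrder Γ] [MulLeftMono Γ]

/-- Polynomial growth bounds the isoperimetric degree. -/
theorem not_all_hasIso (V : Submodule K Q) [hV : FiniteDimensional K V] (h1 : (1 : Q) ∈ V)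
    (hfrac : ∀ q : Q, ∃ n : ℕ, ∃ a ∈ V ^ n, ∃ b ∈ V ^ n, b ≠ 0 ∧ q = b⁻¹ * a)
    (hgk : limsup (fun n : ℕ => ((Real.log (finrank K ↥(V ^ n)) / Real.log n : ℝ) : EReal))
      atTop < ⊤)
    (hall : ∀ j : ℕ, HasIso K (⊤ : Subfield Q) (1 - 1 / ((j : ℝ) + 1))) : False := by
  obtain ⟨g, hg1, _⟩ := EReal.lt_iff_exists_real_btwn.1 hgk
  obtain ⟨d, hdg, hd⟩ := eventually_le_of_limsup (fun n => finrank K ↥(V ^ n))
    (fun n => finrank_pow_pos h1 n) g hg1
  set d' := max d 0 with hd'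
  have hd0 : 0 ≤ d' := le_max_right _ _
  obtain ⟨j, hj⟩ := exists_nat_gt d'
  obtain ⟨L, hLf, _, c, hc, hiso⟩ := hall j
  obtain ⟨c0, N0, hc0, hN0, hnear⟩ := near V h1 hfrac L
  have hmono : Monotone (fun n : ℕ => (finrank K ↥(V ^ n) : ℝ)) := by
    intro a b hab
    have := Submodule.finrank_mono (pow_le_pow_of_one_mem h1 hab)
    change (finrank K ↥(V ^ a) : ℝ) ≤ finrank K ↥(V ^ b)
    exact_mod_cast this
  have hN0r : (0 : ℝ) < N0 := by exact_mod_cast hN0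
  have hj1 : (0 : ℝ) < (j : ℝ) + 1 := by positivity
  obtain ⟨n0, hn0⟩ := eventually_atTop.1 hd
  refine growth_contra_aux (fun n : ℕ => (finrank K ↥(V ^ n) : ℝ))
    (fun n => by exact_mod_cast finrank_pow_pos h1 n) hmono d' (d' / (j + 1)) (c / N0)
    (by positivity) (by rw [div_lt_one hj1]; linarith) (by positivity) c0 (n0 + 1) hc0 ?_ ?_
  · intro n hn
    refine (hn0 n (by omega)).trans ?_
    have : (1 : ℝ) ≤ n := by exact_mod_cast (by omega : 1 ≤ n)
    exact Real.rpow_le_rpow_of_exponent_le this (le_max_left _ _)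
  · intro m hm hm1
    have hmr : (1 : ℝ) ≤ m := by exact_mod_cast hm1
    have hf1 : (1 : ℝ) ≤ finrank K ↥(V ^ m) := by exact_mod_cast finrank_pow_pos h1 m
    have hf0 : (0 : ℝ) < finrank K ↥(V ^ m) := by linarith
    have hV0 : V ^ m ≠ ⊥ := by
      intro h
      have := one_mem_pow h1 m
      rw [h, Submodule.mem_bot] at this
      exact one_ne_zero this
    have h2 := hiso (V ^ m) inferInstance hV0 (fun _ _ => trivial)
    have h3 := hnear m
    have hle : finrank K ↥(V ^ m) ≤ finrank K ↥(V ^ (m + c0)) :=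
      Submodule.finrank_mono (pow_le_pow_of_one_mem h1 (Nat.le_add_right _ _))
    have h4 : (finrank K ↥(L * V ^ m) : ℝ) ≤ finrank K ↥(V ^ m) +
        N0 * ((finrank K ↥(V ^ (m + c0)) : ℝ) - finrank K ↥(V ^ m)) := by
      have : (finrank K ↥(L * V ^ m) : ℝ) ≤ ((finrank K ↥(V ^ m) +
        N0 * (finrank K ↥(V ^ (m + c0)) - finrank K ↥(V ^ m)) : ℕ) : ℝ) := by exact_mod_cast h3
      rwa [Nat.cast_add, Nat.cast_mul, Nat.cast_sub hle] at this
    have h5 : (finrank K ↥(V ^ m) : ℝ) ≤ (m : ℝ) ^ d' :=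
      (hn0 m (by omega)).trans (Real.rpow_le_rpow_of_exponent_le hmr (le_max_left _ _))
    have h6 : (2 * (m : ℝ)) ^ (-(d' / (j + 1))) * finrank K ↥(V ^ m) ≤
        (finrank K ↥(V ^ m) : ℝ) ^ (1 - 1 / ((j : ℝ) + 1)) := by
      have e1 : (finrank K ↥(V ^ m) : ℝ) ^ (1 - 1 / ((j : ℝ) + 1)) =
          (finrank K ↥(V ^ m) : ℝ) ^ (-(1 / ((j : ℝ) + 1))) * finrank K ↥(V ^ m) := by
        rw [sub_eq_neg_add, Real.rpow_add hf0, Real.rpow_one]
      rw [e1]
      gcongr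
      calc (2 * (m : ℝ)) ^ (-(d' / (j + 1))) ≤ (m : ℝ) ^ (-(d' / (j + 1))) := by
            apply Real.rpow_le_rpow_of_nonpos (by linarith) (by linarith)
            have : 0 ≤ d' / (j + 1) := by positivity
            linarith
        _ = ((m : ℝ) ^ d') ^ (-(1 / ((j : ℝ) + 1))) := by
            rw [← Real.rpow_mul (by linarith)]
            congr 1
            ring
        _ ≤ (finrank K ↥(V ^ m) : ℝ) ^ (-(1 / ((j : ℝ) + 1))) := by
            apply Real.rpow_le_rpow_of_nonpos hf0 h5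
            have : 0 ≤ 1 / ((j : ℝ) + 1) := by positivity
            linarith
    change (1 + c / N0 * (2 * (m : ℝ)) ^ (-(d' / (j + 1)))) * (finrank K ↥(V ^ m) : ℝ) ≤
      finrank K ↥(V ^ (m + c0))
    have h7 : c * ((2 * (m : ℝ)) ^ (-(d' / (j + 1))) * finrank K ↥(V ^ m)) ≤
        N0 * ((finrank K ↥(V ^ (m + c0)) : ℝ) - finrank K ↥(V ^ m)) := by
      have := mul_le_mul_of_nonneg_left h6 hc.le
      linarith
    have h8 : c / N0 * (2 * (m : ℝ)) ^ (-(d' / (j + 1))) * (finrank K ↥(V ^ m) : ℝ) ≤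
        (finrank K ↥(V ^ (m + c0)) : ℝ) - finrank K ↥(V ^ m) := by
      have e2 : c / N0 * (2 * (m : ℝ)) ^ (-(d' / (j + 1))) * (finrank K ↥(V ^ m) : ℝ) =
          c * ((2 * (m : ℝ)) ^ (-(d' / (j + 1))) * finrank K ↥(V ^ m)) / N0 := by ring
      rw [e2, div_le_iff₀ hN0r]
      linarith
    linarith

/-- Main theorem on relative valuations. -/
theorem rel_val_main (V : Submodule K Q) [hV : FiniteDimensional K V] (h1 : (1 : Q) ∈ V)
    (hfrac : ∀ q : Q, ∃ n : ℕ, ∃ a ∈ V ^ n, ∃ b ∈ V ^ n, b ≠ 0 ∧ q = b⁻¹ * a)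
    (hgk : limsup (fun n : ℕ => ((Real.log (finrank K ↥(V ^ n)) / Real.log n : ℝ) : EReal))
      atTop < ⊤)
    (φ : Q →ₐ[K] Q) (E : Subfield Q) (hE : ∀ q : Q, φ q ∈ E) (v : E →*₀ WithZero Γ)
    (hadd : ∀ x y : E, v (x + y) ≤ max (v x) (v y))
    (htriv : ∀ q : Q, q ≠ 0 → v ⟨φ q, hE q⟩ = 1) : ∀ x : E, x ≠ 0 → v x = 1 := by
  by_contra hcon
  push Not at hcon
  obtain ⟨x, hx0, hx⟩ := hcon
  -- an element of value `> 1`
  obtain ⟨y, g, hy, hg⟩ : ∃ (y : E) (g : Γ), v y = (g : WithZero Γ) ∧ 1 < g := by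
    have hvx : v x ≠ 0 := by rw [map_ne_zero]; exact hx0
    obtain ⟨g, hg⟩ := WithZero.ne_zero_iff_exists.1 hvx
    have hg1 : g ≠ 1 := by
      intro h
      apply hx
      rw [← hg, h, WithZero.coe_one]
    rcases lt_or_gt_of_ne hg1 with h | h
    · refine ⟨x⁻¹, g⁻¹, ?_, ?_⟩
      · have h2 : v x⁻¹ * v x = 1 := by
          rw [← map_mul, inv_mul_cancel₀ hx0, map_one]
        rw [← hg] at h2
        have h3 : v x⁻¹ = v x⁻¹ * ((g : WithZero Γ) * ((g⁻¹ : Γ) : WithZero Γ)) := by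
          rw [← WithZero.coe_mul, mul_inv_cancel, WithZero.coe_one, mul_one]
        rw [h3, ← mul_assoc, h2, one_mul]
      · have h4 := mul_lt_mul_right h g⁻¹
        rwa [inv_mul_cancel, mul_one] at h4
    · exact ⟨x, g, hg.symm, h⟩
  set D : Subfield Q := φ.toRingHom.fieldRange with hD
  have hDmem : ∀ q : Q, q ∈ D ↔ ∃ p : Q, φ p = q := by
    intro q
    rw [hD, RingHom.mem_fieldRange]
    exact Iff.rfl
  have hK : ∀ k : K, algebraMap K Q k ∈ D := fun k => (hDmem _).2 ⟨algebraMap K Q k, φ.commutes k⟩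
  have hDE : D ≤ E := by
    intro q hq
    obtain ⟨p, rfl⟩ := (hDmem q).1 hq
    exact hE p
  have hKE : ∀ k : K, algebraMap K Q k ∈ E := fun k => hDE (hK k)
  have hvD : ∀ (d : Q) (hd : d ∈ D), d ≠ 0 → v ⟨d, hDE hd⟩ = 1 := by
    intro d hd hd0
    obtain ⟨p, rfl⟩ := (hDmem d).1 hd
    have hp : p ≠ 0 := by
      rintro rfl
      exact hd0 (map_zero φ)
    exact htriv p hp
  have hv : IsVal E hKE v := by
    refine ⟨hadd, fun k hk => ?_⟩
    apply hvD _ (hK k)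
    intro h
    exact hk ((map_eq_zero (algebraMap K Q)).1 h)
  apply not_all_hasIso V h1 hfrac hgk
  intro j
  induction j with
  | zero =>
    have h0 : (1 : ℝ) - 1 / ((0 : ℕ) + 1) = 0 := by norm_num
    rw [h0]
    exact hasIso_top (hKE := hKE) 0 le_rfl zero_le_one (hasIso_base hv y g hy hg)
  | succ j ih =>
    have hj : (0 : ℝ) < (j : ℝ) + 1 := by positivity
    have hα0 : (0 : ℝ) ≤ 1 - 1 / ((j : ℝ) + 1) := by
      rw [sub_nonneg, div_le_one hj]
      have : (0 : ℝ) ≤ j := by positivity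
      linarith
    have hα1 : (1 : ℝ) - 1 / ((j : ℝ) + 1) ≤ 1 := by
      have : 0 < 1 / ((j : ℝ) + 1) := by positivity
      linarith
    have h2 := hasIso_step (hK := hK) hv hDE hvD y g hy hg _ hα0 hα1 (hasIso_map φ _ ih D hDmem)
    have e1 : (1 : ℝ) / (2 - (1 - 1 / ((j : ℝ) + 1))) = 1 - 1 / (((j + 1 : ℕ) : ℝ) + 1) := by
      push_cast
      have e2 : (2 : ℝ) - (1 - 1 / ((j : ℝ) + 1)) = ((j : ℝ) + 1 + 1) / ((j : ℝ) + 1) := by
        rw [eq_div_iff hj.ne']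
        have : 1 / ((j : ℝ) + 1) * ((j : ℝ) + 1) = 1 := one_div_mul_cancel hj.ne'
        nlinarith
      have e3 : (0 : ℝ) < (j : ℝ) + 1 + 1 := by positivity
      rw [e2, one_div_div, eq_sub_iff_add_eq, ← add_div, div_self e3.ne']
    rw [e1] at h2
    refine hasIso_top (hKE := hKE) _ ?_ ?_ h2
    · rw [sub_nonneg, div_le_one (by positivity)]
      have : (0 : ℝ) ≤ ((j + 1 : ℕ) : ℝ) := by positivity
      linarith
    · have : 0 < 1 / (((j + 1 : ℕ) : ℝ) + 1) := by positivity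
      linarith

end Pool.Agent.Helper7.DivSub
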