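import Pool.Agent.Helper7.DivSub.Ore3
import Pool.Agent.Helper7.DivSub.RelVal4
import Pool.Agent.Helper7.DivSub.Prod

/-!
# Towers of division subalgebras
-/

open Module Filter
open scoped Pointwise

namespace Pool.Agent.Helper7.DivSub

variable {K Q : Type*} [Field K] [DivisionRing Q] [Algebra K Q]

/-- `OreTower D E`: the division subring `E` is reached from `D` by finitely many steps, each of
which passes from a division subring `F` either to a division subring `F' ⊇ F` of finite left
dimension over `F`, or to the division subring generated by `F` and an element `t` with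
`t F ⊆ F t + F`. -/
inductive OreTower (D : Subfield Q) : Subfield Q → Prop
  | refl : OreTower D D
  | finite (F F' : Subfield Q) (hF : OreTower D F) (hle : F ≤ F') (s : Finset Q)
      (hs : ∀ x ∈ F', x ∈ Submodule.span F (s : Set Q)) : OreTower D F'
  | ore (F : Subfield Q) (hF : OreTower D F) (t : Q) (ht : OreRel F t) :
      OreTower D (Subfield.closure ((F : Set Q) ∪ {t}))

lemma OreTower.le {D E : Subfield Q} (h : OreTower D E) : D ≤ E := by
  induction h with
  | refl => exact le_rfl
  | finite F F' _ hle _ _ ih => exact ih.trans hle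
  | ore F _ t _ ih =>
    exact ih.trans (fun x hx => Subfield.subset_closure (Or.inl hx))

/-- Spans over a tower. -/
lemma span_trans {D F : Subfield Q} (s₁ : Finset Q)
    (h₁ : ∀ x ∈ F, x ∈ Submodule.span D (s₁ : Set Q)) (s₂ : Finset Q) :
    ∃ s : Finset Q, ∀ x ∈ Submodule.span F (s₂ : Set Q), x ∈ Submodule.span D (s : Set Q) := by
  classical
  refine ⟨(s₁ ×ˢ s₂).image (fun p => p.1 * p.2), fun x hx => ?_⟩
  obtain ⟨f, _, rfl⟩ := Submodule.mem_span_finset.1 hx
  apply Submodule.sum_mem
  intro a ha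
  have h1 : (f a : Q) * a ∈ (Submodule.span D (s₁ : Set Q)).map (rmul D a) :=
    ⟨f a, h₁ _ (f a).2, rfl⟩
  rw [Submodule.map_span] at h1
  refine Submodule.span_mono ?_ h1
  rintro z ⟨w, hw, rfl⟩
  rw [Finset.coe_image]
  exact ⟨(w, a), Finset.mem_coe.2 (Finset.mem_product.2 ⟨hw, ha⟩), rfl⟩

/-- Towers over a copy of `Q(A)` have finite left dimension. -/
theorem OreTower.finite_span (V : Submodule K Q) [hV : FiniteDimensional K V] (h1 : (1 : Q) ∈ V)
    (hfrac : ∀ q : Q, ∃ n : ℕ, ∃ a ∈ V ^ n, ∃ b ∈ V ^ n, b ≠ 0 ∧ q = b⁻¹ * a)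
    (hgk : limsup (fun n : ℕ => ((Real.log (finrank K ↥(V ^ n)) / Real.log n : ℝ) : EReal))
      atTop < ⊤)
    (φ : Q →ₐ[K] Q) (D : Subfield Q) (hD : ∀ q : Q, q ∈ D ↔ ∃ p : Q, φ p = q)
    {E : Subfield Q} (h : OreTower D E) :
    ∃ s : Finset Q, ∀ x ∈ E, x ∈ Submodule.span D (s : Set Q) := by
  classical
  induction h with
  | refl =>
    refine ⟨{1}, fun x hx => ?_⟩
    have h2 := Submodule.smul_mem (Submodule.span D (({1} : Finset Q) : Set Q)) (⟨x, hx⟩ : D)
      (Submodule.subset_span (by simp : (1 : Q) ∈ (({1} : Finset Q) : Set Q)))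
    rwa [smul_def', mul_one] at h2
  | finite F F' hF hle s hs ih =>
    obtain ⟨s₁, hs₁⟩ := ih
    obtain ⟨s', hs'⟩ := span_trans s₁ hs₁ s
    exact ⟨s', fun x hx => hs' x (hs x hx)⟩
  | ore F hF t ht ih =>
    obtain ⟨s, hs⟩ := ih
    by_cases hi : ∀ n, t ^ n ∉ skewP F t n
    · exfalso
      have hi' : LeftTransc F t := leftTransc_of_notMem hi
      have hDF : D ≤ oreFrac ht hi' := hF.le.trans (le_oreFrac ht hi')
      have hφ : ∀ q : Q, φ q ∈ oreFrac ht hi' := fun q => hDF ((hD _).2 ⟨q, rfl⟩)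
      have h2 := rel_val_main V h1 hfrac hgk φ (oreFrac ht hi') hφ (oreVal ht hi')
        (oreVal_add ht hi') (by
          intro q hq
          have h3 : φ q ∈ F := hF.le ((hD _).2 ⟨q, rfl⟩)
          have h4 : φ q ≠ 0 := by
            intro h
            exact hq (φ.toRingHom.injective (h.trans (map_zero φ).symm))
          exact oreVal_of_mem ht hi' (φ q) h3 h4)
        ⟨t, t_mem_oreFrac ht hi'⟩ (by
          intro h
          exact (hasVal_t hi').ne_zero (congrArg Subtype.val h))
      rw [oreVal_t] at h2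
      have h3 : (Multiplicative.ofAdd (1 : ℤ) : Multiplicative ℤ) = 1 := by
        exact_mod_cast h2
      have h4 : (1 : ℤ) = 0 := h3
      omega
    · push Not at hi
      obtain ⟨n, hn⟩ := hi
      obtain ⟨s', hs'⟩ := span_of_mem (t := t) s hs n
      exact ⟨s', fun x hx => hs' x (closure_le_of_mem ht hn x hx)⟩

end Pool.Agent.Helper7.DivSub
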