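import Pool.Agent.Helper7.DivSub.Graded
import Pool.Agent.Helper7.DivSub.Comb
import Pool.Agent.Helper7.DivSub.CombReal
import Pool.Agent.Helper7.DivSub.Expand

/-!
# Isoperimetric inequality for valued division algebras
-/

open Module Filter
open scoped ENNReal Pointwise

namespace Pool.Agent.Helper7.DivSub

variable {K Q Γ : Type*} [Field K] [DivisionRing Q] [Algebra K Q]
variable [Group Γ] [LinearOrder Γ] [MulLeftMono Γ]

/-- A valuation on the division subalgebra `D`, trivial on `K`, with values in a group `Γ` with a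
left-invariant total order: multiplicative, and the value of a sum is at most the larger value. -/
structure IsVal (D : Subfield Q) (hK : ∀ k : K, algebraMap K Q k ∈ D)
    (v : D →*₀ WithZero Γ) : Prop where
  add_le : ∀ x y : D, v (x + y) ≤ max (v x) (v y)
  trivial_on_base : ∀ k : K, k ≠ 0 → v ⟨algebraMap K Q k, hK k⟩ = 1

variable {D : Subfield Q} {hK : ∀ k : K, algebraMap K Q k ∈ D} {v : D →*₀ WithZero Γ}

omit [MulLeftMono Γ] in
lemma IsVal.smul_le (hv : IsVal D hK v) (k : K) (x : Q) (hx : x ∈ D) (h : k • x ∈ D) :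
    v ⟨k • x, h⟩ ≤ v ⟨x, hx⟩ := by
  have e : (⟨k • x, h⟩ : D) = ⟨algebraMap K Q k, hK k⟩ * ⟨x, hx⟩ :=
    Subtype.ext (Algebra.smul_def k x)
  rw [e, map_mul]
  by_cases hk : k = 0
  · subst hk
    have : (⟨algebraMap K Q 0, hK 0⟩ : D) = 0 := Subtype.ext (map_zero _)
    rw [this, map_zero, zero_mul]
    exact zero_le
  · rw [hv.trivial_on_base k hk, one_mul]

/-- Elements of value at most `γ`. -/
def vle (hv : IsVal D hK v) (γ : Γ) : Submodule K Q where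
  carrier := {q | ∃ h : q ∈ D, v ⟨q, h⟩ ≤ (γ : WithZero Γ)}
  add_mem' := by
    rintro a b ⟨ha, ha'⟩ ⟨hb, hb'⟩
    exact ⟨D.add_mem ha hb, (hv.add_le ⟨a, ha⟩ ⟨b, hb⟩).trans (max_le ha' hb')⟩
  zero_mem' := by
    refine ⟨D.zero_mem, ?_⟩
    have : (⟨0, D.zero_mem⟩ : D) = 0 := rfl
    rw [this, map_zero]
    exact zero_le
  smul_mem' := by
    rintro k x ⟨hx, hx'⟩
    have hmem : k • x ∈ D := by
      rw [Algebra.smul_def]; exact D.mul_mem (hK k) hx
    exact ⟨hmem, (hv.smul_le k x hx hmem).trans hx'⟩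

/-- Elements of value less than `γ`. -/
def vlt (hv : IsVal D hK v) (γ : Γ) : Submodule K Q where
  carrier := {q | ∃ h : q ∈ D, v ⟨q, h⟩ < (γ : WithZero Γ)}
  add_mem' := by
    rintro a b ⟨ha, ha'⟩ ⟨hb, hb'⟩
    exact ⟨D.add_mem ha hb, (hv.add_le ⟨a, ha⟩ ⟨b, hb⟩).trans_lt (max_lt ha' hb')⟩
  zero_mem' := by
    refine ⟨D.zero_mem, ?_⟩
    have : (⟨0, D.zero_mem⟩ : D) = 0 := rfl
    rw [this, map_zero]
    exact WithZero.zero_lt_coe γ
  smul_mem' := by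
    rintro k x ⟨hx, hx'⟩
    have hmem : k • x ∈ D := by
      rw [Algebra.smul_def]; exact D.mul_mem (hK k) hx
    exact ⟨hmem, (hv.smul_le k x hx hmem).trans_lt hx'⟩

omit [MulLeftMono Γ] in
lemma mem_vle (hv : IsVal D hK v) (γ : Γ) (q : Q) :
    q ∈ vle hv γ ↔ ∃ h : q ∈ D, v ⟨q, h⟩ ≤ (γ : WithZero Γ) := Iff.rfl

omit [MulLeftMono Γ] in
lemma mem_vlt (hv : IsVal D hK v) (γ : Γ) (q : Q) :
    q ∈ vlt hv γ ↔ ∃ h : q ∈ D, v ⟨q, h⟩ < (γ : WithZero Γ) := Iff.rfl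

omit [MulLeftMono Γ] in
lemma vlt_le (hv : IsVal D hK v) (γ : Γ) : vlt hv γ ≤ vle hv γ := by
  rintro q ⟨h, h'⟩
  exact ⟨h, h'.le⟩

omit [MulLeftMono Γ] in
lemma vle_le (hv : IsVal D hK v) (γ δ : Γ) (hγ : γ < δ) : vle hv γ ≤ vlt hv δ := by
  rintro q ⟨h, h'⟩
  exact ⟨h, h'.trans_lt (WithZero.coe_lt_coe.2 hγ)⟩

omit [MulLeftMono Γ] in
lemma exists_val (hv : IsVal D hK v) (x : Q) (hx : x ∈ D) (hx0 : x ≠ 0) :
    ∃ γ, x ∈ vle hv γ ∧ x ∉ vlt hv γ := by
  have h1 : v ⟨x, hx⟩ ≠ 0 := by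
    rw [map_ne_zero]
    intro h
    exact hx0 (congrArg Subtype.val h)
  obtain ⟨γ, hγ⟩ := WithZero.ne_zero_iff_exists.1 h1
  refine ⟨γ, ⟨hx, hγ.ge⟩, ?_⟩
  rintro ⟨_, h⟩
  exact absurd h (not_lt.2 hγ.le)

/-- `D` as a `K`-subspace. -/
def domK (D : Subfield Q) (hK : ∀ k : K, algebraMap K Q k ∈ D) : Submodule K Q where
  carrier := D
  add_mem' := D.add_mem
  zero_mem' := D.zero_mem
  smul_mem' := by
    intro k x hx
    rw [Algebra.smul_def]
    exact D.mul_mem (hK k) hx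

lemma mem_domK (D : Subfield Q) (hK : ∀ k : K, algebraMap K Q k ∈ D) (x : Q) :
    x ∈ domK D hK ↔ x ∈ D := Iff.rfl

lemma wz_le (g γ : Γ) (a : WithZero Γ) :
    (g : WithZero Γ) * a ≤ ((g * γ : Γ) : WithZero Γ) ↔ a ≤ (γ : WithZero Γ) := by
  induction a using WithZero.recZeroCoe with
  | zero => simp
  | coe δ =>
    rw [← WithZero.coe_mul, WithZero.coe_le_coe, WithZero.coe_le_coe, mul_le_mul_iff_left]

lemma wz_lt (g γ : Γ) (a : WithZero Γ) :
    (g : WithZero Γ) * a < ((g * γ : Γ) : WithZero Γ) ↔ a < (γ : WithZero Γ) := by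
  induction a using WithZero.recZeroCoe with
  | zero => simp
  | coe δ =>
    rw [← WithZero.coe_mul, WithZero.coe_lt_coe, WithZero.coe_lt_coe, mul_lt_mul_iff_left]

/-- Left multiplication by an element of value `g` shifts the filtration by `g`. -/
lemma map_inf_vle (hv : IsVal D hK v) (x : D) (g : Γ) (hx : v x = (g : WithZero Γ))
    (T : Submodule K Q) (γ : Γ) :
    T.map (LinearMap.mulLeft K (x : Q)) ⊓ vle hv (g * γ) =
      (T ⊓ vle hv γ).map (LinearMap.mulLeft K (x : Q)) := by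
  have hx0 : (x : Q) ≠ 0 := by
    intro h
    have : x = 0 := Subtype.ext h
    rw [this, map_zero] at hx
    exact WithZero.coe_ne_zero hx.symm
  ext z
  constructor
  · rintro ⟨⟨t, ht, rfl⟩, hz, hz'⟩
    refine ⟨t, ⟨ht, ?_⟩, rfl⟩
    have htD : t ∈ D := by
      have : t = (x : Q)⁻¹ * ((x : Q) * t) := by
        rw [← mul_assoc, inv_mul_cancel₀ hx0, one_mul]
      rw [this]
      exact D.mul_mem (D.inv_mem x.2) hz
    refine ⟨htD, ?_⟩
    have e : (⟨LinearMap.mulLeft K (x : Q) t, hz⟩ : D) = x * ⟨t, htD⟩ := Subtype.ext rfl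
    rw [e, map_mul, hx, wz_le] at hz'
    exact hz'
  · rintro ⟨t, ⟨ht, htD, ht'⟩, rfl⟩
    refine ⟨⟨t, ht, rfl⟩, D.mul_mem x.2 htD, ?_⟩
    have e : (⟨LinearMap.mulLeft K (x : Q) t, D.mul_mem x.2 htD⟩ : D) = x * ⟨t, htD⟩ :=
      Subtype.ext rfl
    rw [e, map_mul, hx, wz_le]
    exact ht'

lemma map_inf_vlt (hv : IsVal D hK v) (x : D) (g : Γ) (hx : v x = (g : WithZero Γ))
    (T : Submodule K Q) (γ : Γ) :
    T.map (LinearMap.mulLeft K (x : Q)) ⊓ vlt hv (g * γ) =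
      (T ⊓ vlt hv γ).map (LinearMap.mulLeft K (x : Q)) := by
  have hx0 : (x : Q) ≠ 0 := by
    intro h
    have : x = 0 := Subtype.ext h
    rw [this, map_zero] at hx
    exact WithZero.coe_ne_zero hx.symm
  ext z
  constructor
  · rintro ⟨⟨t, ht, rfl⟩, hz, hz'⟩
    refine ⟨t, ⟨ht, ?_⟩, rfl⟩
    have htD : t ∈ D := by
      have : t = (x : Q)⁻¹ * ((x : Q) * t) := by
        rw [← mul_assoc, inv_mul_cancel₀ hx0, one_mul]
      rw [this]
      exact D.mul_mem (D.inv_mem x.2) hz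
    refine ⟨htD, ?_⟩
    have e : (⟨LinearMap.mulLeft K (x : Q) t, hz⟩ : D) = x * ⟨t, htD⟩ := Subtype.ext rfl
    rw [e, map_mul, hx, wz_lt] at hz'
    exact hz'
  · rintro ⟨t, ⟨ht, htD, ht'⟩, rfl⟩
    refine ⟨⟨t, ht, rfl⟩, D.mul_mem x.2 htD, ?_⟩
    have e : (⟨LinearMap.mulLeft K (x : Q) t, D.mul_mem x.2 htD⟩ : D) = x * ⟨t, htD⟩ :=
      Subtype.ext rfl
    rw [e, map_mul, hx, wz_lt]
    exact ht'

lemma grdim_shift (hv : IsVal D hK v) (x : D) (g : Γ) (hx : v x = (g : WithZero Γ))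
    (T : Submodule K Q) (γ : Γ) :
    grdim (vle hv) (vlt hv) (T.map (LinearMap.mulLeft K (x : Q))) γ =
      grdim (vle hv) (vlt hv) T (g⁻¹ * γ) := by
  have hx0 : (x : Q) ≠ 0 := by
    intro h
    have : x = 0 := Subtype.ext h
    rw [this, map_zero] at hx
    exact WithZero.coe_ne_zero hx.symm
  have hinj : Function.Injective (LinearMap.mulLeft K (x : Q) : Q →ₗ[K] Q) := by
    intro a b hab
    exact mul_left_cancel₀ hx0 hab
  have e1 := map_inf_vle hv x g hx T (g⁻¹ * γ)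
  have e2 := map_inf_vlt hv x g hx T (g⁻¹ * γ)
  rw [mul_inv_cancel_left] at e1 e2
  unfold grdim
  rw [e1, e2]
  rw [← (LinearEquiv.finrank_eq (Submodule.equivMapOfInjective _ hinj (T ⊓ vle hv (g⁻¹ * γ)))),
    ← (LinearEquiv.finrank_eq (Submodule.equivMapOfInjective _ hinj (T ⊓ vlt hv (g⁻¹ * γ))))]

end Pool.Agent.Helper7.DivSub
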