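import Pool.Agent.Helper7.DivSub.ValIso

/-!
# Isoperimetric inequality for valued division algebras, II
-/

open Module Filter
open scoped ENNReal Pointwise

namespace Pool.Agent.Helper7.DivSub

variable {K Q Γ : Type*} [Field K] [DivisionRing Q] [Algebra K Q]
variable [Group Γ] [LinearOrder Γ] [MulLeftMono Γ]
variable {D : Subfield Q} {hK : ∀ k : K, algebraMap K Q k ∈ D} {v : D →*₀ WithZero Γ}

omit [MulLeftMono Γ] in
lemma tsum_val (hv : IsVal D hK v) (T : Submodule K Q) [hT : FiniteDimensional K T]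
    (hTD : ∀ t ∈ T, t ∈ D) :
    ∑' γ, (grdim (vle hv) (vlt hv) T γ : ℝ≥0∞) = (finrank K T : ℕ) :=
  tsum_grdim (vle hv) (vlt hv) (vlt_le hv) (vle_le hv) (domK D hK)
    (fun x hx hx0 => exists_val hv x hx hx0) _ T hT hTD rfl

lemma le_mul_of_one_mem (L T : Submodule K Q) (h1 : (1 : Q) ∈ L) : T ≤ L * T := by
  intro t ht
  have := Submodule.mul_mem_mul h1 ht
  rwa [one_mul] at this

lemma map_le_mul (L T : Submodule K Q) (x : Q) (hx : x ∈ L) :
    T.map (LinearMap.mulLeft K x) ≤ L * T := by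
  rintro z ⟨t, ht, rfl⟩
  exact Submodule.mul_mem_mul hx ht

lemma diff_le (hv : IsVal D hK v) (L : Submodule K Q) [hL : FiniteDimensional K L]
    (hLD : ∀ l ∈ L, l ∈ D) (h1 : (1 : Q) ∈ L) (x : D) (hxL : (x : Q) ∈ L) (g : Γ)
    (hx : v x = (g : WithZero Γ)) (T : Submodule K Q) [hT : FiniteDimensional K T]
    (hTD : ∀ t ∈ T, t ∈ D) :
    ∑' γ, ((grdim (vle hv) (vlt hv) T (g⁻¹ * γ) : ℝ≥0∞) - grdim (vle hv) (vlt hv) T γ) ≤
      ((finrank K ↥(L * T) - finrank K T : ℕ) : ℝ≥0∞) := by
  have hLT : ∀ t ∈ L * T, t ∈ D := by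
    intro t ht
    induction ht using Submodule.mul_induction_on' with
    | mem_mul_mem a ha b hb => exact D.mul_mem (hLD a ha) (hTD b hb)
    | add a _ b _ ha hb => exact D.add_mem ha hb
  have s1 := tsum_val hv T hTD
  have s2 := tsum_val hv (L * T) hLT
  have key : ∑' γ, ((grdim (vle hv) (vlt hv) T (g⁻¹ * γ) : ℝ≥0∞) -
      grdim (vle hv) (vlt hv) T γ) + (finrank K T : ℕ) ≤ (finrank K ↥(L * T) : ℕ) := by
    rw [← s1, ← s2, ← ENNReal.tsum_add]
    apply ENNReal.tsum_le_tsum
    intro γ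
    rw [tsub_add_eq_max]
    apply max_le
    · rw [← grdim_shift hv x g hx T γ]
      have := grdim_mono (vle hv) (vlt hv) (vlt_le hv) _ _ (map_le_mul L T x hxL) γ
      exact_mod_cast this
    · have := grdim_mono (vle hv) (vlt hv) (vlt_le hv) _ _ (le_mul_of_one_mem L T h1) γ
      exact_mod_cast this
  rw [ENNReal.natCast_sub]
  exact ENNReal.le_sub_of_add_le_right (ENNReal.natCast_ne_top _) key

/-- Isoperimetric inequality for a division algebra with a valuation whose values grow. -/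
theorem val_iso [DecidableEq Γ] (hv : IsVal D hK v) (S : Finset Γ)
    (hS : ∀ g ∈ S, ∃ x : D, v x = (g : WithZero Γ)) (c e : ℝ) (hc : 0 < c) (he : 0 < e)
    (hG : ∀ m : ℕ, c * (m : ℝ) ^ e ≤ ((S ^ m).card : ℝ)) :
    ∃ L : Submodule K Q, FiniteDimensional K L ∧ (∀ l ∈ L, l ∈ D) ∧ ∃ c' : ℝ, 0 < c' ∧
      ∀ T : Submodule K Q, FiniteDimensional K T → T ≠ ⊥ → (∀ t ∈ T, t ∈ D) →
        (finrank K T : ℝ) + c' * (finrank K T : ℝ) ^ (1 - 1 / e) ≤ finrank K ↥(L * T) := by
  classical
  obtain ⟨c', hc', hiso⟩ := iso_of_count c e hc he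
  choose! x hx using hS
  set s : Finset Q := insert 1 (S.image (fun g => (x g : Q))) with hs
  set L : Submodule K Q := Submodule.span K (s : Set Q) with hL
  have hLf : FiniteDimensional K L := FiniteDimensional.span_finset K s
  have h1 : (1 : Q) ∈ L := Submodule.subset_span (by simp [hs])
  have hxL : ∀ g ∈ S, (x g : Q) ∈ L := by
    intro g hg
    apply Submodule.subset_span
    simp only [hs, Finset.coe_insert, Finset.coe_image, Set.mem_insert_iff, Set.mem_image,
      Finset.mem_coe]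
    exact Or.inr ⟨g, hg, rfl⟩
  have hLD : ∀ l ∈ L, l ∈ D := by
    have h2 : L ≤ domK D hK := by
      rw [hL, Submodule.span_le]
      intro z hz
      simp only [hs, Finset.coe_insert, Finset.coe_image, Set.mem_insert_iff, Set.mem_image,
        Finset.mem_coe] at hz
      rcases hz with rfl | ⟨g, _, rfl⟩
      · exact D.one_mem
      · exact (x g).2
    exact fun l hl => h2 hl
  refine ⟨L, hLf, hLD, c', hc', fun T hT hT0 hTD => ?_⟩
  have hN : 1 ≤ finrank K T := by
    have : 0 < finrank K T := by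
      rw [Module.finrank_pos_iff]
      exact (Submodule.nontrivial_iff_ne_bot).2 hT0
    omega
  have hle : finrank K T ≤ finrank K ↥(L * T) :=
    Submodule.finrank_mono (le_mul_of_one_mem L T h1)
  have hcount := count_le (fun γ => grdim (vle hv) (vlt hv) T γ) (finrank K T)
    (finrank K ↥(L * T) - finrank K T) S (tsum_val hv T hTD)
    (fun g hg => diff_le hv L hLD h1 (x g) (hxL g hg) g (hx g hg) T hTD)
  have h2 := hiso (fun m => (S ^ m).card) hG (finrank K T)
    (finrank K ↥(L * T) - finrank K T) hN hcount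
  rw [Nat.cast_sub hle] at h2
  linarith

end Pool.Agent.Helper7.DivSub
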